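import Pool.Agent.E9helper80.TD.Stm

/-!
# Project TD, piece CHO
-/

set_option autoImplicit false

namespace Pool.Agent.E9helper80.TD

theorem s_cho : S_CHO := by
  intro hmon a b ha hab hb
  obtain ⟨⟨hYa, hYa1, hEa, hYb, hYb1, hEb⟩, h⟩ := hmon a b ha hab hb
  simp only
  set Ya : ℝ := (a - 2) * (a - 3) ^ 2 / (a ^ 3 - 9 * a ^ 2 + 29 * a - 32) with hYa'
  set Yb : ℝ := (b - 2) * (b - 3) ^ 2 / (b ^ 3 - 9 * b ^ 2 + 29 * b - 32) with hYb'
  set Ea : ℝ := (a - 2) / (a - 3) with hEa'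
  set Eb : ℝ := (b - 2) / (b - 3) with hEb'
  have hea : 0 < Real.log Ea := Real.log_pos hEa
  have heb : 0 < Real.log Eb := Real.log_pos hEb
  have hya : Real.log Ya < 0 := Real.log_neg hYa hYa1
  have hyb : Real.log Yb < 0 := Real.log_neg hYb hYb1
  have h1 : -Real.log Yb / Real.log Eb < -Real.log Ya / Real.log Ea := by
    rw [div_lt_div_iff₀ heb hea]
    exact h
  obtain ⟨r, hr1, hr2⟩ := exists_rat_btwn h1
  have hr0 : (0 : ℝ) < r := (div_pos (neg_pos.2 hyb) heb).trans hr1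
  have hr0' : 0 < r := by exact_mod_cast hr0
  have hnum : 0 < r.num := Rat.num_pos.2 hr0'
  have hden : (0 : ℝ) < r.den := by exact_mod_cast r.den_pos
  obtain ⟨m₁, hm₁⟩ := Int.eq_ofNat_of_zero_le hnum.le
  have hr : (r : ℝ) = m₁ / r.den := by
    have h2 : (r : ℝ) = (r.num : ℝ) / (r.den : ℝ) := by exact_mod_cast (Rat.num_div_den r).symm
    rw [h2, hm₁]
    rfl
  have hm1 : 1 ≤ m₁ := by omega
  refine ⟨m₁, r.den, hm1, r.den_pos, ?_, ?_⟩
  · have h2 : m₁ * Real.log Ea < r.den * -Real.log Ya := by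
      rw [hr, div_lt_div_iff₀ hden hea] at hr2
      linarith
    rw [← Real.log_neg_iff (mul_pos (pow_pos (by linarith) _) (pow_pos hYa _)),
      Real.log_mul (pow_pos (by linarith) _).ne' (pow_pos hYa _).ne', Real.log_pow, Real.log_pow]
    linarith
  · have h2 : r.den * -Real.log Yb < m₁ * Real.log Eb := by
      rw [hr, div_lt_div_iff₀ heb hden] at hr1
      linarith
    rw [← Real.log_pos_iff (mul_pos (pow_pos (by linarith) _) (pow_pos hYb _)).le,
      Real.log_mul (pow_pos (by linarith) _).ne' (pow_pos hYb _).ne', Real.log_pow, Real.log_pow]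
    linarith

end Pool.Agent.E9helper80.TD
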