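import Pool.Agent.E9helper80.TD.Stm

/-!
# CNV: the count as the number of colourings `Fin n → Fin k`
-/

namespace Pool.Agent.E9helper80.TD

/-- the extension by zero -/
def CNVx_ext {n k : ℕ} (c : Fin n → Fin k) : ℕ → ℕ := fun x =>
  if h : x < n then (c ⟨x, h⟩ : ℕ) else 0

theorem s_cnv : S_CNV := by
  intro n k G hG
  rw [num, ← Nat.card_coe_set_eq]
  refine Nat.card_congr
    { toFun := fun c => ⟨CNVx_ext c.1, ⟨⟨fun x hx => ?_, fun x hx => ?_⟩, fun x y hxy => ?_⟩⟩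
      invFun := fun c => ⟨fun x => ⟨c.1 x, c.2.1.1 x x.isLt⟩, fun x y hxy h =>
        c.2.2 x y hxy (Fin.mk.inj_iff.1 h)⟩
      left_inv := fun c => ?_
      right_inv := fun c => ?_ }
  · simp only [CNVx_ext, dif_pos hx]
    exact (c.1 ⟨x, hx⟩).isLt
  · simp only [CNVx_ext, dif_neg (Nat.not_lt.2 hx)]
  · obtain ⟨hx, hy⟩ := hG x y hxy
    simp only [CNVx_ext, dif_pos hx, dif_pos hy]
    intro h
    exact c.2 ⟨x, hx⟩ ⟨y, hy⟩ hxy (Fin.ext h)
  · apply Subtype.ext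
    funext x
    apply Fin.ext
    simp [CNVx_ext]
  · apply Subtype.ext
    funext x
    by_cases hx : x < n
    · simp [CNVx_ext, hx]
    · simp only [CNVx_ext, dif_neg hx]
      exact (c.2.1.2 x (Nat.not_lt.1 hx)).symm

end Pool.Agent.E9helper80.TD
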