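import Pool.Agent.E9helper80.TD.Stm3

/-!
# Project TD, part 3, piece CXC
-/

set_option autoImplicit false

namespace Pool.Agent.E9helper80.TD

open Polynomial

namespace CXC

/-- the quotient `κ / Λ'` -/
noncomputable def kap (m₁ m₂ : ℕ) (z : ℂ) : ℂ :=
  ((-1) ^ m₁ * (2 * (z - 3)) ^ m₂) / ((z - 3) ^ m₁ * LL z ^ m₂)

/-- the factor of the error term -/
noncomputable def fac (z : ℂ) : ℂ := ((z - 2) + (z - 1) * (z - 3)) / (z - 2) ^ 2

theorem LL_cont : Continuous LL := by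
  unfold LL
  fun_prop

theorem LL_diff : Differentiable ℂ LL := by
  unfold LL
  fun_prop

theorem ne_two {z : ℂ} (h : 5 / 2 < z.re) : z - 2 ≠ 0 := by
  intro h0
  have h1 : z = 2 := by linear_combination h0
  rw [h1] at h
  norm_num at h

theorem ne_one {z : ℂ} (h : 5 / 2 < z.re) : z - 1 ≠ 0 := by
  intro h0
  have h1 : z = 1 := by linear_combination h0
  rw [h1] at h
  norm_num at h

theorem ne_three {z : ℂ} (h : 1 < ‖z - 3‖) : z - 3 ≠ 0 := by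
  intro h0
  rw [h0, norm_zero] at h
  linarith

theorem ne_LL {z : ℂ} (h : ‖2 * (z - 3)‖ < ‖LL z‖) : LL z ≠ 0 := by
  intro h0
  rw [h0, norm_zero] at h
  have := norm_nonneg (2 * (z - 3))
  linarith

theorem UU_open : IsOpen UU := by
  have e : UU = {z : ℂ | 5 / 2 < z.re} ∩ ({z : ℂ | 1 < ‖z - 3‖} ∩ ({z : ℂ | ‖2 * (z - 3)‖ < ‖LL z‖} ∩
      {z : ℂ | ‖(z - 2) * (z - 3) ^ 2‖ < ‖LL z‖})) := rfl
  rw [e]
  have h := LL_cont
  refine IsOpen.inter (isOpen_lt continuous_const Complex.continuous_re) (IsOpen.inter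
    (isOpen_lt continuous_const (by fun_prop)) (IsOpen.inter (isOpen_lt (by fun_prop) h.norm)
      (isOpen_lt (by fun_prop) h.norm)))

theorem kap_lt {m₁ m₂ : ℕ} (h1 : 1 ≤ m₁) {z : ℂ} (hz : z ∈ UU) : ‖kap m₁ m₂ z‖ < 1 := by
  obtain ⟨-, h3, h4, -⟩ := hz
  unfold kap
  rw [norm_div, norm_mul, norm_mul, norm_pow, norm_pow, norm_pow, norm_pow, norm_neg, norm_one, one_pow,
    one_mul]
  have hL : 0 < ‖LL z‖ := norm_pos_iff.2 (ne_LL h4)
  have h5 : 1 < ‖z - 3‖ ^ m₁ := one_lt_pow₀ h3 (by omega)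
  have h6 : ‖2 * (z - 3)‖ ^ m₂ ≤ ‖LL z‖ ^ m₂ := pow_le_pow_left₀ (norm_nonneg _) h4.le _
  have h7 : 0 < ‖LL z‖ ^ m₂ := pow_pos hL _
  rw [div_lt_one (by positivity)]
  calc ‖2 * (z - 3)‖ ^ m₂ ≤ ‖LL z‖ ^ m₂ := h6
    _ = 1 * ‖LL z‖ ^ m₂ := (one_mul _).symm
    _ < ‖z - 3‖ ^ m₁ * ‖LL z‖ ^ m₂ := mul_lt_mul_of_pos_right h5 h7

theorem bracket {m₁ m₂ N : ℕ} {z : ℂ} (h2 : z - 2 ≠ 0) (h3 : z - 3 ≠ 0) (hL : LL z ≠ 0)
    (h : RR m₁ m₂ z ^ N = -((z - 1) * (z - 3) ^ 2 / (z - 2) ^ 2) + -(fac z * kap m₁ m₂ z ^ N)) :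
    (z - 2) * ((z - 2) * ((z - 2) ^ (m₁ * N) * ((z - 2) * (z - 3) ^ 2) ^ (m₂ * N)) +
          (-1) ^ (m₁ * N) * (2 * (z - 3)) ^ (m₂ * N)) +
        (z - 1) * (z - 3) * ((z - 3) * ((z - 3) ^ (m₁ * N) * LL z ^ (m₂ * N)) +
          (-1) ^ (m₁ * N) * (2 * (z - 3)) ^ (m₂ * N)) = 0 := by
  have e1 : RR m₁ m₂ z = ((z - 2) ^ m₁ * ((z - 2) * (z - 3) ^ 2) ^ m₂) / ((z - 3) ^ m₁ * LL z ^ m₂) := by
    unfold RR
    rw [div_pow, div_pow, div_mul_div_comm]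
  obtain ⟨A, hA⟩ : ∃ A, A = (z - 2) ^ m₁ * ((z - 2) * (z - 3) ^ 2) ^ m₂ := ⟨_, rfl⟩
  obtain ⟨B, hB⟩ : ∃ B, B = (z - 3) ^ m₁ * LL z ^ m₂ := ⟨_, rfl⟩
  obtain ⟨C, hC⟩ : ∃ C, C = (-1 : ℂ) ^ m₁ * (2 * (z - 3)) ^ m₂ := ⟨_, rfl⟩
  have hB0 : B ≠ 0 := by
    rw [hB]
    exact mul_ne_zero (pow_ne_zero _ h3) (pow_ne_zero _ hL)
  have e2 : (z - 2) ^ (m₁ * N) * ((z - 2) * (z - 3) ^ 2) ^ (m₂ * N) = A ^ N := by
    rw [hA, mul_pow ((z - 2) ^ m₁), ← pow_mul, ← pow_mul]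
  have e3 : (z - 3) ^ (m₁ * N) * LL z ^ (m₂ * N) = B ^ N := by
    rw [hB, mul_pow, ← pow_mul, ← pow_mul]
  have e4 : (-1) ^ (m₁ * N) * (2 * (z - 3)) ^ (m₂ * N) = C ^ N := by
    rw [hC, mul_pow ((-1 : ℂ) ^ m₁), ← pow_mul, ← pow_mul]
  rw [e2, e3, e4]
  have e5 : kap m₁ m₂ z = C / B := by rw [hC, hB]; rfl
  rw [e1, e5, ← hA, ← hB, div_pow, div_pow] at h
  unfold fac at h
  have hBN : B ^ N ≠ 0 := pow_ne_zero _ hB0
  have h22 : (z - 2) ^ 2 ≠ 0 := pow_ne_zero _ h2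
  have h6 : (z - 2) ^ 2 * A ^ N = -((z - 1) * (z - 3) ^ 2 * B ^ N) -
      ((z - 2) + (z - 1) * (z - 3)) * C ^ N := by
    have h7 : (z - 2) ^ 2 * A ^ N = (A ^ N / B ^ N) * ((z - 2) ^ 2 * B ^ N) := by
      field_simp
    rw [h7, h]
    field_simp
    ring
  linear_combination h6

end CXC

theorem s_cxc : S_CXC := by
  intro hroot hptc hfam z₀ hz₀ ε hε
  obtain ⟨m₁, m₂, q, hm₁, hm₂, hqz, hq, hR1, hR2⟩ := hptc z₀ hz₀ (ε / 2) (by linarith)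
  -- choice of the ball
  obtain ⟨ρ, hρ1, hρ2⟩ := exists_between (CXC.kap_lt (m₂ := m₂) hm₁ hq)
  have hq2 := CXC.ne_two hq.1
  have hq3 := CXC.ne_three hq.2.1
  have hqL := CXC.ne_LL hq.2.2.1
  have c1 : ContinuousAt (fun z => ‖CXC.kap m₁ m₂ z‖) q := by
    unfold CXC.kap
    have hL := CXC.LL_cont.continuousAt (x := q)
    refine (ContinuousAt.div (by fun_prop) ?_ ?_).norm
    · exact ContinuousAt.mul (by fun_prop) (hL.pow _)
    · exact mul_ne_zero (pow_ne_zero _ hq3) (pow_ne_zero _ hqL)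
  have c2 : ContinuousAt (fun z => ‖CXC.fac z‖) q := by
    have h22 : (q - 2) ^ 2 ≠ 0 := pow_ne_zero _ hq2
    have : ContinuousAt (fun z : ℂ => ((z - 2) + (z - 1) * (z - 3)) / (z - 2) ^ 2) q := by
      fun_prop (disch := exact h22)
    exact this.norm
  have v1 : ∀ᶠ z in nhds q, ‖CXC.kap m₁ m₂ z‖ < ρ := c1.eventually_lt continuousAt_const hρ1
  have v2 : ∀ᶠ z in nhds q, ‖CXC.fac z‖ < ‖CXC.fac q‖ + 1 :=
    c2.eventually_lt continuousAt_const (by linarith)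
  have v3 : ∀ᶠ z in nhds q, z ∈ UU := CXC.UU_open.mem_nhds hq
  obtain ⟨r₀, hr₀, hball⟩ := Metric.eventually_nhds_iff_ball.1 (v1.and (v2.and v3))
  have hρ0 : 0 ≤ ρ := (norm_nonneg _).trans hρ1.le
  have key := hroot (RR m₁ m₂) (fun z => -((z - 1) * (z - 3) ^ 2 / (z - 2) ^ 2))
    (fun N z => -(CXC.fac z * CXC.kap m₁ m₂ z ^ N)) q r₀ hr₀ ?_ ?_ ?_ hR1 hR2 ?_ ?_ (ε / 2) (by linarith)
  · obtain ⟨N, hN1, z, hz1, hz2, hz3⟩ := ((Filter.eventually_ge_atTop 1).and key).exists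
    have hzU := (hball z hz2).2.2
    have hz2' := CXC.ne_two hzU.1
    have hz1' := CXC.ne_one hzU.1
    have hz3' := CXC.ne_three hzU.2.1
    have hzL := CXC.ne_LL hzU.2.2.1
    refine ⟨z, ?_, ?_⟩
    · calc ‖z - z₀‖ = ‖(z - q) + (q - z₀)‖ := by ring_nf
        _ ≤ ‖z - q‖ + ‖q - z₀‖ := norm_add_le _ _
        _ < ε / 2 + ε / 2 := add_lt_add hz1 hqz
        _ = ε := by ring
    · obtain ⟨n, G, F, p, hT, hp, hf⟩ := hfam (m₁ * N) (m₂ * N) (Nat.mul_pos hm₁ hN1)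
      refine ⟨n, G, F, p, hT, hp, ?_⟩
      have h1 := hf z
      rw [CXC.bracket hz2' hz3' hzL hz3, mul_zero] at h1
      exact (mul_eq_zero.1 h1).resolve_left (mul_ne_zero hz1' hz2')
  · -- `R`
    intro z hz
    have hzU := (hball z hz).2.2
    have hz3' := CXC.ne_three hzU.2.1
    have hzL := CXC.ne_LL hzU.2.2.1
    have hL := CXC.LL_diff z
    have d1 : DifferentiableAt ℂ (fun z : ℂ => (z - 2) / (z - 3)) z := by
      fun_prop (disch := exact hz3')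
    have d2 : DifferentiableAt ℂ (fun z : ℂ => (z - 2) * (z - 3) ^ 2 / LL z) z :=
      DifferentiableAt.fun_div (by fun_prop) hL hzL
    have : DifferentiableAt ℂ (RR m₁ m₂) z := (d1.fun_pow m₁).fun_mul (d2.fun_pow m₂)
    exact this.differentiableWithinAt
  · -- `H`
    intro z hz
    have hzU := (hball z hz).2.2
    have hz2' := CXC.ne_two hzU.1
    have h22 : (z - 2) ^ 2 ≠ 0 := pow_ne_zero _ hz2'
    have : DifferentiableAt ℂ (fun z : ℂ => -((z - 1) * (z - 3) ^ 2 / (z - 2) ^ 2)) z := by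
      fun_prop (disch := exact h22)
    exact this.differentiableWithinAt
  · -- `e`
    intro N z hz
    have hzU := (hball z hz).2.2
    have hz2' := CXC.ne_two hzU.1
    have hz3' := CXC.ne_three hzU.2.1
    have hzL := CXC.ne_LL hzU.2.2.1
    have hL := CXC.LL_diff z
    have h22 : (z - 2) ^ 2 ≠ 0 := pow_ne_zero _ hz2'
    have d1 : DifferentiableAt ℂ CXC.fac z := by
      show DifferentiableAt ℂ (fun z : ℂ => ((z - 2) + (z - 1) * (z - 3)) / (z - 2) ^ 2) z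
      fun_prop (disch := exact h22)
    have d2 : DifferentiableAt ℂ (CXC.kap m₁ m₂) z := by
      show DifferentiableAt ℂ (fun z : ℂ =>
        ((-1) ^ m₁ * (2 * (z - 3)) ^ m₂) / ((z - 3) ^ m₁ * LL z ^ m₂)) z
      refine DifferentiableAt.fun_div (by fun_prop) ?_ ?_
      · exact DifferentiableAt.fun_mul (by fun_prop) (hL.fun_pow _)
      · exact mul_ne_zero (pow_ne_zero _ hz3') (pow_ne_zero _ hzL)
    have : DifferentiableAt ℂ (fun z => -(CXC.fac z * CXC.kap m₁ m₂ z ^ N)) z :=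
      (d1.fun_mul (d2.fun_pow N)).fun_neg
    exact this.differentiableWithinAt
  · -- `H q ≠ 0`
    exact neg_ne_zero.2 (div_ne_zero (mul_ne_zero (CXC.ne_one hq.1) (pow_ne_zero _ hq3))
      (pow_ne_zero _ hq2))
  · -- the error term
    intro δ hδ
    have t : Filter.Tendsto (fun N : ℕ => (‖CXC.fac q‖ + 1) * ρ ^ N) Filter.atTop (nhds 0) := by
      have := (tendsto_pow_atTop_nhds_zero_of_lt_one hρ0 hρ2).const_mul (‖CXC.fac q‖ + 1)
      rwa [mul_zero] at this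
    filter_upwards [t.eventually_lt_const hδ] with N hN z hz
    obtain ⟨b1, b2, -⟩ := hball z hz
    calc ‖-(CXC.fac z * CXC.kap m₁ m₂ z ^ N)‖ = ‖CXC.fac z‖ * ‖CXC.kap m₁ m₂ z‖ ^ N := by
          rw [norm_neg, norm_mul, norm_pow]
      _ ≤ (‖CXC.fac q‖ + 1) * ρ ^ N :=
          mul_le_mul b2.le (pow_le_pow_left₀ (norm_nonneg _) b1.le _) (by positivity)
            (by positivity)
      _ < δ := hN

end Pool.Agent.E9helper80.TD
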