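import Pool.Agent.E9helper80.TD.Stm2

/-! Piece CXF of project TD, part 2 (helper80): assembly of the theorem on complex zeros. -/

set_option autoImplicit false

namespace Pool.Agent.E9helper80.TD

open Polynomial Filter Topology

namespace CXF

def KK (m₁ m₂ : ℕ) (z : ℂ) : ℂ := (-1) ^ m₁ * (2 * (z - 3)) ^ m₂
def LP (m₁ m₂ : ℕ) (z : ℂ) : ℂ := (z - 3) ^ m₁ * LL z ^ m₂
noncomputable def GG (z : ℂ) : ℂ := ((z - 2) + (z - 1) * (z - 3)) / (z - 2) ^ 2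
noncomputable def HH (z : ℂ) : ℂ := -((z - 1) * (z - 3) ^ 2 / (z - 2) ^ 2)
noncomputable def ee (m₁ m₂ N : ℕ) (z : ℂ) : ℂ := -(GG z * (KK m₁ m₂ z / LP m₁ m₂ z) ^ N)

theorem bracket {m₁ m₂ N : ℕ} {z : ℂ} (h2 : z - 2 ≠ 0) (h3 : z - 3 ≠ 0) (hL : LL z ≠ 0)
    (h : RR m₁ m₂ z ^ N = HH z + ee m₁ m₂ N z) :
    (z - 2) * ((z - 2) * ((z - 2) ^ (m₁ * N) * ((z - 2) * (z - 3) ^ 2) ^ (m₂ * N)) +
          (-1) ^ (m₁ * N) * (2 * (z - 3)) ^ (m₂ * N)) +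
        (z - 1) * (z - 3) * ((z - 3) * ((z - 3) ^ (m₁ * N) * LL z ^ (m₂ * N)) +
          (-1) ^ (m₁ * N) * (2 * (z - 3)) ^ (m₂ * N)) = 0 := by
  have hLP : LP m₁ m₂ z ≠ 0 := mul_ne_zero (pow_ne_zero _ h3) (pow_ne_zero _ hL)
  have hR : RR m₁ m₂ z = ((z - 2) ^ m₁ * ((z - 2) * (z - 3) ^ 2) ^ m₂) / LP m₁ m₂ z := by
    unfold RR LP
    rw [div_pow, div_pow, div_mul_div_comm]
  have e1 : (z - 2) ^ (m₁ * N) * ((z - 2) * (z - 3) ^ 2) ^ (m₂ * N) =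
      ((z - 2) ^ m₁ * ((z - 2) * (z - 3) ^ 2) ^ m₂) ^ N := by
    rw [mul_pow ((z - 2) ^ m₁), ← pow_mul, ← pow_mul]
  have e2 : (-1 : ℂ) ^ (m₁ * N) * (2 * (z - 3)) ^ (m₂ * N) = KK m₁ m₂ z ^ N := by
    unfold KK
    rw [mul_pow ((-1 : ℂ) ^ m₁), ← pow_mul, ← pow_mul]
  have e3 : (z - 3) ^ (m₁ * N) * LL z ^ (m₂ * N) = LP m₁ m₂ z ^ N := by
    unfold LP
    rw [mul_pow ((z - 3) ^ m₁), ← pow_mul, ← pow_mul]
  rw [e1, e2, e3]
  rw [hR, div_pow] at h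
  unfold HH ee GG at h
  rw [div_pow] at h
  generalize (z - 2) ^ m₁ * ((z - 2) * (z - 3) ^ 2) ^ m₂ = A at h ⊢
  have hLN : LP m₁ m₂ z ^ N ≠ 0 := pow_ne_zero _ hLP
  generalize LP m₁ m₂ z ^ N = B at h hLN ⊢
  generalize KK m₁ m₂ z ^ N = C at h ⊢
  field_simp at h
  linear_combination h

end CXF

open CXF in
theorem s_cxf : S_CXF := by
  intro hROOT hPT hDER hFAM x hx4 hx5 ε hε
  obtain ⟨δ, hδ0, hδ1, hδ2, hδ3⟩ : ∃ δ : ℝ, 0 < δ ∧ δ < x - 4 ∧ δ < 4 + √2 - x ∧ δ < ε / 2 := by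
    refine ⟨min (min ((x - 4) / 2) ((4 + √2 - x) / 2)) (ε / 4), ?_, ?_, ?_, ?_⟩
    · refine lt_min (lt_min ?_ ?_) ?_ <;> linarith
    · have := (min_le_left (min ((x - 4) / 2) ((4 + √2 - x) / 2)) (ε / 4)).trans (min_le_left _ _)
      linarith
    · have := (min_le_left (min ((x - 4) / 2) ((4 + √2 - x) / 2)) (ε / 4)).trans (min_le_right _ _)
      linarith
    · have := min_le_right (min ((x - 4) / 2) ((4 + √2 - x) / 2)) (ε / 4)
      linarith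
  obtain ⟨m₁, m₂, q, h1, h2, haq, hqb, hR⟩ := hPT (x - δ) (x + δ) (by linarith) (by linarith) (by linarith)
  have hq4 : 4 < q := by linarith
  have hq5 : q < 4 + √2 := by linarith
  have hRq : RR m₁ m₂ (q : ℂ) = 1 := by
    have h := congrArg (fun t : ℝ => (t : ℂ)) hR
    push_cast at h
    exact h
  have hD := hDER m₁ m₂ q h1 h2 hq4 hq5 hRq
  have n1 : (q : ℂ) - 1 ≠ 0 := by
    have : (q : ℂ) - 1 = ((q - 1 : ℝ) : ℂ) := by push_cast; ring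
    rw [this]
    exact Complex.ofReal_ne_zero.2 (by linarith)
  have n2 : (q : ℂ) - 2 ≠ 0 := by
    have : (q : ℂ) - 2 = ((q - 2 : ℝ) : ℂ) := by push_cast; ring
    rw [this]
    exact Complex.ofReal_ne_zero.2 (by linarith)
  have e3 : (q : ℂ) - 3 = ((q - 3 : ℝ) : ℂ) := by push_cast; ring
  have n3 : (q : ℂ) - 3 ≠ 0 := by
    rw [e3]
    exact Complex.ofReal_ne_zero.2 (by linarith)
  have hL0 : 2 * (q - 3) < q ^ 3 - 9 * q ^ 2 + 29 * q - 32 := by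
    nlinarith [mul_pos (mul_pos (show (0:ℝ) < q - 3 by linarith) (show (0:ℝ) < q - 3 by linarith))
      (show (0:ℝ) < q - 3 by linarith)]
  have eL : LL (q : ℂ) = ((q ^ 3 - 9 * q ^ 2 + 29 * q - 32 : ℝ) : ℂ) := by
    unfold LL; push_cast; ring
  have nL : LL (q : ℂ) ≠ 0 := by
    rw [eL]
    exact Complex.ofReal_ne_zero.2 (by linarith)
  have nLP : LP m₁ m₂ (q : ℂ) ≠ 0 := mul_ne_zero (pow_ne_zero _ n3) (pow_ne_zero _ nL)
  have dL : Differentiable ℂ LL := by unfold LL; fun_prop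
  have dK : Differentiable ℂ (KK m₁ m₂) := by unfold KK; fun_prop
  have dP : Differentiable ℂ (LP m₁ m₂) := by unfold LP LL; fun_prop
  have hv : ‖KK m₁ m₂ (q : ℂ) / LP m₁ m₂ (q : ℂ)‖ < 1 := by
    rw [norm_div, div_lt_one (norm_pos_iff.2 nLP)]
    unfold KK LP
    rw [norm_mul, norm_mul, norm_pow, norm_pow, norm_pow, norm_pow, norm_neg, norm_one, one_pow, one_mul,
      norm_mul, e3, eL, Complex.norm_real, Complex.norm_real, Complex.norm_ofNat, Real.norm_eq_abs,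
      Real.norm_eq_abs, abs_of_pos (show (0:ℝ) < q - 3 by linarith),
      abs_of_pos (show (0:ℝ) < q ^ 3 - 9 * q ^ 2 + 29 * q - 32 by linarith)]
    have a1 : (2 * (q - 3)) ^ m₂ < (q ^ 3 - 9 * q ^ 2 + 29 * q - 32) ^ m₂ :=
      pow_lt_pow_left₀ hL0 (by linarith) (by omega)
    have a2 : (1:ℝ) ≤ (q - 3) ^ m₁ := one_le_pow₀ (by linarith)
    have a3 : (0:ℝ) < (q ^ 3 - 9 * q ^ 2 + 29 * q - 32) ^ m₂ := pow_pos (by linarith) _
    nlinarith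
  obtain ⟨ρ, hρ1, hρ2⟩ := exists_between hv
  have hρ0 : 0 ≤ ρ := (norm_nonneg _).trans hρ1.le
  have cF : ContinuousAt (fun z => KK m₁ m₂ z / LP m₁ m₂ z) (q : ℂ) :=
    dK.continuous.continuousAt.div dP.continuous.continuousAt nLP
  have cG : ContinuousAt GG (q : ℂ) := by
    unfold GG
    exact ContinuousAt.div (by fun_prop) (by fun_prop) (pow_ne_zero _ n2)
  have ev : ∀ᶠ z in 𝓝 (q : ℂ), z - 1 ≠ 0 ∧ z - 2 ≠ 0 ∧ z - 3 ≠ 0 ∧ LL z ≠ 0 ∧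
      ‖KK m₁ m₂ z / LP m₁ m₂ z‖ < ρ ∧ ‖GG z‖ < ‖GG (q : ℂ)‖ + 1 := by
    have c1 : ContinuousAt (fun z : ℂ => z - 1) (q : ℂ) := by fun_prop
    have c2 : ContinuousAt (fun z : ℂ => z - 2) (q : ℂ) := by fun_prop
    have c3 : ContinuousAt (fun z : ℂ => z - 3) (q : ℂ) := by fun_prop
    filter_upwards [c1.eventually_ne n1, c2.eventually_ne n2, c3.eventually_ne n3,
      dL.continuous.continuousAt.eventually_ne nL, cF.norm.eventually_lt continuousAt_const hρ1,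
      cG.norm.eventually_lt (continuousAt_const (y := ‖GG (q : ℂ)‖ + 1)) (lt_add_one _)]
      with z a1 a2 a3 a4 a5 a6
    exact ⟨a1, a2, a3, a4, a5, a6⟩
  obtain ⟨r₀, hr₀, hball⟩ := Metric.eventually_nhds_iff_ball.1 ev
  have dR : DifferentiableOn ℂ (RR m₁ m₂) (Metric.ball (q : ℂ) r₀) := by
    intro z hz
    obtain ⟨a1, a2, a3, a4, a5, a6⟩ := hball z hz
    have r1 : DifferentiableAt ℂ (fun z : ℂ => (z - 2) / (z - 3)) z :=
      DifferentiableAt.div (by fun_prop) (by fun_prop) a3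
    have r2 : DifferentiableAt ℂ (fun z : ℂ => (z - 2) * (z - 3) ^ 2 / LL z) z :=
      DifferentiableAt.div (by fun_prop) (dL z) a4
    exact ((r1.pow m₁).mul (r2.pow m₂)).differentiableWithinAt
  have dH : DifferentiableOn ℂ HH (Metric.ball (q : ℂ) r₀) := by
    intro z hz
    obtain ⟨a1, a2, a3, a4, a5, a6⟩ := hball z hz
    have r1 : DifferentiableAt ℂ (fun z : ℂ => (z - 1) * (z - 3) ^ 2 / (z - 2) ^ 2) z :=
      DifferentiableAt.div (by fun_prop) (by fun_prop) (pow_ne_zero _ a2)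
    exact r1.neg.differentiableWithinAt
  have de : ∀ N, DifferentiableOn ℂ (ee m₁ m₂ N) (Metric.ball (q : ℂ) r₀) := by
    intro N z hz
    obtain ⟨a1, a2, a3, a4, a5, a6⟩ := hball z hz
    have b1 : DifferentiableAt ℂ (fun z : ℂ => ((z - 2) + (z - 1) * (z - 3)) / (z - 2) ^ 2) z :=
      DifferentiableAt.div (by fun_prop) (by fun_prop) (pow_ne_zero _ a2)
    have b2 : DifferentiableAt ℂ (fun z : ℂ => KK m₁ m₂ z / LP m₁ m₂ z) z :=
      (dK z).div (dP z) (mul_ne_zero (pow_ne_zero _ a3) (pow_ne_zero _ a4))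
    have hd : DifferentiableAt ℂ (fun z : ℂ => -(((z - 2) + (z - 1) * (z - 3)) / (z - 2) ^ 2 *
      (KK m₁ m₂ z / LP m₁ m₂ z) ^ N)) z := (b1.mul (b2.pow N)).neg
    exact hd.differentiableWithinAt
  have hHq : HH (q : ℂ) ≠ 0 :=
    neg_ne_zero.2 (div_ne_zero (mul_ne_zero n1 (pow_ne_zero _ n3)) (pow_ne_zero _ n2))
  have hsm : ∀ ε' : ℝ, 0 < ε' → ∀ᶠ N in atTop, ∀ z ∈ Metric.ball (q : ℂ) r₀, ‖ee m₁ m₂ N z‖ < ε' := by
    intro ε' hε'
    have t : Tendsto (fun N : ℕ => (‖GG (q : ℂ)‖ + 1) * ρ ^ N) atTop (𝓝 0) := by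
      simpa using (tendsto_pow_atTop_nhds_zero_of_lt_one hρ0 hρ2).const_mul (‖GG (q : ℂ)‖ + 1)
    filter_upwards [t.eventually_lt_const hε'] with N hN z hz
    obtain ⟨a1, a2, a3, a4, a5, a6⟩ := hball z hz
    refine lt_of_le_of_lt ?_ hN
    unfold ee
    rw [norm_neg, norm_mul, norm_pow]
    exact mul_le_mul a6.le (pow_le_pow_left₀ (norm_nonneg _) a5.le N) (by positivity) (by positivity)
  have hfin := hROOT (RR m₁ m₂) HH (ee m₁ m₂) (q : ℂ) r₀ hr₀ dR dH de hRq hD hHq hsm (ε / 2) (by linarith)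
  obtain ⟨N, hN, hN1⟩ := (hfin.and (eventually_ge_atTop 1)).exists
  obtain ⟨z, hz1, hz2, hz3⟩ := hN
  obtain ⟨a1, a2, a3, a4, a5, a6⟩ := hball z hz2
  refine ⟨z, ?_, ?_⟩
  · have b1 : ‖z - (x : ℂ)‖ ≤ ‖z - (q : ℂ)‖ + ‖(q : ℂ) - (x : ℂ)‖ := norm_sub_le_norm_sub_add_norm_sub _ _ _
    have b2 : ‖(q : ℂ) - (x : ℂ)‖ = |q - x| := by
      rw [← Complex.ofReal_sub, Complex.norm_real, Real.norm_eq_abs]
    have b3 : |q - x| < δ := abs_lt.2 ⟨by linarith, by linarith⟩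
    rw [b2] at b1
    linarith
  · obtain ⟨n, G, F, p, hT, hP, hz⟩ := hFAM (m₁ * N) (m₂ * N) (Nat.one_le_iff_ne_zero.2 (by positivity))
    refine ⟨n, G, F, p, hT, hP, ?_⟩
    have := hz z
    rw [bracket a2 a3 a4 hz3, mul_zero] at this
    rcases mul_eq_zero.1 this with h | h
    · exact absurd h (mul_ne_zero a1 a2)
    · exact h

end Pool.Agent.E9helper80.TD
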