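import Pool.Agent.E9helper80.TD.Stm2

/-!
# Project TD, part 2, piece DER (helper94)
-/

namespace Pool.Agent.E9helper80.TD

namespace DER

lemma key {x : ℝ} (hx : 1 < x) (m₁ m₂ : ℕ) (h1 : 1 ≤ m₁) (h2 : 1 ≤ m₂)
    (h : ((x + 1) / x) ^ m₁ * ((x + 1) * x ^ 2 / (x ^ 3 + 2 * x + 1)) ^ m₂ = 1) :
    0 < (m₁ : ℝ) * (-(1 / x ^ 2)) * ((x + 1) * x ^ 2 / (x ^ 3 + 2 * x + 1)) +
      m₂ * (((3 * x ^ 2 + 2 * x) * (x ^ 3 + 2 * x + 1) - (x ^ 3 + x ^ 2) * (3 * x ^ 2 + 2)) /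
        (x ^ 3 + 2 * x + 1) ^ 2) * ((x + 1) / x) := by
  have hx0 : 0 < x := by linarith
  have hD : 0 < x ^ 3 + 2 * x + 1 := by positivity
  set D := x ^ 3 + 2 * x + 1 with hDdef
  set E := (x + 1) / x with hE
  set Y := (x + 1) * x ^ 2 / D with hY
  have hE0 : 0 < E := by positivity
  have hY0 : 0 < Y := by positivity
  have hm2 : (0 : ℝ) < m₂ := by exact_mod_cast h2
  have hm1 : (0 : ℝ) < m₁ := by exact_mod_cast h1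
  have hlog : (m₁ : ℝ) * Real.log E + m₂ * Real.log Y = 0 := by
    have h3 := congrArg Real.log h
    rw [Real.log_mul (by positivity) (by positivity), Real.log_pow, Real.log_pow, Real.log_one] at h3
    exact h3
  have ha : 1 / (x + 1) ≤ Real.log E := by
    have h3 := Real.one_sub_inv_le_log_of_pos hE0
    have e : 1 - E⁻¹ = 1 / (x + 1) := by
      rw [hE]
      field_simp
      ring
    rwa [e] at h3
  have hb : -Real.log Y ≤ (1 - Y) / Y := by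
    have h3 := Real.one_sub_inv_le_log_of_pos hY0
    have e : (1 - Y) / Y = Y⁻¹ - 1 := by
      field_simp
    rw [e]
    linarith
  have h4 : (m₁ : ℝ) * (1 / (x + 1)) ≤ m₂ * ((1 - Y) / Y) := by
    calc (m₁ : ℝ) * (1 / (x + 1)) ≤ m₁ * Real.log E := mul_le_mul_of_nonneg_left ha hm1.le
      _ = m₂ * (-Real.log Y) := by linarith
      _ ≤ m₂ * ((1 - Y) / Y) := mul_le_mul_of_nonneg_left hb hm2.le
  have h5 : (m₁ : ℝ) * Y ≤ m₂ * ((1 - Y) * (x + 1)) := by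
    have e1 : (m₁ : ℝ) * Y = m₁ * (1 / (x + 1)) * (Y * (x + 1)) := by
      field_simp
    have e2 : (m₂ : ℝ) * ((1 - Y) * (x + 1)) = m₂ * ((1 - Y) / Y) * (Y * (x + 1)) := by
      field_simp
    rw [e1, e2]
    exact mul_le_mul_of_nonneg_right h4 (by positivity)
  have h1Y : 1 - Y = (1 + 2 * x - x ^ 2) / D := by
    rw [hY, hDdef]
    field_simp
    ring
  have h6 : 0 < 2 * x ^ 4 + 6 * x ^ 3 - x ^ 2 - 4 * x - 1 := by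
    have e : 2 * x ^ 4 + 6 * x ^ 3 - x ^ 2 - 4 * x - 1 =
        2 * (x - 1) ^ 4 + 14 * (x - 1) ^ 3 + 29 * (x - 1) ^ 2 + 20 * (x - 1) + 2 := by ring
    have : 0 < x - 1 := by linarith
    rw [e]
    positivity
  have h7 : 0 < x * (((3 * x ^ 2 + 2 * x) * D - (x ^ 3 + x ^ 2) * (3 * x ^ 2 + 2)) / D ^ 2) - (1 - Y) := by
    have e : x * (((3 * x ^ 2 + 2 * x) * D - (x ^ 3 + x ^ 2) * (3 * x ^ 2 + 2)) / D ^ 2) - (1 - Y) =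
        (2 * x ^ 4 + 6 * x ^ 3 - x ^ 2 - 4 * x - 1) / D ^ 2 := by
      rw [h1Y]
      have hD' : D ≠ 0 := hD.ne'
      field_simp
      rw [hDdef]
      ring
    rw [e]
    positivity
  have e8 : (m₁ : ℝ) * (-(1 / x ^ 2)) * Y +
      m₂ * (((3 * x ^ 2 + 2 * x) * D - (x ^ 3 + x ^ 2) * (3 * x ^ 2 + 2)) / D ^ 2) * E =
      (m₂ * ((1 - Y) * (x + 1)) - m₁ * Y) / x ^ 2 + m₂ * ((x + 1) / x ^ 2) *
        (x * (((3 * x ^ 2 + 2 * x) * D - (x ^ 3 + x ^ 2) * (3 * x ^ 2 + 2)) / D ^ 2) - (1 - Y)) := by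
    generalize ((3 * x ^ 2 + 2 * x) * D - (x ^ 3 + x ^ 2) * (3 * x ^ 2 + 2)) / D ^ 2 = Y'
    rw [hE]
    field_simp
    ring
  rw [e8]
  have h9 : 0 ≤ ((m₂ : ℝ) * ((1 - Y) * (x + 1)) - m₁ * Y) / x ^ 2 := div_nonneg (by linarith) (by positivity)
  have h10 : 0 < (m₂ : ℝ) * ((x + 1) / x ^ 2) *
        (x * (((3 * x ^ 2 + 2 * x) * D - (x ^ 3 + x ^ 2) * (3 * x ^ 2 + 2)) / D ^ 2) - (1 - Y)) :=
    mul_pos (by positivity) h7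
  linarith

end DER

open DER in
theorem s_der : S_DER := by
  intro m₁ m₂ q h1 h2 h3 h4 hR
  obtain ⟨x, hx⟩ : ∃ x : ℝ, x = q - 3 := ⟨_, rfl⟩
  have hx1 : 1 < x := by linarith
  have hx0 : 0 < x := by linarith
  have hD : 0 < x ^ 3 + 2 * x + 1 := by positivity
  have hxC : (x : ℂ) ≠ 0 := by exact_mod_cast hx0.ne'
  have hDC : ((x : ℂ) ^ 3 + 2 * x + 1) ≠ 0 := by exact_mod_cast hD.ne'
  have hq : (q : ℂ) = x + 3 := by rw [hx]; push_cast; ring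
  have hLL : LL (q : ℂ) = (x : ℂ) ^ 3 + 2 * x + 1 := by
    unfold LL
    rw [hq]
    ring
  have e2 : (q : ℂ) - 2 = x + 1 := by rw [hq]; ring
  have e3 : (q : ℂ) - 3 = x := by rw [hq]; ring
  have hreal : ((x + 1) / x) ^ m₁ * ((x + 1) * x ^ 2 / (x ^ 3 + 2 * x + 1)) ^ m₂ = 1 := by
    unfold RR at hR
    rw [e2, e3, hLL] at hR
    exact_mod_cast hR
  have hk := key hx1 m₁ m₂ h1 h2 hreal
  -- the derivatives
  have d2 : HasDerivAt (fun z : ℂ => z - 2) 1 (q : ℂ) := (hasDerivAt_id _).sub_const 2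
  have d3 : HasDerivAt (fun z : ℂ => z - 3) 1 (q : ℂ) := (hasDerivAt_id _).sub_const 3
  have dE := d2.fun_div d3 (by rw [e3]; exact hxC)
  have dL : HasDerivAt LL (3 * (q : ℂ) ^ 2 - 18 * q + 29) (q : ℂ) := by
    have h5 : HasDerivAt (fun z : ℂ => z ^ 3 - 9 * z ^ 2 + 29 * z - 32)
        (((3 : ℕ) : ℂ) * (q : ℂ) ^ (3 - 1) - 9 * (((2 : ℕ) : ℂ) * (q : ℂ) ^ (2 - 1)) + 29 * 1) (q : ℂ) :=
      (((hasDerivAt_pow 3 (q : ℂ)).sub ((hasDerivAt_pow 2 (q : ℂ)).const_mul 9)).add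
        ((hasDerivAt_id (q : ℂ)).const_mul 29)).sub_const 32
    have e : (((3 : ℕ) : ℂ) * (q : ℂ) ^ (3 - 1) - 9 * (((2 : ℕ) : ℂ) * (q : ℂ) ^ (2 - 1)) + 29 * 1) =
        3 * (q : ℂ) ^ 2 - 18 * q + 29 := by
      norm_num
      ring
    rw [e] at h5
    exact h5
  have dY := (d2.fun_mul (d3.fun_pow 2)).fun_div dL (by rw [hLL]; exact hDC)
  have dR := (dE.fun_pow m₁).fun_mul (dY.fun_pow m₂)
  have hder := dR.deriv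
  have hfun : RR m₁ m₂ = fun z : ℂ => ((z - 2) / (z - 3)) ^ m₁ * ((z - 2) * (z - 3) ^ 2 / LL z) ^ m₂ := rfl
  rw [hfun, hder]
  rw [e2, e3, hLL]
  intro h0
  obtain ⟨n₁, rfl⟩ : ∃ n, m₁ = n + 1 := ⟨m₁ - 1, by omega⟩
  obtain ⟨n₂, rfl⟩ : ∃ n, m₂ = n + 1 := ⟨m₂ - 1, by omega⟩
  rw [Nat.add_sub_cancel, Nat.add_sub_cancel] at h0
  have hL' : 3 * (q : ℂ) ^ 2 - 18 * q + 29 = 3 * (x : ℂ) ^ 2 + 2 := by
    rw [hq]
    ring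
  rw [hL'] at h0
  have hEC : ((x : ℂ) + 1) / x ≠ 0 := by
    have : ((x + 1) / x : ℝ) ≠ 0 := by positivity
    exact_mod_cast this
  have hYC : ((x : ℂ) + 1) * (x : ℂ) ^ 2 / ((x : ℂ) ^ 3 + 2 * x + 1) ≠ 0 := by
    have : ((x + 1) * x ^ 2 / (x ^ 3 + 2 * x + 1) : ℝ) ≠ 0 := by positivity
    exact_mod_cast this
  have h5 : (((x : ℂ) + 1) / x) ^ n₁ * (((x : ℂ) + 1) * (x : ℂ) ^ 2 / ((x : ℂ) ^ 3 + 2 * x + 1)) ^ n₂ *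
      (((n₁ + 1 : ℕ) : ℂ) * (-(1 / (x : ℂ) ^ 2)) *
        (((x : ℂ) + 1) * (x : ℂ) ^ 2 / ((x : ℂ) ^ 3 + 2 * x + 1)) +
      ((n₂ + 1 : ℕ) : ℂ) * (((3 * (x : ℂ) ^ 2 + 2 * x) * ((x : ℂ) ^ 3 + 2 * x + 1) -
        ((x : ℂ) ^ 3 + (x : ℂ) ^ 2) * (3 * (x : ℂ) ^ 2 + 2)) /
        ((x : ℂ) ^ 3 + 2 * x + 1) ^ 2) * (((x : ℂ) + 1) / x)) = 0 := by
    rw [← h0]
    have e5 : (1 * (x : ℂ) - ((x : ℂ) + 1) * 1) / (x : ℂ) ^ 2 = -(1 / (x : ℂ) ^ 2) := by ring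
    have e6 : ((1 * (x : ℂ) ^ 2 + ((x : ℂ) + 1) * (((2 : ℕ) : ℂ) * (x : ℂ) ^ (2 - 1) * 1)) *
        ((x : ℂ) ^ 3 + 2 * x + 1) - ((x : ℂ) + 1) * (x : ℂ) ^ 2 * (3 * (x : ℂ) ^ 2 + 2)) /
        ((x : ℂ) ^ 3 + 2 * x + 1) ^ 2 = ((3 * (x : ℂ) ^ 2 + 2 * x) * ((x : ℂ) ^ 3 + 2 * x + 1) -
        ((x : ℂ) ^ 3 + (x : ℂ) ^ 2) * (3 * (x : ℂ) ^ 2 + 2)) /
        ((x : ℂ) ^ 3 + 2 * x + 1) ^ 2 := by
      congr 1
      norm_num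
      ring
    rw [e5, e6]
    rw [pow_succ, pow_succ]
    ring
  rcases mul_eq_zero.1 h5 with h6 | h6
  · rcases mul_eq_zero.1 h6 with h7 | h7
    · exact pow_ne_zero _ hEC h7
    · exact pow_ne_zero _ hYC h7
  · have h8 : (((n₁ + 1 : ℕ) : ℝ) * (-(1 / x ^ 2)) * ((x + 1) * x ^ 2 / (x ^ 3 + 2 * x + 1)) +
      ((n₂ + 1 : ℕ) : ℝ) * (((3 * x ^ 2 + 2 * x) * (x ^ 3 + 2 * x + 1) - (x ^ 3 + x ^ 2) *
        (3 * x ^ 2 + 2)) / (x ^ 3 + 2 * x + 1) ^ 2) * ((x + 1) / x)) = 0 := by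
      exact_mod_cast h6
    linarith

end Pool.Agent.E9helper80.TD
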