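import Mathlib

/-!
# A zero-one law for the Birkhoff-Lewis conjecture on planar triangulations: definitions
-/

namespace Pool.Agent.E9helper80.TD

open Polynomial

/-- insert the new vertex `n` into the triangle `a b c` -/
def insG (G : ℕ → ℕ → Prop) (n a b c : ℕ) : ℕ → ℕ → Prop := fun x y =>
  G x y ∨ (x = n ∧ (y = a ∨ y = b ∨ y = c)) ∨ (y = n ∧ (x = a ∨ x = b ∨ x = c))

def insF (F : Set (Finset ℕ)) (n a b c : ℕ) : Set (Finset ℕ) :=
  {f | (f ∈ F ∧ f ≠ {a, b, c}) ∨ f = {a, b, n} ∨ f = {b, c, n} ∨ f = {a, c, n}}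

/-- replace the edge `a b` by the edge `c d` -/
def flipG (G : ℕ → ℕ → Prop) (a b c d : ℕ) : ℕ → ℕ → Prop := fun x y =>
  (G x y ∧ ¬(x = a ∧ y = b) ∧ ¬(x = b ∧ y = a)) ∨ (x = c ∧ y = d) ∨ (x = d ∧ y = c)

def flipF (F : Set (Finset ℕ)) (a b c d : ℕ) : Set (Finset ℕ) :=
  {f | (f ∈ F ∧ f ≠ {a, b, c} ∧ f ≠ {a, b, d}) ∨ f = {a, c, d} ∨ f = {b, c, d}}

/-- The planar triangulations: vertices `0, …, n - 1`, adjacency relation `G`, set of faces `F`.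
They are obtained from `K₄` by inserting vertices into faces and by flipping edges. -/
inductive Tri : ℕ → (ℕ → ℕ → Prop) → Set (Finset ℕ) → Prop
  | base : Tri 4 (fun x y => x < 4 ∧ y < 4 ∧ x ≠ y) {f | f ⊆ Finset.range 4 ∧ f.card = 3}
  | ins {n : ℕ} {G : ℕ → ℕ → Prop} {F : Set (Finset ℕ)} (a b c : ℕ) (h : Tri n G F)
      (hab : a ≠ b) (hac : a ≠ c) (hbc : b ≠ c) (hf : {a, b, c} ∈ F) :
      Tri (n + 1) (insG G n a b c) (insF F n a b c)
  | flip {n : ℕ} {G : ℕ → ℕ → Prop} {F : Set (Finset ℕ)} (a b c d : ℕ) (h : Tri n G F)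
      (hab : a ≠ b) (hac : a ≠ c) (had : a ≠ d) (hbc : b ≠ c) (hbd : b ≠ d) (hcd : c ≠ d)
      (hf : {a, b, c} ∈ F) (hg : {a, b, d} ∈ F)
      (honly : ∀ f ∈ F, a ∈ f → b ∈ f → f = {a, b, c} ∨ f = {a, b, d}) (hG : ¬ G c d) :
      Tri n (flipG G a b c d) (flipF F a b c d)

/-- the functions `ℕ → ℕ` with values `< k` on `{0, …, n - 1}` and `0` elsewhere -/
def Fn (n k : ℕ) : Set (ℕ → ℕ) := {c | (∀ x, x < n → c x < k) ∧ ∀ x, n ≤ x → c x = 0}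

def Proper (G : ℕ → ℕ → Prop) (c : ℕ → ℕ) : Prop := ∀ x y, G x y → c x ≠ c y

/-- number of the `k`-colourings `c` of `n` vertices with property `Φ` -/
noncomputable def num (n k : ℕ) (Φ : (ℕ → ℕ) → Prop) : ℕ := Set.ncard {c | c ∈ Fn n k ∧ Φ c}

/-- `G` without the edge `s t` -/
def delE (G : ℕ → ℕ → Prop) (s t : ℕ) : ℕ → ℕ → Prop := fun x y =>
  G x y ∧ ¬(x = s ∧ y = t) ∧ ¬(x = t ∧ y = s)

noncomputable def pA (n k : ℕ) (H : ℕ → ℕ → Prop) (s t u w : ℕ) : ℕ :=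
  num n k (fun c => Proper H c ∧ c s = c t ∧ c u = c w)
noncomputable def pB (n k : ℕ) (H : ℕ → ℕ → Prop) (s t u w : ℕ) : ℕ :=
  num n k (fun c => Proper H c ∧ c s = c t ∧ c u ≠ c w)
noncomputable def pC (n k : ℕ) (H : ℕ → ℕ → Prop) (s t u w : ℕ) : ℕ :=
  num n k (fun c => Proper H c ∧ c s ≠ c t ∧ c u = c w)
noncomputable def pD (n k : ℕ) (H : ℕ → ℕ → Prop) (s t u w : ℕ) : ℕ :=
  num n k (fun c => Proper H c ∧ c s ≠ c t ∧ c u ≠ c w)

/-- a triangulation with an edge `s t` and its two faces -/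
structure St (n : ℕ) (G : ℕ → ℕ → Prop) (F : Set (Finset ℕ)) (s t u w : ℕ) : Prop where
  tri : Tri n G F
  st : s ≠ t
  su : s ≠ u
  sw : s ≠ w
  tu : t ≠ u
  tw : t ≠ w
  uw : u ≠ w
  fu : {s, t, u} ∈ F
  fw : {s, t, w} ∈ F
  only : ∀ f ∈ F, s ∈ f → t ∈ f → f = {s, t, u} ∨ f = {s, t, w}

/-- the relation `H` has the quadrangle `s u t w` and lives on `{0, …, n - 1}` -/
structure Quadr (n : ℕ) (H : ℕ → ℕ → Prop) (s t u w : ℕ) : Prop where
  lt : ∀ x y, H x y → x < n ∧ y < n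
  symm : ∀ x y, H x y → H y x
  ne : ∀ x y, H x y → x ≠ y
  sn : s < n
  tn : t < n
  un : u < n
  wn : w < n
  st : s ≠ t
  uw : u ≠ w
  su : H s u
  sw : H s w
  tu : H t u
  tw : H t w

/-- the big move: a new vertex `n` next to `s, t` and a chain `s, n + 1, n + 2, t` between `w` and `n` -/
def opG (G : ℕ → ℕ → Prop) (n s t w : ℕ) : ℕ → ℕ → Prop :=
  flipG (insG (insG (insG G n s t w) (n + 1) s w n) (n + 2) t w n) w n (n + 1) (n + 2)

def opF (F : Set (Finset ℕ)) (n s t w : ℕ) : Set (Finset ℕ) :=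
  flipF (insF (insF (insF F n s t w) (n + 1) s w n) (n + 2) t w n) w n (n + 1) (n + 2)

/-- `p` is the counting polynomial of `N` -/
def IsP (N : ℕ → ℕ) (p : ℝ[X]) : Prop := ∀ k : ℕ, 4 ≤ k → p.eval (k : ℝ) = (N k : ℝ)

structure Quad (n : ℕ) (H : ℕ → ℕ → Prop) (s t u w : ℕ) (A B C D : ℝ[X]) : Prop where
  a : IsP (fun k => pA n k H s t u w) A
  b : IsP (fun k => pB n k H s t u w) B
  c : IsP (fun k => pC n k H s t u w) C
  d : IsP (fun k => pD n k H s t u w) D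

end Pool.Agent.E9helper80.TD
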