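import Pool.Agent.E9helper80.TD.Stm

/-!
# A zero-one law for the Birkhoff-Lewis conjecture on planar triangulations: piece ERC
-/

namespace Pool.Agent.E9helper80.TD

namespace ERC

theorem upd {c : ℕ → ℕ} {n x : ℕ} (v : ℕ) (hx : x < n) : Function.update c n v x = c x :=
  Function.update_of_ne hx.ne _ _

theorem upd_n (c : ℕ → ℕ) (n v : ℕ) : Function.update c n v n = v := Function.update_self _ _ _

theorem prop_iff {n s t w : ℕ} {H : ℕ → ℕ → Prop} {c : ℕ → ℕ} (v : ℕ)
    (hH : ∀ x y, H x y → x < n ∧ y < n) (hs : s < n) (ht : t < n) (hw : w < n) :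
    Proper (insG H n s t w) (Function.update c n v) ↔
      Proper H c ∧ v ≠ c s ∧ v ≠ c t ∧ v ≠ c w := by
  constructor
  · intro h
    refine ⟨fun x y hxy => ?_, ?_, ?_, ?_⟩
    · have h1 := h x y (Or.inl hxy)
      rwa [upd v (hH x y hxy).1, upd v (hH x y hxy).2] at h1
    · have h1 := h n s (Or.inr (Or.inl ⟨rfl, Or.inl rfl⟩))
      rwa [upd_n, upd v hs] at h1
    · have h1 := h n t (Or.inr (Or.inl ⟨rfl, Or.inr (Or.inl rfl)⟩))
      rwa [upd_n, upd v ht] at h1
    · have h1 := h n w (Or.inr (Or.inl ⟨rfl, Or.inr (Or.inr rfl)⟩))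
      rwa [upd_n, upd v hw] at h1
  · rintro ⟨h1, h2, h3, h4⟩ x y hxy
    rcases hxy with hxy | ⟨hx, hy⟩ | ⟨hy, hx⟩
    · rw [upd v (hH x y hxy).1, upd v (hH x y hxy).2]
      exact h1 x y hxy
    · rw [hx, upd_n]
      rcases hy with hy | hy | hy
      · rw [hy, upd v hs]; exact h2
      · rw [hy, upd v ht]; exact h3
      · rw [hy, upd v hw]; exact h4
    · rw [hy, upd_n]
      rcases hx with hx | hx | hx
      · rw [hx, upd v hs]; exact h2.symm
      · rw [hx, upd v ht]; exact h3.symm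
      · rw [hx, upd v hw]; exact h4.symm

theorem cnt (k : ℕ) (S : Finset ℕ) (hS : ∀ x ∈ S, x < k) :
    Set.ncard {v : ℕ | v < k ∧ v ∉ S} = k - S.card := by
  have h : {v : ℕ | v < k ∧ v ∉ S} = ((Finset.range k \ S : Finset ℕ) : Set ℕ) := by
    ext v
    simp
  rw [h, Set.ncard_coe_finset, Finset.card_sdiff_of_subset, Finset.card_range]
  intro x hx
  exact Finset.mem_range.mpr (hS x hx)

theorem cnt1 (k x : ℕ) (hx : x < k) (Q : ℕ → Prop) (hQ : ∀ v, Q v ↔ v = x) :
    Set.ncard {v : ℕ | v < k ∧ Q v} = 1 := by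
  have h : {v : ℕ | v < k ∧ Q v} = {x} := by
    ext v
    simp only [Set.mem_setOf_eq, hQ, Set.mem_singleton_iff]
    constructor
    · exact fun h => h.2
    · intro h
      exact ⟨h ▸ hx, h⟩
  rw [h, Set.ncard_singleton]

theorem cnt0 (k : ℕ) (Q : ℕ → Prop) (hQ : ∀ v, ¬ Q v) : Set.ncard {v : ℕ | v < k ∧ Q v} = 0 := by
  have h : {v : ℕ | v < k ∧ Q v} = ∅ := by
    ext v
    simp [hQ]
  rw [h, Set.ncard_empty]

theorem cntS (k m : ℕ) (S : Finset ℕ) (hS : ∀ x ∈ S, x < k) (hm : S.card = m) (Q : ℕ → Prop)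
    (hQ : ∀ v, Q v ↔ v ∉ S) : Set.ncard {v : ℕ | v < k ∧ Q v} = k - m := by
  have h : {v : ℕ | v < k ∧ Q v} = {v : ℕ | v < k ∧ v ∉ S} := by
    ext v
    simp only [Set.mem_setOf_eq, hQ]
  rw [h, cnt k S hS, hm]

end ERC

open ERC in
theorem s_erc : S_ERC := by
  intro hE n k s t u w H hk hQ
  have hs := hQ.sn
  have ht := hQ.tn
  have hu := hQ.un
  have hw := hQ.wn
  have facts : ∀ c : ℕ → ℕ, Proper H c → c u ≠ c s ∧ c u ≠ c t ∧ c w ≠ c s ∧ c w ≠ c t := by
    intro c hc
    exact ⟨(hc _ _ hQ.su).symm, (hc _ _ hQ.tu).symm, (hc _ _ hQ.sw).symm, (hc _ _ hQ.tw).symm⟩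
  have hk' : ∀ c ∈ Fn n k, c s < k ∧ c t < k ∧ c u < k ∧ c w < k := fun c hc =>
    ⟨hc.1 s hs, hc.1 t ht, hc.1 u hu, hc.1 w hw⟩
  refine ⟨?_, ?_, ?_, ?_⟩
  · -- A
    have h := hE n k 0 1 (fun c => Proper (insG H n s t w) c ∧ c s = c t ∧ c u = c n)
      (fun c => Proper H c ∧ c s = c t ∧ c u = c w) (fun c => Proper H c ∧ c s = c t ∧ c u ≠ c w)
      (fun c _ h1 h2 => h2.2.2 h1.2.2) ?_ ?_ ?_
    · unfold pA pB
      rw [h]
      ring
    · intro c hc h1
      apply cnt0
      intro v hv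
      rw [prop_iff v hQ.lt hs ht hw, upd_n, upd v hs, upd v ht, upd v hu] at hv
      exact hv.1.2.2.2 (hv.2.2.symm.trans h1.2.2)
    · intro c hc h1
      apply cnt1 k (c u) (hk' c hc).2.2.1
      intro v
      rw [prop_iff v hQ.lt hs ht hw, upd_n, upd v hs, upd v ht, upd v hu]
      constructor
      · exact fun h => h.2.2.symm
      · rintro rfl
        have hf := facts c h1.1
        exact ⟨⟨h1.1, hf.1, hf.2.1, h1.2.2⟩, h1.2.1, rfl⟩
    · intro c hc h1 h2
      apply cnt0
      intro v hv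
      rw [prop_iff v hQ.lt hs ht hw, upd_n, upd v hs, upd v ht, upd v hu] at hv
      by_cases h3 : c u = c w
      · exact h1 ⟨hv.1.1, hv.2.1, h3⟩
      · exact h2 ⟨hv.1.1, hv.2.1, h3⟩
  · -- B
    have h := hE n k (k - 2) (k - 3) (fun c => Proper (insG H n s t w) c ∧ c s = c t ∧ c u ≠ c n)
      (fun c => Proper H c ∧ c s = c t ∧ c u = c w) (fun c => Proper H c ∧ c s = c t ∧ c u ≠ c w)
      (fun c _ h1 h2 => h2.2.2 h1.2.2) ?_ ?_ ?_
    · unfold pB pA
      rw [h]
      push_cast [Nat.cast_sub (show 2 ≤ k by omega), Nat.cast_sub (show 3 ≤ k by omega)]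
      ring
    · intro c hc h1
      have hf := facts c h1.1
      have hkc := hk' c hc
      apply cntS k 2 {c s, c w}
      · intro x hx
        simp only [Finset.mem_insert, Finset.mem_singleton] at hx
        rcases hx with rfl | rfl
        · exact hkc.1
        · exact hkc.2.2.2
      · exact Finset.card_pair hf.2.2.1.symm
      · intro v
        rw [prop_iff v hQ.lt hs ht hw, upd_n, upd v hs, upd v ht, upd v hu]
        simp only [Finset.mem_insert, Finset.mem_singleton, not_or]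
        have h3 := h1.2.1
        have h4 := h1.2.2
        constructor
        · exact fun h => ⟨h.1.2.1, h.1.2.2.2⟩
        · exact fun h => ⟨⟨h1.1, h.1, h3 ▸ h.1, h.2⟩, h3, fun h5 => h.2 (h5.symm.trans h4)⟩
    · intro c hc h1
      have hf := facts c h1.1
      have hkc := hk' c hc
      apply cntS k 3 {c s, c w, c u}
      · intro x hx
        simp only [Finset.mem_insert, Finset.mem_singleton] at hx
        rcases hx with rfl | rfl | rfl
        · exact hkc.1
        · exact hkc.2.2.2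
        · exact hkc.2.2.1
      · rw [Finset.card_eq_three]
        exact ⟨_, _, _, hf.2.2.1.symm, hf.1.symm, fun h => h1.2.2 h.symm, rfl⟩
      · intro v
        rw [prop_iff v hQ.lt hs ht hw, upd_n, upd v hs, upd v ht, upd v hu]
        simp only [Finset.mem_insert, Finset.mem_singleton, not_or]
        have h3 := h1.2.1
        constructor
        · exact fun h => ⟨h.1.2.1, h.1.2.2.2, fun h5 => h.2.2 h5.symm⟩
        · exact fun h => ⟨⟨h1.1, h.1, h3 ▸ h.1, h.2.1⟩, h3, fun h5 => h.2.2 h5.symm⟩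
    · intro c hc h1 h2
      apply cnt0
      intro v hv
      rw [prop_iff v hQ.lt hs ht hw, upd_n, upd v hs, upd v ht, upd v hu] at hv
      by_cases h3 : c u = c w
      · exact h1 ⟨hv.1.1, hv.2.1, h3⟩
      · exact h2 ⟨hv.1.1, hv.2.1, h3⟩
  · -- C
    have h := hE n k 0 1 (fun c => Proper (insG H n s t w) c ∧ c s ≠ c t ∧ c u = c n)
      (fun c => Proper H c ∧ c s ≠ c t ∧ c u = c w) (fun c => Proper H c ∧ c s ≠ c t ∧ c u ≠ c w)
      (fun c _ h1 h2 => h2.2.2 h1.2.2) ?_ ?_ ?_
    · unfold pC pD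
      rw [h]
      ring
    · intro c hc h1
      apply cnt0
      intro v hv
      rw [prop_iff v hQ.lt hs ht hw, upd_n, upd v hs, upd v ht, upd v hu] at hv
      exact hv.1.2.2.2 (hv.2.2.symm.trans h1.2.2)
    · intro c hc h1
      apply cnt1 k (c u) (hk' c hc).2.2.1
      intro v
      rw [prop_iff v hQ.lt hs ht hw, upd_n, upd v hs, upd v ht, upd v hu]
      constructor
      · exact fun h => h.2.2.symm
      · rintro rfl
        have hf := facts c h1.1
        exact ⟨⟨h1.1, hf.1, hf.2.1, h1.2.2⟩, h1.2.1, rfl⟩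
    · intro c hc h1 h2
      apply cnt0
      intro v hv
      rw [prop_iff v hQ.lt hs ht hw, upd_n, upd v hs, upd v ht, upd v hu] at hv
      by_cases h3 : c u = c w
      · exact h1 ⟨hv.1.1, hv.2.1, h3⟩
      · exact h2 ⟨hv.1.1, hv.2.1, h3⟩
  · -- D
    have h := hE n k (k - 3) (k - 4) (fun c => Proper (insG H n s t w) c ∧ c s ≠ c t ∧ c u ≠ c n)
      (fun c => Proper H c ∧ c s ≠ c t ∧ c u = c w) (fun c => Proper H c ∧ c s ≠ c t ∧ c u ≠ c w)
      (fun c _ h1 h2 => h2.2.2 h1.2.2) ?_ ?_ ?_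
    · unfold pD pC
      rw [h]
      push_cast [Nat.cast_sub (show 3 ≤ k by omega), Nat.cast_sub hk]
      ring
    · intro c hc h1
      have hf := facts c h1.1
      have hkc := hk' c hc
      apply cntS k 3 {c s, c t, c w}
      · intro x hx
        simp only [Finset.mem_insert, Finset.mem_singleton] at hx
        rcases hx with rfl | rfl | rfl
        · exact hkc.1
        · exact hkc.2.1
        · exact hkc.2.2.2
      · rw [Finset.card_eq_three]
        exact ⟨_, _, _, h1.2.1, hf.2.2.1.symm, hf.2.2.2.symm, rfl⟩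
      · intro v
        rw [prop_iff v hQ.lt hs ht hw, upd_n, upd v hs, upd v ht, upd v hu]
        simp only [Finset.mem_insert, Finset.mem_singleton, not_or]
        have h3 := h1.2.1
        have h4 := h1.2.2
        constructor
        · exact fun h => ⟨h.1.2.1, h.1.2.2.1, h.1.2.2.2⟩
        · exact fun h => ⟨⟨h1.1, h.1, h.2.1, h.2.2⟩, h3, fun h5 => h.2.2 (h5.symm.trans h4)⟩
    · intro c hc h1
      have hf := facts c h1.1
      have hkc := hk' c hc
      apply cntS k 4 {c s, c t, c w, c u}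
      · intro x hx
        simp only [Finset.mem_insert, Finset.mem_singleton] at hx
        rcases hx with rfl | rfl | rfl | rfl
        · exact hkc.1
        · exact hkc.2.1
        · exact hkc.2.2.2
        · exact hkc.2.2.1
      · rw [Finset.card_insert_of_notMem, Finset.card_eq_three.mpr
          ⟨_, _, _, hf.2.2.2.symm, hf.2.1.symm, fun h => h1.2.2 h.symm, rfl⟩]
        simp only [Finset.mem_insert, Finset.mem_singleton, not_or]
        exact ⟨h1.2.1, hf.2.2.1.symm, hf.1.symm⟩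
      · intro v
        rw [prop_iff v hQ.lt hs ht hw, upd_n, upd v hs, upd v ht, upd v hu]
        simp only [Finset.mem_insert, Finset.mem_singleton, not_or]
        have h3 := h1.2.1
        constructor
        · exact fun h => ⟨h.1.2.1, h.1.2.2.1, h.1.2.2.2, fun h5 => h.2.2 h5.symm⟩
        · exact fun h => ⟨⟨h1.1, h.1, h.2.1, h.2.2.1⟩, h3, fun h5 => h.2.2.2 h5.symm⟩
    · intro c hc h1 h2
      apply cnt0
      intro v hv
      rw [prop_iff v hQ.lt hs ht hw, upd_n, upd v hs, upd v ht, upd v hu] at hv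
      by_cases h3 : c u = c w
      · exact h1 ⟨hv.1.1, hv.2.1, h3⟩
      · exact h2 ⟨hv.1.1, hv.2.1, h3⟩

end Pool.Agent.E9helper80.TD
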