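import Pool.Agent.E9helper80.TD.Stm

/-!
# Piece EXT: one new vertex
-/

set_option autoImplicit false

namespace Pool.Agent.E9helper80.TD

theorem ext_fin (n k : ℕ) : (Fn n k).Finite := by
  apply Set.Finite.of_finite_image (f := fun (c : ℕ → ℕ) (i : Fin n) => c i)
  · refine (Set.Finite.pi' (fun _ : Fin n => Set.finite_Iio k)).subset ?_
    rintro _ ⟨c, hc, rfl⟩ i
    exact hc.1 i i.2
  · intro c hc c' hc' h
    funext x
    rcases lt_or_ge x n with hx | hx
    · exact congrFun h ⟨x, hx⟩
    · rw [hc.2 x hx, hc'.2 x hx]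

theorem s_ext : S_EXT := by
  classical
  intro n k m₁ m₂ Φ Ψ₁ Ψ₂ h12 h1 h2 h0
  have hnum : ∀ (l : ℕ) (Ψ : (ℕ → ℕ) → Prop), num l k Ψ = ((ext_fin l k).toFinset.filter Ψ).card := by
    intro l Ψ
    unfold num
    rw [← Set.ncard_coe_finset]
    congr 1
    ext c
    simp
  have hmaps : Set.MapsTo (fun c : ℕ → ℕ => Function.update c n 0)
      (((ext_fin (n + 1) k).toFinset.filter Φ : Finset (ℕ → ℕ)) : Set (ℕ → ℕ))
      ((ext_fin n k).toFinset : Set (ℕ → ℕ)) := by
    intro c hc
    simp only [Finset.coe_filter, Set.Finite.mem_toFinset, Set.mem_setOf_eq] at hc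
    simp only [Set.Finite.coe_toFinset]
    obtain ⟨⟨hc1, hc2⟩, -⟩ := hc
    constructor
    · intro x hx
      show Function.update c n 0 x < k
      rw [Function.update_of_ne hx.ne]
      exact hc1 x (by omega)
    · intro x hx
      show Function.update c n 0 x = 0
      by_cases h : x = n
      · rw [h, Function.update_self]
      · rw [Function.update_of_ne h]
        exact hc2 x (by omega)
  have hfib : ∀ c ∈ (ext_fin n k).toFinset,
      (((ext_fin (n + 1) k).toFinset.filter Φ).filter (fun c' => Function.update c' n 0 = c)).card =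
        Set.ncard {v | v < k ∧ Φ (Function.update c n v)} := by
    intro c hc
    rw [Set.Finite.mem_toFinset] at hc
    rw [← Set.ncard_coe_finset, ← Set.ncard_image_of_injective _ (Function.update_injective c n)]
    congr 1
    ext c'
    simp only [Finset.coe_filter, Finset.mem_filter, Set.Finite.mem_toFinset, Set.mem_setOf_eq, Set.mem_image]
    constructor
    · rintro ⟨⟨hc', hΦ⟩, he⟩
      have hu : Function.update c n (c' n) = c' := by
        rw [← he, Function.update_idem, Function.update_eq_self]
      exact ⟨c' n, ⟨hc'.1 n (by omega), by rw [hu]; exact hΦ⟩, hu⟩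
    · rintro ⟨v, ⟨hv, hΦ⟩, rfl⟩
      refine ⟨⟨⟨?_, ?_⟩, hΦ⟩, ?_⟩
      · intro x hx
        by_cases h : x = n
        · rw [h, Function.update_self]
          exact hv
        · rw [Function.update_of_ne h]
          exact hc.1 x (by omega)
      · intro x hx
        rw [Function.update_of_ne (by omega)]
        exact hc.2 x (by omega)
      · rw [Function.update_idem]
        have : Function.update c n (c n) = c := Function.update_eq_self n c
        rw [hc.2 n le_rfl] at this
        exact this
  rw [hnum, hnum, hnum, Finset.card_eq_sum_card_fiberwise hmaps, Finset.sum_congr rfl hfib]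
  have hval : ∀ c ∈ (ext_fin n k).toFinset, Set.ncard {v | v < k ∧ Φ (Function.update c n v)} =
      (if Ψ₁ c then m₁ else 0) + (if Ψ₂ c then m₂ else 0) := by
    intro c hc
    rw [Set.Finite.mem_toFinset] at hc
    by_cases h : Ψ₁ c
    · rw [h1 c hc h, if_pos h, if_neg (h12 c hc h), add_zero]
    · by_cases h' : Ψ₂ c
      · rw [h2 c hc h', if_neg h, if_pos h', zero_add]
      · rw [h0 c hc h h', if_neg h, if_neg h']
  rw [Finset.sum_congr rfl hval, Finset.sum_add_distrib, ← Finset.sum_filter, ← Finset.sum_filter,
    Finset.sum_const, Finset.sum_const, smul_eq_mul, smul_eq_mul, mul_comm m₁, mul_comm m₂]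

end Pool.Agent.E9helper80.TD
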