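import Pool.Agent.E9helper80.TD.Stm

/-!
Project TD (helper80), piece EXT3 (helper95): three new vertices.
-/

namespace Pool.Agent.E9helper80.TD

namespace EXT3

theorem fn_finite (n k : ℕ) : (Fn n k).Finite := by
  refine (Set.finite_range (fun (g : Fin n → Fin k) (x : ℕ) =>
    if h : x < n then ((g ⟨x, h⟩ : Fin k) : ℕ) else 0)).subset ?_
  rintro c ⟨h1, h2⟩
  refine ⟨fun x => ⟨c x, h1 x x.2⟩, ?_⟩
  funext x
  by_cases hx : x < n
  · simp only [hx, dif_pos]
  · simp only [hx, dif_neg, not_false_eq_true]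
    exact (h2 x (not_lt.1 hx)).symm

/-- the restriction to `{0, …, n - 1}` -/
def res (n : ℕ) (c : ℕ → ℕ) : ℕ → ℕ := fun x => if x < n then c x else 0

def upd (n : ℕ) (c : ℕ → ℕ) (v : ℕ × ℕ × ℕ) : ℕ → ℕ :=
  Function.update (Function.update (Function.update c n v.1) (n + 1) v.2.1) (n + 2) v.2.2

theorem upd_0 (n : ℕ) (c : ℕ → ℕ) (v : ℕ × ℕ × ℕ) : upd n c v n = v.1 := by
  unfold upd
  rw [Function.update_of_ne (by omega), Function.update_of_ne (by omega), Function.update_self]

theorem upd_1 (n : ℕ) (c : ℕ → ℕ) (v : ℕ × ℕ × ℕ) : upd n c v (n + 1) = v.2.1 := by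
  unfold upd
  rw [Function.update_of_ne (by omega), Function.update_self]

theorem upd_2 (n : ℕ) (c : ℕ → ℕ) (v : ℕ × ℕ × ℕ) : upd n c v (n + 2) = v.2.2 := by
  unfold upd
  rw [Function.update_self]

theorem upd_ne (n : ℕ) (c : ℕ → ℕ) (v : ℕ × ℕ × ℕ) (x : ℕ) (h0 : x ≠ n) (h1 : x ≠ n + 1)
    (h2 : x ≠ n + 2) : upd n c v x = c x := by
  unfold upd
  rw [Function.update_of_ne h2, Function.update_of_ne h1, Function.update_of_ne h0]

theorem upd_inj (n : ℕ) (c : ℕ → ℕ) : Function.Injective (upd n c) := by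
  rintro ⟨a, b, d⟩ ⟨a', b', d'⟩ h
  have h0 := congrFun h n
  have h1 := congrFun h (n + 1)
  have h2 := congrFun h (n + 2)
  rw [upd_0, upd_0] at h0
  rw [upd_1, upd_1] at h1
  rw [upd_2, upd_2] at h2
  simp only at h0 h1 h2
  rw [h0, h1, h2]

end EXT3

open EXT3 in
theorem s_ext3 : S_EXT3 := by
  intro n k m₁ m₂ Φ Ψ₁ Ψ₂ T hdis h1 h2 h0
  classical
  have hS : {c | c ∈ Fn (n + 3) k ∧ Φ c}.Finite := (fn_finite (n + 3) k).subset fun c hc => hc.1
  have hnum : ∀ Ψ : (ℕ → ℕ) → Prop, num n k Ψ = ((fn_finite n k).toFinset.filter Ψ).card := by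
    intro Ψ
    unfold num
    rw [← Set.ncard_coe_finset]
    congr 1
    ext c
    simp
  have hmaps : Set.MapsTo (res n) (hS.toFinset : Set (ℕ → ℕ))
      ((fn_finite n k).toFinset : Set (ℕ → ℕ)) := by
    intro c hc
    rw [Finset.mem_coe, Set.Finite.mem_toFinset] at hc
    rw [Finset.mem_coe, Set.Finite.mem_toFinset]
    refine ⟨fun x hx => ?_, fun x hx => ?_⟩
    · show (if x < n then c x else 0) < k
      rw [if_pos hx]
      exact hc.1.1 x (by omega)
    · show (if x < n then c x else 0) = 0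
      rw [if_neg (by omega)]
  have hfib : ∀ c ∈ (fn_finite n k).toFinset,
      (hS.toFinset.filter fun c' => res n c' = c).card = (T c).ncard := by
    intro c hc
    rw [Set.Finite.mem_toFinset] at hc
    rw [← Set.ncard_coe_finset, ← Set.ncard_image_of_injective (T c) (upd_inj n c)]
    congr 1
    ext c'
    simp only [Finset.coe_filter, Set.Finite.mem_toFinset, Set.mem_ofPred_eq, Set.mem_image]
    constructor
    · rintro ⟨⟨⟨ha, hb⟩, hΦ⟩, hr⟩
      have hc' : upd n c (c' n, c' (n + 1), c' (n + 2)) = c' := by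
        funext x
        by_cases hx0 : x = n
        · rw [hx0, upd_0]
        by_cases hx1 : x = n + 1
        · rw [hx1, upd_1]
        by_cases hx2 : x = n + 2
        · rw [hx2, upd_2]
        rw [upd_ne n c _ x hx0 hx1 hx2, ← hr]
        show (if x < n then c' x else 0) = c' x
        by_cases hx : x < n
        · rw [if_pos hx]
        · rw [if_neg hx, hb x (by omega)]
      refine ⟨(c' n, c' (n + 1), c' (n + 2)), ⟨ha n (by omega), ha _ (by omega),
        ha _ (by omega), ?_⟩, hc'⟩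
      show Φ (upd n c (c' n, c' (n + 1), c' (n + 2)))
      rw [hc']
      exact hΦ
    · rintro ⟨v, ⟨hv0, hv1, hv2, hΦ⟩, rfl⟩
      refine ⟨⟨⟨fun x hx => ?_, fun x hx => ?_⟩, hΦ⟩, ?_⟩
      · by_cases hx0 : x = n
        · rw [hx0, upd_0]
          exact hv0
        by_cases hx1 : x = n + 1
        · rw [hx1, upd_1]
          exact hv1
        by_cases hx2 : x = n + 2
        · rw [hx2, upd_2]
          exact hv2
        rw [upd_ne n c _ x hx0 hx1 hx2]
        exact hc.1 x (by omega)
      · rw [upd_ne n c _ x (by omega) (by omega) (by omega)]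
        exact hc.2 x (by omega)
      · funext x
        show (if x < n then upd n c v x else 0) = c x
        by_cases hx : x < n
        · rw [if_pos hx, upd_ne n c _ x (by omega) (by omega) (by omega)]
        · rw [if_neg hx, hc.2 x (by omega)]
  have hcard : num (n + 3) k Φ = hS.toFinset.card := by
    unfold num
    rw [← Set.ncard_coe_finset, Set.Finite.coe_toFinset]
  rw [hcard, Finset.card_eq_sum_card_fiberwise hmaps, Finset.sum_congr rfl hfib, hnum Ψ₁, hnum Ψ₂,
    Finset.card_filter, Finset.card_filter, Finset.mul_sum, Finset.mul_sum,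
    ← Finset.sum_add_distrib]
  refine Finset.sum_congr rfl fun c hc => ?_
  rw [Set.Finite.mem_toFinset] at hc
  by_cases hp1 : Ψ₁ c
  · rw [h1 c hc hp1, if_pos hp1, if_neg (hdis c hc hp1), mul_one, mul_zero, add_zero]
  · by_cases hp2 : Ψ₂ c
    · rw [h2 c hc hp2, if_neg hp1, if_pos hp2, mul_one, mul_zero, zero_add]
    · rw [h0 c hc hp1 hp2, if_neg hp1, if_neg hp2, mul_zero, mul_zero, add_zero]

end Pool.Agent.E9helper80.TD
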