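import Pool.Agent.E9helper80.TD.Stm2

namespace Pool.Agent.E9helper80.TD

open Polynomial

theorem s_fam : S_FAM := by
  intro hEXT hEXT3 hTRI hERC hXRC hINV hOPE hOPX hITR hFLP hKFO k₁ k₂ hk
  obtain ⟨n', w', G', F', A', B', C', D', hSt, hQuad, hG, hq⟩ :=
    hITR hEXT hEXT3 hTRI hERC hXRC hINV hOPE hOPX 4 0 1 2 3 _ _ _ _ _ _ hKFO.1 hKFO.2 k₁ k₂
  have hflp := hFLP hINV n' 0 1 2 w' G' F' hSt (hG hk)
  refine ⟨n', flipG G' 0 1 2 w', flipF F' 0 1 2 w', B' + D', hflp.1, ?_, fun z => ?_⟩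
  · intro k hk4
    have h1 : num n' k (Proper (flipG G' 0 1 2 w')) = pB n' k (delE G' 0 1) 0 1 2 w' +
      pD n' k (delE G' 0 1) 0 1 2 w' := hflp.2.2.2.2.1 k
    change (B' + D').eval (k : ℝ) = ((num n' k (Proper (flipG G' 0 1 2 w')) : ℕ) : ℝ)
    rw [h1, Nat.cast_add, Polynomial.eval_add]
    have h2 := hQuad.b k hk4
    have h3 := hQuad.d k hk4
    rw [h2, h3]
  · have hpoly : ((X : ℝ[X]) - 1) * (X - 2) * (B' + D') = X * (X - 1) * (X - 2) *
      ((X - 2) * ((X - 2) * ((X - 2) ^ k₁ * ((X - 2) * (X - 3) ^ 2) ^ k₂) +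
          (-1) ^ k₁ * (2 * (X - 3)) ^ k₂) +
        (X - 1) * (X - 3) * ((X - 3) * ((X - 3) ^ k₁ * (X ^ 3 - 9 * X ^ 2 + 29 * X - 32) ^ k₂) +
          (-1) ^ k₁ * (2 * (X - 3)) ^ k₂)) := by
      apply Polynomial.funext
      intro q
      obtain ⟨e1, e2, e3, e4⟩ := hq q
      simp only [eval_mul, eval_sub, eval_X, eval_one, eval_pow, eval_add, eval_ofNat,
        eval_neg, eval_zero] at e1 e2 e3 e4 ⊢
      linear_combination (q - 2) * ((q - 2) * e1 - e2) + (q - 1) * ((q - 3) * e3 - e4)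
    have h := congrArg (aeval z) hpoly
    simp only [map_mul, map_sub, aeval_X, map_one, map_pow, map_add, map_ofNat, map_neg] at h
    rw [map_add]
    exact h

end Pool.Agent.E9helper80.TD
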