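import Pool.Agent.E9helper80.TD.Stm

/-!
# Project TD, piece FIN (helper51): from a good point to a zero nearby
-/

namespace Pool.Agent.E9helper80.TD

open Polynomial

namespace FIN

theorem lam (q : ℝ) (m₁ m₂ : ℕ) :
    ((q - 2) / (q - 3)) ^ m₁ * ((q - 2) * (q - 3) ^ 2 / (q ^ 3 - 9 * q ^ 2 + 29 * q - 32)) ^ m₂ =
      ((q - 2) ^ m₁ * ((q - 2) * (q - 3) ^ 2) ^ m₂) /
        ((q - 3) ^ m₁ * (q ^ 3 - 9 * q ^ 2 + 29 * q - 32) ^ m₂) := by
  rw [div_pow, div_pow, div_mul_div_comm]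

theorem lpos {q : ℝ} (h4 : 4 < q) (m₁ m₂ : ℕ) :
    0 < (q - 3) ^ m₁ * (q ^ 3 - 9 * q ^ 2 + 29 * q - 32) ^ m₂ := by
  have h : q ^ 3 - 9 * q ^ 2 + 29 * q - 32 = (q - 3) ^ 3 + 2 * (q - 3) + 1 := by ring
  rw [h]
  have h3 : 0 < q - 3 := by linarith
  positivity

theorem pw (a b : ℝ) (m₁ m₂ N : ℕ) : a ^ (m₁ * N) * b ^ (m₂ * N) = (a ^ m₁ * b ^ m₂) ^ N := by
  rw [mul_pow, pow_mul, pow_mul]

theorem vv {q X Y C D L1 L2 K f g z z' : ℝ} (h1 : q - 1 ≠ 0) (h2 : q - 2 ≠ 0)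
    (e1 : X + Y = L1 * f) (e2 : (q - 2) * X - Y = K * z) (e3 : C + D = L2 * g)
    (e4 : (q - 3) * C - D = K * z') :
    Y + D = ((q - 2) * f * L1 - z * K) / (q - 1) + ((q - 3) * g * L2 - z' * K) / (q - 2) := by
  have a1 : Y = ((q - 2) * f * L1 - z * K) / (q - 1) := by
    rw [eq_div_iff h1]
    linear_combination (q - 2) * e1 - e2
  have a2 : D = ((q - 3) * g * L2 - z' * K) / (q - 2) := by
    rw [eq_div_iff h2]
    linear_combination (q - 3) * e3 - e4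
  rw [← a1, ← a2]

end FIN

open FIN in
/-- **FIN** -/
theorem s_fin : S_FIN := by
  intro hMON hCHO hSIG hEXT hEXT3 hTRI hERC hXRC hINV hOPE hOPX hITR hFLP q h4 h5 hq ε hε
  rcases hq with ⟨n, G, F, p, h1, h2, h3⟩ | ⟨n, G, F, s, t, u, w, A, B, C, D, hSt, hQ, hneg⟩
  · exact ⟨q, by simpa using hε, n, G, F, p, h1, h2, h3⟩
  obtain ⟨f, hf⟩ : ∃ f : ℝ → ℝ, ∀ x, f x = A.eval x + B.eval x := ⟨_, fun _ => rfl⟩
  obtain ⟨g, hg⟩ : ∃ g : ℝ → ℝ, ∀ x, g x = C.eval x + D.eval x := ⟨_, fun _ => rfl⟩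
  rw [← hf, ← hg] at hneg
  have hcont : Continuous fun x => f x * g q := by
    have : f = fun x => A.eval x + B.eval x := funext hf
    rw [this]
    exact (A.continuous.add B.continuous).mul continuous_const
  have hev : ∀ᶠ x in nhds q, f x * g q < 0 := hcont.continuousAt.eventually_lt continuousAt_const hneg
  obtain ⟨δ, hδ, hδ'⟩ := Metric.eventually_nhds_iff.1 hev
  obtain ⟨η, hη0, hηδ, hηε, hη5⟩ : ∃ η : ℝ, 0 < η ∧ η < δ ∧ η < ε ∧ η < 5 - q := by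
    have hm : 0 < min (min δ ε) (5 - q) := lt_min (lt_min hδ hε) (by linarith)
    have h1 : min (min δ ε) (5 - q) ≤ δ := (min_le_left _ _).trans (min_le_left _ _)
    have h2 : min (min δ ε) (5 - q) ≤ ε := (min_le_left _ _).trans (min_le_right _ _)
    have h3 : min (min δ ε) (5 - q) ≤ 5 - q := min_le_right _ _
    exact ⟨min (min δ ε) (5 - q) / 2, by linarith, by linarith, by linarith, by linarith⟩
  obtain ⟨b, hb⟩ : ∃ b : ℝ, b = q + η := ⟨_, rfl⟩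
  have hqb : q < b := by linarith
  have hb4 : 4 < b := by linarith
  have hb5 : b < 5 := by linarith
  have hfg : f b * g q < 0 := by
    refine hδ' ?_
    rw [Real.dist_eq, hb, add_sub_cancel_left, abs_of_pos hη0]
    exact hηδ
  have hfb : f b ≠ 0 := left_ne_zero_of_mul hfg.ne
  have hga : g q ≠ 0 := right_ne_zero_of_mul hfg.ne
  obtain ⟨m₁, m₂, hm₁, hm₂, hE1, hE2⟩ := hCHO hMON q b h4 hqb hb5
  have hE1' : ((q - 2) / (q - 3)) ^ m₁ *
      ((q - 2) * (q - 3) ^ 2 / (q ^ 3 - 9 * q ^ 2 + 29 * q - 32)) ^ m₂ < 1 := hE1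
  have hE2' : 1 < ((b - 2) / (b - 3)) ^ m₁ *
      ((b - 2) * (b - 3) ^ 2 / (b ^ 3 - 9 * b ^ 2 + 29 * b - 32)) ^ m₂ := hE2
  rw [lam, div_lt_one (lpos h4 m₁ m₂)] at hE1'
  rw [lam, one_lt_div (lpos hb4 m₁ m₂)] at hE2'
  have hs1 := (hSIG q (f q) (g q) ((q - 2) * A.eval q - B.eval q) ((q - 3) * C.eval q - D.eval q)
    m₁ m₂ h4 h5 hm₁ hm₂).1 hE1' hga
  have hs2 := (hSIG b (f b) (g b) ((b - 2) * A.eval b - B.eval b) ((b - 3) * C.eval b - D.eval b)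
    m₁ m₂ hb4 hb5 hm₁ hm₂).2 hE2' hfb
  obtain ⟨N, ⟨hN1, hN2⟩, hN⟩ := ((hs1.and hs2).and (Filter.eventually_ge_atTop 1)).exists
  obtain ⟨n', w', G', F', A', B', C', D', hSt', hQ', hG', hev'⟩ :=
    hITR hEXT hEXT3 hTRI hERC hXRC hINV hOPE hOPX n s t u w G F A B C D hSt hQ (m₁ * N) (m₂ * N)
  have hG'' := hG' (Nat.mul_pos hm₁ hN)
  obtain ⟨hT, -, -, -, hnum, -⟩ := hFLP hINV n' s t u w' G' F' hSt' hG''
  have hP : IsP (fun k => num n' k (Proper (flipG G' s t u w'))) (B' + D') := by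
    intro k hk
    rw [eval_add, hQ'.b k hk, hQ'.d k hk]
    show _ = ((num n' k (Proper (flipG G' s t u w')) : ℕ) : ℝ)
    rw [hnum k, Nat.cast_add]
  have hval : ∀ x : ℝ, 4 < x → (B' + D').eval x =
      ((x - 2) * f x * ((x - 2) ^ m₁ * ((x - 2) * (x - 3) ^ 2) ^ m₂) ^ N -
        ((x - 2) * A.eval x - B.eval x) * ((-1) ^ m₁ * (2 * (x - 3)) ^ m₂) ^ N) / (x - 1) +
      ((x - 3) * g x * ((x - 3) ^ m₁ * (x ^ 3 - 9 * x ^ 2 + 29 * x - 32) ^ m₂) ^ N -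
        ((x - 3) * C.eval x - D.eval x) * ((-1) ^ m₁ * (2 * (x - 3)) ^ m₂) ^ N) / (x - 2) := by
    intro x hx
    obtain ⟨e1, e2, e3, e4⟩ := hev' x
    rw [pw] at e1 e2 e3 e4
    rw [eval_add, hf, hg]
    exact vv (by linarith) (by linarith) e1 e2 e3 e4
  have hN1' : 0 < g q * (B' + D').eval q := by
    rw [hval q h4]
    exact hN1
  have hN2' : 0 < f b * (B' + D').eval b := by
    rw [hval b hb4]
    exact hN2
  have hprod : (B' + D').eval q * (B' + D').eval b < 0 := by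
    by_contra hcon
    have h1 := mul_pos hN1' hN2'
    have h2 := mul_nonpos_of_nonpos_of_nonneg hfg.le (not_lt.1 hcon)
    have h3 : g q * (B' + D').eval q * (f b * (B' + D').eval b) =
      f b * g q * ((B' + D').eval q * (B' + D').eval b) := by ring
    linarith
  obtain ⟨q', hq', hz⟩ : ∃ q' ∈ Set.uIcc q b, (B' + D').eval q' = 0 := by
    have hI := intermediate_value_uIcc (a := q) (b := b) (f := fun x => (B' + D').eval x)
      (B' + D').continuous.continuousOn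
    refine hI ?_
    rw [Set.mem_uIcc]
    rcases mul_neg_iff.1 hprod with ⟨h1, h2⟩ | ⟨h1, h2⟩
    · exact Or.inr ⟨h2.le, h1.le⟩
    · exact Or.inl ⟨h1.le, h2.le⟩
  rw [Set.uIcc_of_le hqb.le, Set.mem_Icc] at hq'
  refine ⟨q', ?_, n', _, _, B' + D', hT, hP, hz⟩
  rw [abs_of_nonneg (by linarith [hq'.1])]
  linarith [hq'.2]

end Pool.Agent.E9helper80.TD
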