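import Pool.Agent.E9helper80.TD.Stm

/-!
# The flip of the edge of a state
-/

set_option autoImplicit false

namespace Pool.Agent.E9helper80.TD

namespace FLP

lemma fn_finite (n k : ℕ) : (Fn n k).Finite := by
  refine Set.Finite.of_injOn (f := fun (c : ℕ → ℕ) (i : Fin n) => c i)
    (t := Set.pi Set.univ (fun _ => Set.Iio k)) ?_ ?_ (Set.Finite.pi fun _ => Set.finite_Iio k)
  · intro c hc i _
    exact hc.1 i i.2
  · intro c hc c' hc' h
    funext x
    by_cases hx : x < n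
    · exact congrFun h ⟨x, hx⟩
    · rw [hc.2 x (by omega), hc'.2 x (by omega)]

lemma num_split (n k : ℕ) (Φ Ψ : (ℕ → ℕ) → Prop) :
    num n k Φ = num n k (fun c => Φ c ∧ Ψ c) + num n k (fun c => Φ c ∧ ¬ Ψ c) := by
  have e1 : {c | c ∈ Fn n k ∧ (Φ c ∧ Ψ c)}.Finite := (fn_finite n k).subset fun c hc => hc.1
  have e2 : {c | c ∈ Fn n k ∧ (Φ c ∧ ¬ Ψ c)}.Finite := (fn_finite n k).subset fun c hc => hc.1
  have e3 : {c | c ∈ Fn n k ∧ Φ c} =
      {c | c ∈ Fn n k ∧ (Φ c ∧ Ψ c)} ∪ {c | c ∈ Fn n k ∧ (Φ c ∧ ¬ Ψ c)} := by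
    ext c
    constructor
    · rintro ⟨h1, h2⟩
      by_cases h3 : Ψ c
      · exact Or.inl ⟨h1, h2, h3⟩
      · exact Or.inr ⟨h1, h2, h3⟩
    · rintro (⟨h1, h2, -⟩ | ⟨h1, h2, -⟩)
      · exact ⟨h1, h2⟩
      · exact ⟨h1, h2⟩
  have e4 : Disjoint {c | c ∈ Fn n k ∧ (Φ c ∧ Ψ c)} {c | c ∈ Fn n k ∧ (Φ c ∧ ¬ Ψ c)} := by
    rw [Set.disjoint_left]
    rintro c ⟨_, _, h⟩ ⟨_, _, h'⟩
    exact h' h
  unfold num
  rw [e3]
  exact Set.ncard_union_eq e4 e1 e2

lemma num_congr {n k : ℕ} {Φ Ψ : (ℕ → ℕ) → Prop} (h : ∀ c, Φ c ↔ Ψ c) : num n k Φ = num n k Ψ := by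
  have : Φ = Ψ := funext fun c => propext (h c)
  rw [this]

end FLP

theorem s_flp : S_FLP := by
  intro hI n s t u w G F h hG
  obtain ⟨hn, hlt, hf⟩ := hI n G F h.tri
  have hst : G s t := ((hf _ h.fu).2 s (by simp)).2 t (by simp) h.st
  have hwu : ¬ G w u := fun h' => hG (hlt w u h').2.2.2
  have hT : Tri n (flipG G s t u w) (flipF F s t u w) :=
    Tri.flip s t u w h.tri h.st h.su h.sw h.tu h.tw h.uw h.fu h.fw h.only hG
  have hP1 : ∀ c, Proper G c ↔ Proper (delE G s t) c ∧ c s ≠ c t := by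
    intro c
    constructor
    · intro h1
      exact ⟨fun x y hxy => h1 x y hxy.1, h1 s t hst⟩
    · rintro ⟨h1, h2⟩ x y hxy
      by_cases e1 : x = s ∧ y = t
      · rw [e1.1, e1.2]
        exact h2
      · by_cases e2 : x = t ∧ y = s
        · rw [e2.1, e2.2]
          exact h2.symm
        · exact h1 x y ⟨hxy, e1, e2⟩
  have hP2 : ∀ c, Proper (flipG G s t u w) c ↔ Proper (delE G s t) c ∧ c u ≠ c w := by
    intro c
    constructor
    · intro h1
      exact ⟨fun x y hxy => h1 x y (Or.inl hxy), h1 u w (Or.inr (Or.inl ⟨rfl, rfl⟩))⟩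
    · rintro ⟨h1, h2⟩ x y hxy
      rcases hxy with hxy | ⟨e1, e2⟩ | ⟨e1, e2⟩
      · exact h1 x y hxy
      · rw [e1, e2]
        exact h2
      · rw [e1, e2]
        exact h2.symm
  refine ⟨hT, ?_, ?_, fun k => ?_, fun k => ?_, fun k => ⟨?_, ?_, ?_, ?_⟩⟩
  · refine ⟨hT, h.uw, h.su.symm, h.tu.symm, h.sw.symm, h.tw.symm, h.st, ?_, ?_, ?_⟩
    · refine Or.inr (Or.inl ?_)
      ext x
      simp only [Finset.mem_insert, Finset.mem_singleton]
      tauto
    · refine Or.inr (Or.inr ?_)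
      ext x
      simp only [Finset.mem_insert, Finset.mem_singleton]
      tauto
    · intro f hf' hu hw
      rcases hf' with ⟨h1, -, -⟩ | h1 | h1
      · exact absurd (((hf f h1).2 u hu).2 w hw h.uw) hG
      · left
        rw [h1]
        ext x
        simp only [Finset.mem_insert, Finset.mem_singleton]
        tauto
      · right
        rw [h1]
        ext x
        simp only [Finset.mem_insert, Finset.mem_singleton]
        tauto
  · funext x y
    refine propext ⟨?_, ?_⟩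
    · rintro ⟨h1 | h1 | h1, h2, h3⟩
      · exact h1
      · exact absurd h1 h2
      · exact absurd h1 h3
    · intro h1
      refine ⟨Or.inl h1, ?_, ?_⟩
      · rintro ⟨e1, e2⟩
        exact hG (e1 ▸ e2 ▸ h1.1)
      · rintro ⟨e1, e2⟩
        exact hwu (e1 ▸ e2 ▸ h1.1)
  · rw [FLP.num_congr hP1, FLP.num_split n k _ (fun c => c u = c w)]
    unfold pC pD
    congr 1
    · exact FLP.num_congr fun c => by tauto
    · exact FLP.num_congr fun c => by tauto
  · rw [FLP.num_congr hP2, FLP.num_split n k _ (fun c => c s = c t)]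
    unfold pB pD
    congr 1
    · exact FLP.num_congr fun c => by tauto
    · exact FLP.num_congr fun c => by tauto
  · exact FLP.num_congr fun c => by tauto
  · exact FLP.num_congr fun c => by tauto
  · exact FLP.num_congr fun c => by tauto
  · exact FLP.num_congr fun c => by tauto

end Pool.Agent.E9helper80.TD
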