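import Pool.Agent.E9helper80.TD.Stm

namespace Pool.Agent.E9helper80.TD

open Polynomial

/-- two counting polynomials of the same sequence (for `k ≥ 4`) are equal -/
theorem IsP.unique {N : ℕ → ℕ} {p r : ℝ[X]} (hp : IsP N p) (hr : IsP N r) : p = r := by
  apply Polynomial.eq_of_infinite_eval_eq
  refine Set.Infinite.mono (s := Set.range (fun k : ℕ => ((k + 4 : ℕ) : ℝ))) ?_ ?_
  · rintro _ ⟨k, rfl⟩
    change p.eval _ = r.eval _
    rw [hp (k + 4) (by omega), hr (k + 4) (by omega)]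
  · apply Set.infinite_range_of_injective
    intro a b hab
    have h2 : ((a + 4 : ℕ) : ℝ) = ((b + 4 : ℕ) : ℝ) := hab
    have : (a + 4 : ℕ) = b + 4 := by exact_mod_cast h2
    omega

/-- all counting polynomials of proper colourings exist -/
theorem exists_poly (hK : S_KER) (n : ℕ) (G : ℕ → ℕ → Prop)
    (hG : ∀ x y, G x y → x < n ∧ y < n) :
    ∃ p : ℝ[X], ∀ k : ℕ, p.eval (k : ℝ) = (num n k (Proper G) : ℝ) := by
  apply hK n (Proper G)
  intro c c' h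
  constructor
  · intro hc x y hxy heq
    obtain ⟨hx, hy⟩ := hG x y hxy
    exact hc x y hxy ((h x y hx hy).2 heq)
  · intro hc x y hxy heq
    obtain ⟨hx, hy⟩ := hG x y hxy
    exact hc x y hxy ((h x y hx hy).1 heq)

theorem main (hEXT : S_EXT) (hEXT3 : S_EXT3) (hTRI : S_TRI) (hERC : S_ERC) (hXRC : S_XRC)
    (hINC : S_INC) (hKER : S_KER) (hCNV : S_CNV) (hINV : S_INV) (hOPE : S_OPE) (hOPX : S_OPX)
    (hFLP : S_FLP) (hSGN : S_SGN) (hITR : S_ITR) (hMON : S_MON) (hCHO : S_CHO) (hSIG : S_SIG)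
    (hFIN : S_FIN) :
    ∀ q : ℝ, 4 < q → q < 5 →
      (∃ (n : ℕ) (G : ℕ → ℕ → Prop) (F : Set (Finset ℕ)) (p : ℝ[X]), Tri n G F ∧
        (∀ k : ℕ, p.eval (k : ℝ) =
          (Nat.card {c : Fin n → Fin k // ∀ x y : Fin n, G x y → c x ≠ c y} : ℝ)) ∧
        p.eval q < 0) →
      ∀ ε : ℝ, 0 < ε → ∃ q' : ℝ, |q' - q| < ε ∧
        ∃ (n : ℕ) (G : ℕ → ℕ → Prop) (F : Set (Finset ℕ)) (p : ℝ[X]), Tri n G F ∧
          (∀ k : ℕ, p.eval (k : ℝ) =
            (Nat.card {c : Fin n → Fin k // ∀ x y : Fin n, G x y → c x ≠ c y} : ℝ)) ∧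
          p.eval q' = 0 := by
  rintro q h4 h5 ⟨n, G, F, p, hT, hp, hneg⟩ ε hε
  have hlt : ∀ (n : ℕ) (G : ℕ → ℕ → Prop) (F : Set (Finset ℕ)), Tri n G F →
      ∀ x y, G x y → x < n ∧ y < n := fun n G F h x y hxy =>
    ⟨((hINV n G F h).2.1 x y hxy).1, ((hINV n G F h).2.1 x y hxy).2.1⟩
  have hP : IsP (fun k => num n k (Proper G)) p := by
    intro k _
    rw [hp k, hCNV n k G (hlt n G F hT)]
  rcases hSGN hEXT hKER hINC hINV hFLP q (by linarith) n G F hT p hP with h | h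
  · exact absurd h (not_lt.2 hneg.le)
  · obtain ⟨q', hq', n', G', F', p', hT', hp', hz⟩ := hFIN hMON hCHO hSIG hEXT hEXT3 hTRI hERC
      hXRC hINV hOPE hOPX hITR hFLP q h4 h5 h ε hε
    obtain ⟨r, hr⟩ := exists_poly hKER n' G' (hlt n' G' F' hT')
    have hr' : IsP (fun k => num n' k (Proper G')) r := fun k _ => hr k
    have he := IsP.unique hp' hr'
    refine ⟨q', hq', n', G', F', r, hT', ?_, ?_⟩
    · intro k
      rw [hr k, hCNV n' k G' (hlt n' G' F' hT')]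
    · rw [← he]
      exact hz

end Pool.Agent.E9helper80.TD
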