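import Pool.Agent.E9helper80.TD.Stm

/-!
# Project TD, part 2: complex zeros of planar triangulations near the real interval `[4, 4 + √2]`

Theorem: every real `x` with `4 ≤ x ≤ 4 + √2` is a limit of complex zeros of chromatic polynomials of
planar triangulations.  (The triangulations are obtained from `K₄` by the operations E and X of part 1.)
The pieces are to be proved in `Pool/Agent/E9helper80/TD/XXX.lean` as `theorem s_xxx : S_XXX`.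
-/

namespace Pool.Agent.E9helper80.TD

open Polynomial

/-- `L(z) = z³ - 9z² + 29z - 32 = (z-3)³ + 2(z-3) + 1` -/
def LL (z : ℂ) : ℂ := z ^ 3 - 9 * z ^ 2 + 29 * z - 32

noncomputable def RR (m₁ m₂ : ℕ) (z : ℂ) : ℂ :=
  ((z - 2) / (z - 3)) ^ m₁ * ((z - 2) * (z - 3) ^ 2 / LL z) ^ m₂

/-- **ROOT** (130 lines, complex analysis). Roots of `R^N = H + e_N` near a point `q` with `R(q) = 1`,
`R'(q) ≠ 0`, `H(q) ≠ 0`. Proof. Let `v_N = exp (log (H q) / N)`, so `v_N ^ N = H q`, `v_N → 1`,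
`|v_N - 1| ≤ C/N`. By the inverse function theorem (`HasStrictDerivAt.toOpenPartialHomeomorph` /
`HasStrictDerivAt.localInverse`) there are `z_N → q` with `R z_N = v_N`. For `|z - z_N| = r = δ/N` put
`η = R z / R z_N - 1`; since `R' ≠ 0` near `q`, `c|z - z_N| ≤ |η| ≤ c'|z - z_N|`
(strict derivative), with `c' δ ≤ 1/2`. Then
`|(1 + η)^N - 1| ≥ N|η| - ((1 + |η|)^N - 1 - N|η|) ≥ N|η| - (N|η|)^2 ≥ N|η|/2 ≥ cδ/2`
(`(1+x)^N ≤ exp (N x)` and `exp y - 1 - y ≤ y^2` for `0 ≤ y ≤ 1`), so `|R z^N - R z_N^N| ≥ |H q| c δ/2`,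
while `H z - H z_N` and `e_N` are small. So `G = R^N - H - e_N` satisfies `|G z - G z_N| ≥ ε₀` on the
circle and `|G z_N| = |H q - H z_N - e_N z_N| < ε₀/2`, and `DiffContOnCl.ball_subset_image_closedBall`
(open mapping, `Mathlib/Analysis/Complex/OpenMapping.lean`) gives a zero of `G`. -/
def S_ROOT : Prop := ∀ (R H : ℂ → ℂ) (e : ℕ → ℂ → ℂ) (q : ℂ) (r₀ : ℝ), 0 < r₀ →
  DifferentiableOn ℂ R (Metric.ball q r₀) → DifferentiableOn ℂ H (Metric.ball q r₀) →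
  (∀ N, DifferentiableOn ℂ (e N) (Metric.ball q r₀)) →
  R q = 1 → deriv R q ≠ 0 → H q ≠ 0 →
  (∀ ε : ℝ, 0 < ε → ∀ᶠ N in Filter.atTop, ∀ z ∈ Metric.ball q r₀, ‖e N z‖ < ε) →
  ∀ ε : ℝ, 0 < ε → ∀ᶠ N : ℕ in Filter.atTop, ∃ z : ℂ, ‖z - q‖ < ε ∧ z ∈ Metric.ball q r₀ ∧
    R z ^ N = H z + e N z

/-- **PT** (60 lines). As MON and CHO (files TD/MON.lean, TD/CHO.lean, lemmas can be reused) but on
`(4, 4 + √2)`: the only use of `b < 5` in MON is `p_pos`, which holds for `x = q - 3 < 1 + √2`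
(`1 + 2x - x² > 0`). Then the intermediate value theorem gives a real point `q` in `(a, b)` with
`E(q)^m₁ Y(q)^m₂ = 1`. -/
def S_PT : Prop := ∀ a b : ℝ, 4 < a → a < b → b < 4 + √2 →
  ∃ (m₁ m₂ : ℕ) (q : ℝ), 1 ≤ m₁ ∧ 1 ≤ m₂ ∧ a < q ∧ q < b ∧
    ((q - 2) / (q - 3)) ^ m₁ * ((q - 2) * (q - 3) ^ 2 / (q ^ 3 - 9 * q ^ 2 + 29 * q - 32)) ^ m₂ = 1

/-- **DER** (120 lines). The derivative of `R = E^m₁ Y^m₂` at a real point `4 < q < 4 + √2` with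
`R(q) = 1` is not zero. Proof. `R'/R = m₁ E'/E + m₂ Y'/Y`, `E'/E = -1/((q-2)(q-3))`. Let
`a = log E > 0`, `b = -log Y > 0`; `R = 1` gives `m₁ a = m₂ b`. So `R'/R > 0` iff
`a Y'/Y > b/((q-2)(q-3))`. With `x = q - 3 ∈ (1, 1 + √2)`, `Y = 1 - p`,
`p = (1+2x-x²)/(x³+2x+1) ∈ (0,1)`: `a = log(1 + 1/x) ≥ 1/(x+1)`, `b = -log(1-p) ≤ p/(1-p)`, so it is
enough that `Y' x > 1 - Y = p`, i.e. `-(p + x p') > 0`, i.e. `(x p)' < 0`: the numerator of `(x p)'`,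
with `x p = (x+2x²-x³)/(x³+2x+1)`, is `(1+4x-3x²)(x³+2x+1) - (x+2x²-x³)(3x²+2)`
`= 1 + 4x + ... ` (negative for `1 < x`, cf. `MON.xp`: it is
`-(2x⁴+6x³-x²-4x-1)`; please check by `ring`). -/
def S_DER : Prop := ∀ (m₁ m₂ : ℕ) (q : ℝ), 1 ≤ m₁ → 1 ≤ m₂ → 4 < q → q < 4 + √2 →
  RR m₁ m₂ (q : ℂ) = 1 → deriv (RR m₁ m₂) (q : ℂ) ≠ 0

/-- **KFO** (100 lines). The state of `K₄` with `s, t, u, w = 0, 1, 2, 3` and its polynomials:
`A = C = 0` (2 and 3 are adjacent), `B = k(k-1)(k-2)`, `D = k(k-1)(k-2)(k-3)`. -/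
def S_KFO : Prop :=
  St 4 (fun x y => x < 4 ∧ y < 4 ∧ x ≠ y) {f | f ⊆ Finset.range 4 ∧ f.card = 3} 0 1 2 3 ∧
  Quad 4 (delE (fun x y => x < 4 ∧ y < 4 ∧ x ≠ y) 0 1) 0 1 2 3 0 (X * (X - 1) * (X - 2)) 0
    (X * (X - 1) * (X - 2) * (X - 3))

/-- **FAM** (100 lines, uses KFO and part 1: ITR, FLP and what they use). The family: for all
`k₁ ≥ 1`, `k₂` there is a triangulation whose polynomial `p` satisfies, for all complex `z`,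
`(z-1)(z-2) p(z) = z(z-1)(z-2) (…)`. Proof: ITR for the state of `K₄`, then FLP:
`p = B' + D'`. The formulas of ITR hold for all real `q`, so they are equalities of polynomials
(`Polynomial.funext`) and hold at complex `z` (`Polynomial.aeval`); with
`f = A + B = z(z-1)(z-2)`, `(q-2)A - B = -f`, `g = C + D = z(z-1)(z-2)(z-3)`, `(q-3)C - D = -g` and
`(z-1) B' = (z-2)(A'+B') - ((z-2)A'-B')`, `(z-2) D' = (z-3)(C'+D') - ((z-3)C'-D')`. -/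
def S_FAM : Prop := S_EXT → S_EXT3 → S_TRI → S_ERC → S_XRC → S_INV → S_OPE → S_OPX → S_ITR →
  S_FLP → S_KFO → ∀ k₁ k₂ : ℕ, 1 ≤ k₁ →
  ∃ (n : ℕ) (G : ℕ → ℕ → Prop) (F : Set (Finset ℕ)) (p : ℝ[X]), Tri n G F ∧
    IsP (fun k => num n k (Proper G)) p ∧ ∀ z : ℂ,
    (z - 1) * (z - 2) * aeval z p = z * (z - 1) * (z - 2) *
      ((z - 2) * ((z - 2) * ((z - 2) ^ k₁ * ((z - 2) * (z - 3) ^ 2) ^ k₂) +
          (-1) ^ k₁ * (2 * (z - 3)) ^ k₂) +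
        (z - 1) * (z - 3) * ((z - 3) * ((z - 3) ^ k₁ * LL z ^ k₂) +
          (-1) ^ k₁ * (2 * (z - 3)) ^ k₂))

/-- **CXF** (120 lines, uses ROOT, PT, DER, FAM). The theorem for the open interval. Proof. Take `q`,
`m₁, m₂` from PT in the `ε`-neighbourhood of `x`. In a small ball around `q` the numbers `z, z-1, z-2,
z-3, LL z` are not zero and `|κ/Λ'| ≤ ρ < 1`, `κ = (-1)^m₁ (2(z-3))^m₂`,
`Λ' = (z-3)^m₁ (LL z)^m₂` (at `q`: `2(q-3) < LL q = (q-3)³ + 2(q-3) + 1`, `1 < q - 3`). For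
`k₁ = m₁ N`, `k₂ = m₂ N` the bracket of FAM, divided by `(z-2)² Λ'^N`, is
`R^N - H - e_N` with `R = RR m₁ m₂`, `H = -(z-1)(z-3)²/(z-2)²`,
`e_N = -((z-2) + (z-1)(z-3))/(z-2)² (κ/Λ')^N`; ROOT gives a zero. -/
def S_CXF : Prop := S_ROOT → S_PT → S_DER →
  (∀ k₁ k₂ : ℕ, 1 ≤ k₁ →
  ∃ (n : ℕ) (G : ℕ → ℕ → Prop) (F : Set (Finset ℕ)) (p : ℝ[X]), Tri n G F ∧
    IsP (fun k => num n k (Proper G)) p ∧ ∀ z : ℂ,
    (z - 1) * (z - 2) * aeval z p = z * (z - 1) * (z - 2) *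
      ((z - 2) * ((z - 2) * ((z - 2) ^ k₁ * ((z - 2) * (z - 3) ^ 2) ^ k₂) +
          (-1) ^ k₁ * (2 * (z - 3)) ^ k₂) +
        (z - 1) * (z - 3) * ((z - 3) * ((z - 3) ^ k₁ * LL z ^ k₂) +
          (-1) ^ k₁ * (2 * (z - 3)) ^ k₂))) →
  ∀ x : ℝ, 4 < x → x < 4 + √2 → ∀ ε : ℝ, 0 < ε → ∃ z : ℂ, ‖z - x‖ < ε ∧
    ∃ (n : ℕ) (G : ℕ → ℕ → Prop) (F : Set (Finset ℕ)) (p : ℝ[X]), Tri n G F ∧
    IsP (fun k => num n k (Proper G)) p ∧ aeval z p = 0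

end Pool.Agent.E9helper80.TD
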