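import Pool.Agent.E9helper80.TD.Stm2

/-!
# Project TD, part 3: an open set of the complex plane in which the zeros are dense

Theorem: the complex zeros of chromatic polynomials of planar triangulations are dense in the open set
`UU` of the complex plane, which contains the real interval `(4, 4 + √2)`.
-/

namespace Pool.Agent.E9helper80.TD

open Polynomial

/-- the region (an open set): here the eigenvalues of the two operations dominate as they should -/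
def UU : Set ℂ := {z | 5 / 2 < z.re ∧ 1 < ‖z - 3‖ ∧ ‖2 * (z - 3)‖ < ‖LL z‖ ∧
  ‖(z - 2) * (z - 3) ^ 2‖ < ‖LL z‖}

/-- **NCO** (120 lines, complex analysis). `log |E|` is not a constant multiple of `-log |Y|` on any
ball of the region. Proof. `UU` is open, so shrink the ball. `E = (z-2)/(z-3)` and
`W = LL z / ((z-2)(z-3)^2)` are analytic and not zero near `z₀`. Near `z₀` the functions
`E z / E z₀`, `W z / W z₀` lie in the slit plane, so `h = log (E z / E z₀) - c log (W z / W z₀)` is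
analytic near `z₀`, with real part `log ‖E z‖ - c log ‖W z‖ - const = const`. So `h` is not open,
hence constant near `z₀` (`AnalyticAt.eventually_constant_or_nhds_le_map_nhds`), and
`E'/E = c W'/W` near `z₀`. With `E'/E = -1/((z-2)(z-3))`,
`W'/W = L'/L - 1/(z-2) - 2/(z-3)`, multiplied by `(z-2)(z-3) L`:
`-(z³-9z²+29z-32) = c (z³-13z²+46z-50)` near `z₀` (`L'(z-2)(z-3) - L(3z-7) = z³-13z²+46z-50`),
hence for all `z` (a polynomial with infinitely many zeros); `z = 4` gives `-4 = -10 c` and `z = 2`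
gives `2 = -2 c`, a contradiction. -/
def S_NCO : Prop := ∀ z₀ ∈ UU, ∀ r : ℝ, 0 < r → ∀ c : ℝ, ∃ z ∈ Metric.ball z₀ r, z ∈ UU ∧
  Real.log ‖(z - 2) / (z - 3)‖ ≠ c * Real.log ‖LL z / ((z - 2) * (z - 3) ^ 2)‖

/-- **PTC** (150 lines, complex analysis, uses NCO). Proof. In `UU`: `‖E‖ > 1` (as `Re z > 5/2`) and
`‖W‖ > 1`, `W = LL z / ((z-2)(z-3)^2)`, so `θ = log ‖E‖ / log ‖W‖ > 0` is continuous. Take a ball `B`
around `z₀` inside `UU` and of radius `≤ ε/2`; by NCO with `c = θ(z₀)` it contains `z₁` with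
`θ(z₁) ≠ θ(z₀)`; `B` is convex, hence connected, so some `q₀ ∈ B` has `θ(q₀) = m₂/m₁` rational, `> 0`.
So `‖R q₀‖ = 1` for `R = RR m₁ m₂`. `R` is not constant near `q₀` (else `‖R‖ = 1` near `q₀`, against
NCO), so `R` is open at `q₀` (`AnalyticAt.eventually_constant_or_nhds_le_map_nhds`), and `R' ≠ 0` in a
punctured ball around `q₀` (`AnalyticAt.eventually_eq_zero_or_eventually_ne_zero` for `deriv R`).
Roots of unity are dense in the circle: take a root of unity `ω ≠ R q₀`, `ω ^ j = 1`, `j ≥ 1`, so near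
`R q₀` that `ω = R q`, `q` in that punctured ball and in `ball z₀ ε`. Then
`RR (j m₁) (j m₂) = R ^ j` has the value `1` at `q` and the derivative `j ω^(j-1) R'(q) ≠ 0`. -/
def S_PTC : Prop := S_NCO → ∀ z₀ ∈ UU, ∀ ε : ℝ, 0 < ε → ∃ (m₁ m₂ : ℕ) (q : ℂ), 1 ≤ m₁ ∧ 1 ≤ m₂ ∧
  ‖q - z₀‖ < ε ∧ q ∈ UU ∧ RR m₁ m₂ q = 1 ∧ deriv (RR m₁ m₂) q ≠ 0

/-- **CXC** (120 lines; the same proof as CXF with `UU` in place of the interval). Proof. Take
`q ∈ UU`, `m₁, m₂` from PTC in the `ε`-neighbourhood of `z₀`. In a small ball around `q` the numbers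
`z, z-1, z-2, z-3, LL z` are not zero and `‖κ/Λ'‖ ≤ ρ < 1`, `κ = (-1)^m₁ (2(z-3))^m₂`,
`Λ' = (z-3)^m₁ (LL z)^m₂` (by continuity, from `1 < ‖q - 3‖` and `‖2(q-3)‖ < ‖LL q‖`). For
`k₁ = m₁ N`, `k₂ = m₂ N` the bracket of FAM, divided by `(z-2)² Λ'^N`, is
`R^N - H - e_N` with `R = RR m₁ m₂`, `H = -(z-1)(z-3)²/(z-2)²`,
`e_N = -((z-2) + (z-1)(z-3))/(z-2)² (κ/Λ')^N`; ROOT gives a zero. -/
def S_CXC : Prop := S_ROOT →
  (∀ z₀ ∈ UU, ∀ ε : ℝ, 0 < ε → ∃ (m₁ m₂ : ℕ) (q : ℂ), 1 ≤ m₁ ∧ 1 ≤ m₂ ∧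
    ‖q - z₀‖ < ε ∧ q ∈ UU ∧ RR m₁ m₂ q = 1 ∧ deriv (RR m₁ m₂) q ≠ 0) →
  (∀ k₁ k₂ : ℕ, 1 ≤ k₁ →
  ∃ (n : ℕ) (G : ℕ → ℕ → Prop) (F : Set (Finset ℕ)) (p : ℝ[X]), Tri n G F ∧
    IsP (fun k => num n k (Proper G)) p ∧ ∀ z : ℂ,
    (z - 1) * (z - 2) * aeval z p = z * (z - 1) * (z - 2) *
      ((z - 2) * ((z - 2) * ((z - 2) ^ k₁ * ((z - 2) * (z - 3) ^ 2) ^ k₂) +
          (-1) ^ k₁ * (2 * (z - 3)) ^ k₂) +
        (z - 1) * (z - 3) * ((z - 3) * ((z - 3) ^ k₁ * LL z ^ k₂) +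
          (-1) ^ k₁ * (2 * (z - 3)) ^ k₂))) →
  ∀ z₀ ∈ UU, ∀ ε : ℝ, 0 < ε → ∃ z : ℂ, ‖z - z₀‖ < ε ∧
    ∃ (n : ℕ) (G : ℕ → ℕ → Prop) (F : Set (Finset ℕ)) (p : ℝ[X]), Tri n G F ∧
    IsP (fun k => num n k (Proper G)) p ∧ aeval z p = 0

end Pool.Agent.E9helper80.TD
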