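import Pool.Agent.E9helper80.TD.Final2
import Pool.Agent.E9helper80.TD.Stm3

namespace Pool.Agent.E9helper80.TD

open Polynomial

theorem main3 (hEXT : S_EXT) (hEXT3 : S_EXT3) (hTRI : S_TRI) (hERC : S_ERC) (hXRC : S_XRC)
    (hKER : S_KER) (hCNV : S_CNV) (hINV : S_INV) (hOPE : S_OPE) (hOPX : S_OPX)
    (hITR : S_ITR) (hFLP : S_FLP) (hROOT : S_ROOT) (hKFO : S_KFO)
    (hFAM : S_FAM) (hNCO : S_NCO) (hPTC : S_PTC) (hCXC : S_CXC) :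
    ∀ z₀ ∈ UU, ∀ ε : ℝ, 0 < ε → ∃ z : ℂ, ‖z - z₀‖ < ε ∧
      ∃ (n : ℕ) (G : ℕ → ℕ → Prop) (F : Set (Finset ℕ)) (p : ℝ[X]), Tri n G F ∧
        (∀ k : ℕ, p.eval (k : ℝ) =
          (Nat.card {c : Fin n → Fin k // ∀ x y : Fin n, G x y → c x ≠ c y} : ℝ)) ∧
        aeval z p = 0 := by
  intro z₀ hz₀ ε hε
  have hlt : ∀ (n : ℕ) (G : ℕ → ℕ → Prop) (F : Set (Finset ℕ)), Tri n G F →
      ∀ x y, G x y → x < n ∧ y < n := fun n G F h x y hxy =>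
    ⟨((hINV n G F h).2.1 x y hxy).1, ((hINV n G F h).2.1 x y hxy).2.1⟩
  obtain ⟨z, hz, n, G, F, p, hT, hp, h0⟩ := hCXC hROOT (hPTC hNCO)
    (hFAM hEXT hEXT3 hTRI hERC hXRC hINV hOPE hOPX hITR hFLP hKFO) z₀ hz₀ ε hε
  obtain ⟨r, hr⟩ := exists_poly hKER n G (hlt n G F hT)
  have hr' : IsP (fun k => num n k (Proper G)) r := fun k _ => hr k
  have he := IsP.unique hp hr'
  refine ⟨z, hz, n, G, F, r, hT, ?_, ?_⟩
  · intro k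
    rw [hr k, hCNV n k G (hlt n G F hT)]
  · rw [← he]
    exact h0

end Pool.Agent.E9helper80.TD
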