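import Pool.Agent.E9helper80.TD.Stm

/-!
# Inserting a vertex in a triangle; the colourings of the complete graph on four vertices (helper30)
-/

set_option autoImplicit false

namespace Pool.Agent.E9helper80.TD

namespace INCx

theorem ncard_avoid (k : ℕ) (D : Finset ℕ) (hD : ∀ x ∈ D, x < k) :
    Set.ncard {v | v < k ∧ v ∉ D} = k - D.card := by
  have e : {v | v < k ∧ v ∉ D} = ((Finset.range k \ D : Finset ℕ) : Set ℕ) := by
    ext v
    simp [Finset.mem_sdiff, Finset.mem_range]
  rw [e, Set.ncard_coe_finset, Finset.card_sdiff_of_subset, Finset.card_range]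
  intro x hx
  exact Finset.mem_range.2 (hD x hx)

/-- the complete relation on `{0, …, m - 1}` -/
def K (m : ℕ) : ℕ → ℕ → Prop := fun x y => x < m ∧ y < m ∧ x ≠ y

/-- one more vertex, forbidden colours `D c` -/
theorem step (hE : S_EXT) (n k m : ℕ) (G H : ℕ → ℕ → Prop) (D : (ℕ → ℕ) → Finset ℕ)
    (hD : ∀ c ∈ Fn n k, Proper G c → (∀ x ∈ D c, x < k) ∧ (D c).card = m)
    (h1 : ∀ c ∈ Fn n k, ∀ v, Proper H (Function.update c n v) → Proper G c)
    (h2 : ∀ c ∈ Fn n k, Proper G c → ∀ v, (Proper H (Function.update c n v) ↔ v ∉ D c)) :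
    num (n + 1) k (Proper H) = (k - m) * num n k (Proper G) := by
  have key := hE n k (k - m) 0 (Proper H) (Proper G) (fun _ => False) (fun c _ _ h => h)
    (fun c hc hG => ?_) (fun c hc h => h.elim) (fun c hc hG _ => ?_)
  · rw [key, Nat.zero_mul, Nat.add_zero]
  · have e : {v | v < k ∧ Proper H (Function.update c n v)} = {v | v < k ∧ v ∉ D c} := by
      ext v
      simp only [Set.mem_setOf_eq]
      rw [h2 c hc hG v]
    rw [e, ncard_avoid k (D c) (hD c hc hG).1, (hD c hc hG).2]
  · have e : {v | v < k ∧ Proper H (Function.update c n v)} = ∅ := by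
      ext v
      simp only [Set.mem_setOf_eq, Set.mem_empty_iff_false, iff_false, not_and]
      intro _ h
      exact hG (h1 c hc v h)
    rw [e, Set.ncard_empty]

theorem upd_lt {c : ℕ → ℕ} {n v x : ℕ} (h : x < n) : Function.update c n v x = c x :=
  Function.update_of_ne (Nat.ne_of_lt h) _ _

theorem stepK (hE : S_EXT) (m k : ℕ) :
    num (m + 1) k (Proper (K (m + 1))) = (k - m) * num m k (Proper (K m)) := by
  refine step hE m k m (K m) (K (m + 1)) (fun c => (Finset.range m).image c) ?_ ?_ ?_
  · intro c hc hG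
    refine ⟨fun x hx => ?_, ?_⟩
    · obtain ⟨y, hy, rfl⟩ := Finset.mem_image.1 hx
      exact hc.1 y (Finset.mem_range.1 hy)
    · rw [Finset.card_image_of_injOn, Finset.card_range]
      intro x hx y hy hxy
      by_contra hne
      exact hG x y ⟨Finset.mem_range.1 (Finset.mem_coe.1 hx),
        Finset.mem_range.1 (Finset.mem_coe.1 hy), hne⟩ hxy
  · rintro c hc v h x y ⟨hx, hy, hxy⟩
    have := h x y ⟨Nat.lt_succ_of_lt hx, Nat.lt_succ_of_lt hy, hxy⟩
    rwa [upd_lt hx, upd_lt hy] at this
  · intro c hc hG v
    constructor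
    · intro h hv
      obtain ⟨y, hy, e⟩ := Finset.mem_image.1 hv
      have hy' := Finset.mem_range.1 hy
      have := h y m ⟨Nat.lt_succ_of_lt hy', Nat.lt_succ_self m, Nat.ne_of_lt hy'⟩
      rw [upd_lt hy', Function.update_self] at this
      exact this e
    · rintro hv x y ⟨hx, hy, hxy⟩
      rcases Nat.lt_succ_iff_lt_or_eq.1 hx with hx' | rfl
      · rcases Nat.lt_succ_iff_lt_or_eq.1 hy with hy' | rfl
        · rw [upd_lt hx', upd_lt hy']
          exact hG x y ⟨hx', hy', hxy⟩
        · rw [upd_lt hx', Function.update_self]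
          intro e
          exact hv (Finset.mem_image.2 ⟨x, Finset.mem_range.2 hx', e⟩)
      · rcases Nat.lt_succ_iff_lt_or_eq.1 hy with hy' | rfl
        · rw [upd_lt hy', Function.update_self]
          intro e
          exact hv (Finset.mem_image.2 ⟨y, Finset.mem_range.2 hy', e.symm⟩)
        · exact absurd rfl hxy

theorem num0 (k : ℕ) : num 0 k (Proper (K 0)) = 1 := by
  have e : {c | c ∈ Fn 0 k ∧ Proper (K 0) c} = {fun _ => 0} := by
    ext c
    simp only [Set.mem_setOf_eq, Set.mem_singleton_iff]
    constructor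
    · rintro ⟨h, -⟩
      funext x
      exact h.2 x (Nat.zero_le x)
    · rintro rfl
      exact ⟨⟨fun x hx => absurd hx (Nat.not_lt_zero x), fun x _ => rfl⟩,
        fun x y h => absurd h.1 (Nat.not_lt_zero x)⟩
  unfold num
  rw [e, Set.ncard_singleton]

end INCx

open INCx in
theorem s_inc : S_INC := by
  intro hE
  refine ⟨fun n k a b c G hk hG ha hb hc hab hac hbc => ?_, fun k hk => ?_⟩
  · have h := step hE n k 3 G (insG G n a b c) (fun f => {f a, f b, f c}) ?_ ?_ ?_
    · rw [h, Nat.cast_mul, Nat.cast_sub (by omega)]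
      norm_num
    · intro f hf hP
      refine ⟨fun x hx => ?_, ?_⟩
      · simp only [Finset.mem_insert, Finset.mem_singleton] at hx
        rcases hx with rfl | rfl | rfl
        · exact hf.1 a ha
        · exact hf.1 b hb
        · exact hf.1 c hc
      · rw [Finset.card_eq_three]
        exact ⟨f a, f b, f c, hP a b hab, hP a c hac, hP b c hbc, rfl⟩
    · intro f hf v h x y hxy
      obtain ⟨hx, hy⟩ := hG x y hxy
      have := h x y (Or.inl hxy)
      rwa [upd_lt hx, upd_lt hy] at this
    · intro f hf hP v
      simp only [Finset.mem_insert, Finset.mem_singleton, not_or]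
      constructor
      · intro h
        refine ⟨?_, ?_, ?_⟩
        · have := h n a (Or.inr (Or.inl ⟨rfl, Or.inl rfl⟩))
          rwa [Function.update_self, upd_lt ha] at this
        · have := h n b (Or.inr (Or.inl ⟨rfl, Or.inr (Or.inl rfl)⟩))
          rwa [Function.update_self, upd_lt hb] at this
        · have := h n c (Or.inr (Or.inl ⟨rfl, Or.inr (Or.inr rfl)⟩))
          rwa [Function.update_self, upd_lt hc] at this
      · rintro ⟨h1, h2, h3⟩ x y (hxy | ⟨rfl, h⟩ | ⟨rfl, h⟩)
        · obtain ⟨hx, hy⟩ := hG x y hxy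
          rw [upd_lt hx, upd_lt hy]
          exact hP x y hxy
        · rcases h with rfl | rfl | rfl
          · rwa [Function.update_self, upd_lt ha]
          · rwa [Function.update_self, upd_lt hb]
          · rwa [Function.update_self, upd_lt hc]
        · rcases h with rfl | rfl | rfl
          · rw [Function.update_self, upd_lt ha]
            exact fun e => h1 e.symm
          · rw [Function.update_self, upd_lt hb]
            exact fun e => h2 e.symm
          · rw [Function.update_self, upd_lt hc]
            exact fun e => h3 e.symm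
  · have e : num 4 k (Proper (fun x y => x < 4 ∧ y < 4 ∧ x ≠ y)) =
        (k - 3) * ((k - 2) * ((k - 1) * ((k - 0) * 1))) := by
      have h3 := stepK hE 3 k
      rw [stepK hE 2 k, stepK hE 1 k, stepK hE 0 k, num0] at h3
      exact h3
    rw [e, Nat.cast_mul, Nat.cast_mul, Nat.cast_mul, Nat.cast_sub (by omega), Nat.cast_sub (by omega),
      Nat.cast_sub (by omega)]
    push_cast
    simp only [Nat.sub_zero]
    ring

end Pool.Agent.E9helper80.TD
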