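import Pool.Agent.E9helper80.TD.Stm

set_option autoImplicit false

namespace Pool.Agent.E9helper80.TD

theorem s_inv : S_INV := by
  intro n G F h
  induction h with
  | base =>
    refine ⟨le_refl _, fun x y h => ⟨h.1, h.2.1, h.2.2, h.2.1, h.1, h.2.2.symm⟩, ?_⟩
    rintro f ⟨hf, hc⟩
    refine ⟨hc, fun x hx => ⟨Finset.mem_range.1 (hf hx), fun y hy hxy => ?_⟩⟩
    exact ⟨Finset.mem_range.1 (hf hx), Finset.mem_range.1 (hf hy), hxy⟩
  | @ins n G F a b c h hab hac hbc hf ih =>
    obtain ⟨h4, hG, hF⟩ := ih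
    obtain ⟨-, hfa⟩ := hF _ hf
    have ha := hfa a (by simp)
    have hb := hfa b (by simp)
    have hc := hfa c (by simp)
    have han : a < n := ha.1
    have hbn : b < n := hb.1
    have hcn : c < n := hc.1
    have gab : G a b := ha.2 b (by simp) hab
    have gac : G a c := ha.2 c (by simp) hac
    have gbc : G b c := hb.2 c (by simp) hbc
    have gba : G b a := hb.2 a (by simp) hab.symm
    have gca : G c a := hc.2 a (by simp) hac.symm
    have gcb : G c b := hc.2 b (by simp) hbc.symm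
    refine ⟨by omega, ?_, ?_⟩
    · intro x y hxy
      rcases hxy with hxy | ⟨rfl, hy⟩ | ⟨rfl, hx⟩
      · obtain ⟨h1, h2, h3, h4'⟩ := hG x y hxy
        exact ⟨by omega, by omega, h3, Or.inl h4'⟩
      · refine ⟨by omega, ?_, ?_, Or.inr (Or.inr ⟨rfl, hy⟩)⟩
        · rcases hy with rfl | rfl | rfl <;> omega
        · rcases hy with rfl | rfl | rfl <;> omega
      · refine ⟨?_, by omega, ?_, Or.inr (Or.inl ⟨rfl, hx⟩)⟩
        · rcases hx with rfl | rfl | rfl <;> omega
        · rcases hx with rfl | rfl | rfl <;> omega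
    · have key : ∀ p q : ℕ, p ≠ q → p < n → q < n → (p = a ∨ p = b ∨ p = c) →
          (q = a ∨ q = b ∨ q = c) → G p q → G q p →
          ({p, q, n} : Finset ℕ).card = 3 ∧ ∀ x ∈ ({p, q, n} : Finset ℕ), x < n + 1 ∧
            ∀ y ∈ ({p, q, n} : Finset ℕ), x ≠ y → insG G n a b c x y := by
        intro p q hpq hp hq hpm hqm g1 g2
        refine ⟨Finset.card_eq_three.2 ⟨p, q, n, hpq, by omega, by omega, rfl⟩, ?_⟩
        intro x hx
        simp only [Finset.mem_insert, Finset.mem_singleton] at hx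
        refine ⟨by rcases hx with rfl | rfl | rfl <;> omega, ?_⟩
        intro y hy hxy
        simp only [Finset.mem_insert, Finset.mem_singleton] at hy
        rcases hx with rfl | rfl | rfl <;> rcases hy with rfl | rfl | rfl
        · exact absurd rfl hxy
        · exact Or.inl g1
        · exact Or.inr (Or.inr ⟨rfl, hpm⟩)
        · exact Or.inl g2
        · exact absurd rfl hxy
        · exact Or.inr (Or.inr ⟨rfl, hqm⟩)
        · exact Or.inr (Or.inl ⟨rfl, hpm⟩)
        · exact Or.inr (Or.inl ⟨rfl, hqm⟩)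
        · exact absurd rfl hxy
      rintro f (⟨hfF, -⟩ | rfl | rfl | rfl)
      · obtain ⟨h1, h2⟩ := hF f hfF
        refine ⟨h1, fun x hx => ⟨by have := (h2 x hx).1; omega, fun y hy hxy => ?_⟩⟩
        exact Or.inl ((h2 x hx).2 y hy hxy)
      · exact key a b hab han hbn (Or.inl rfl) (Or.inr (Or.inl rfl)) gab gba
      · exact key b c hbc hbn hcn (Or.inr (Or.inl rfl)) (Or.inr (Or.inr rfl)) gbc gcb
      · exact key a c hac han hcn (Or.inl rfl) (Or.inr (Or.inr rfl)) gac gca
  | @flip n G F a b c d h hab hac had hbc hbd hcd hf hg honly hGcd ih =>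
    obtain ⟨h4, hG, hF⟩ := ih
    obtain ⟨-, hfa⟩ := hF _ hf
    obtain ⟨-, hga⟩ := hF _ hg
    have ha := hfa a (by simp)
    have hb := hfa b (by simp)
    have hc := hfa c (by simp)
    have hd := hga d (by simp)
    have gac : G a c := ha.2 c (by simp) hac
    have gbc : G b c := hb.2 c (by simp) hbc
    have gad : G a d := (hga a (by simp)).2 d (by simp) had
    have gbd : G b d := (hga b (by simp)).2 d (by simp) hbd
    have sym : ∀ x y, flipG G a b c d x y → flipG G a b c d y x := by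
      intro x y hxy
      rcases hxy with ⟨h1, h2, h3⟩ | ⟨rfl, rfl⟩ | ⟨rfl, rfl⟩
      · exact Or.inl ⟨(hG x y h1).2.2.2, fun h => h3 ⟨h.2, h.1⟩, fun h => h2 ⟨h.2, h.1⟩⟩
      · exact Or.inr (Or.inr ⟨rfl, rfl⟩)
      · exact Or.inr (Or.inl ⟨rfl, rfl⟩)
    refine ⟨h4, ?_, ?_⟩
    · intro x y hxy
      have hs := sym x y hxy
      rcases hxy with ⟨h1, h2, h3⟩ | ⟨rfl, rfl⟩ | ⟨rfl, rfl⟩
      · exact ⟨(hG x y h1).1, (hG x y h1).2.1, (hG x y h1).2.2.1, hs⟩
      · exact ⟨hc.1, hd.1, hcd, hs⟩
      · exact ⟨hd.1, hc.1, hcd.symm, hs⟩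
    · have key : ∀ p : ℕ, p ≠ c → p ≠ d → p < n → G p c → G p d → (p = a ∨ p = b) →
          ({p, c, d} : Finset ℕ).card = 3 ∧ ∀ x ∈ ({p, c, d} : Finset ℕ), x < n ∧
            ∀ y ∈ ({p, c, d} : Finset ℕ), x ≠ y → flipG G a b c d x y := by
        intro p hpc hpd hp g1 g2 hpm
        have f1 : flipG G a b c d p c := by
          refine Or.inl ⟨g1, ?_, ?_⟩
          · rintro ⟨-, h⟩; exact hbc h.symm
          · rintro ⟨-, h⟩; exact hac h.symm
        have f2 : flipG G a b c d p d := by
          refine Or.inl ⟨g2, ?_, ?_⟩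
          · rintro ⟨-, h⟩; exact hbd h.symm
          · rintro ⟨-, h⟩; exact had h.symm
        have f3 : flipG G a b c d c d := Or.inr (Or.inl ⟨rfl, rfl⟩)
        refine ⟨Finset.card_eq_three.2 ⟨p, c, d, hpc, hpd, hcd, rfl⟩, ?_⟩
        intro x hx
        simp only [Finset.mem_insert, Finset.mem_singleton] at hx
        refine ⟨by rcases hx with rfl | rfl | rfl; exacts [hp, hc.1, hd.1], ?_⟩
        intro y hy hxy
        simp only [Finset.mem_insert, Finset.mem_singleton] at hy
        rcases hx with rfl | rfl | rfl <;> rcases hy with rfl | rfl | rfl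
        · exact absurd rfl hxy
        · exact f1
        · exact f2
        · exact sym _ _ f1
        · exact absurd rfl hxy
        · exact f3
        · exact sym _ _ f2
        · exact sym _ _ f3
        · exact absurd rfl hxy
      rintro f (⟨hfF, hn1, hn2⟩ | rfl | rfl)
      · obtain ⟨h1, h2⟩ := hF f hfF
        refine ⟨h1, fun x hx => ⟨(h2 x hx).1, fun y hy hxy => ?_⟩⟩
        refine Or.inl ⟨(h2 x hx).2 y hy hxy, ?_, ?_⟩
        · rintro ⟨rfl, rfl⟩
          rcases honly f hfF hx hy with h | h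
          · exact hn1 h
          · exact hn2 h
        · rintro ⟨rfl, rfl⟩
          rcases honly f hfF hy hx with h | h
          · exact hn1 h
          · exact hn2 h
      · exact key a hac had ha.1 gac gad (Or.inl rfl)
      · exact key b hbc hbd hb.1 gbc gbd (Or.inr rfl)

end Pool.Agent.E9helper80.TD
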