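import Pool.Agent.E9helper80.TD.Stm

/-!
# ITR: iterating the operations
-/

namespace Pool.Agent.E9helper80.TD

open Polynomial

theorem ITRx_E (hEXT : S_EXT) (hERC : S_ERC) (hINV : S_INV) (hOPE : S_OPE)
    (n s t u w : ℕ) (G : ℕ → ℕ → Prop) (F : Set (Finset ℕ)) (A B C D : ℝ[X])
    (hS : St n G F s t u w) (hQ : Quad n (delE G s t) s t u w A B C D) :
    ∃ (n' w' : ℕ) (G' : ℕ → ℕ → Prop) (F' : Set (Finset ℕ)) (A' B' C' D' : ℝ[X]),
      St n' G' F' s t u w' ∧ Quad n' (delE G' s t) s t u w' A' B' C' D' ∧ ¬ G' u w' ∧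
      ∀ q : ℝ,
        A'.eval q + B'.eval q = (q - 2) * (A.eval q + B.eval q) ∧
        (q - 2) * A'.eval q - B'.eval q = (-1) * ((q - 2) * A.eval q - B.eval q) ∧
        C'.eval q + D'.eval q = (q - 3) * (C.eval q + D.eval q) ∧
        (q - 3) * C'.eval q - D'.eval q = (-1) * ((q - 3) * C.eval q - D.eval q) := by
  obtain ⟨h1, h2, h3, h4, -⟩ := hOPE hINV n s t u w G F hS
  have hE := fun k hk => hERC hEXT n k s t u w (delE G s t) hk h4
  refine ⟨n + 1, n, insG G n s t w, insF F n s t w, B,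
    (X - Polynomial.C 2) * A + (X - Polynomial.C 3) * B, D,
    (X - Polynomial.C 3) * C + (X - Polynomial.C 4) * D, h1, ?_, h2, ?_⟩
  · rw [h3]
    refine ⟨fun k hk => ?_, fun k hk => ?_, fun k hk => ?_, fun k hk => ?_⟩
    · beta_reduce
      rw [(hE k hk).1]
      exact hQ.b k hk
    · rw [(hE k hk).2.1, ← hQ.a k hk, ← hQ.b k hk]
      simp
    · beta_reduce
      rw [(hE k hk).2.2.1]
      exact hQ.d k hk
    · rw [(hE k hk).2.2.2, ← hQ.c k hk, ← hQ.d k hk]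
      simp
  · intro q
    simp only [eval_add, eval_mul, eval_sub, eval_X, eval_C]
    refine ⟨?_, ?_, ?_, ?_⟩ <;> ring

theorem ITRx_X (hEXT3 : S_EXT3) (hTRI : S_TRI) (hXRC : S_XRC) (hINV : S_INV) (hOPE : S_OPE)
    (hOPX : S_OPX) (n s t u w : ℕ) (G : ℕ → ℕ → Prop) (F : Set (Finset ℕ)) (A B C D : ℝ[X])
    (hS : St n G F s t u w) (hQ : Quad n (delE G s t) s t u w A B C D) :
    ∃ (n' w' : ℕ) (G' : ℕ → ℕ → Prop) (F' : Set (Finset ℕ)) (A' B' C' D' : ℝ[X]),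
      St n' G' F' s t u w' ∧ Quad n' (delE G' s t) s t u w' A' B' C' D' ∧
      ∀ q : ℝ,
        A'.eval q + B'.eval q = ((q - 2) * (q - 3) ^ 2) * (A.eval q + B.eval q) ∧
        (q - 2) * A'.eval q - B'.eval q = (2 * (q - 3)) * ((q - 2) * A.eval q - B.eval q) ∧
        C'.eval q + D'.eval q =
          (q ^ 3 - 9 * q ^ 2 + 29 * q - 32) * (C.eval q + D.eval q) ∧
        (q - 3) * C'.eval q - D'.eval q = (2 * (q - 3)) * ((q - 3) * C.eval q - D.eval q) := by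
  obtain ⟨-, -, -, h4, -⟩ := hOPE hINV n s t u w G F hS
  obtain ⟨h1, -, h3⟩ := hOPX hINV n s t u w G F hS
  have hE := fun k hk => hXRC hEXT3 hTRI n k s t u w (delE G s t) hk h4
  refine ⟨n + 3, n, opG G n s t w, opF F n s t w,
    (X - Polynomial.C 2) * (X - Polynomial.C 3) * A +
      (X - Polynomial.C 3) * (X - Polynomial.C 4) * B,
    (X - Polynomial.C 2) * ((X - Polynomial.C 3) * (X - Polynomial.C 4)) * A +
      ((X - Polynomial.C 2) * (X - Polynomial.C 3) +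
        (X - Polynomial.C 3) * ((X - Polynomial.C 3) * (X - Polynomial.C 4))) * B,
    (X ^ 2 - Polynomial.C 5 * X + Polynomial.C 7) * C +
      (X ^ 2 - Polynomial.C 7 * X + Polynomial.C 13) * D,
    (X - Polynomial.C 3) * (X ^ 2 - Polynomial.C 7 * X + Polynomial.C 13) * C +
      ((X ^ 2 - Polynomial.C 5 * X + Polynomial.C 7) +
        (X - Polynomial.C 4) * (X ^ 2 - Polynomial.C 7 * X + Polynomial.C 13)) * D, h1, ?_, ?_⟩
  · rw [h3]
    refine ⟨fun k hk => ?_, fun k hk => ?_, fun k hk => ?_, fun k hk => ?_⟩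
    · rw [(hE k hk).1, ← hQ.a k hk, ← hQ.b k hk]
      simp
    · rw [(hE k hk).2.1, ← hQ.a k hk, ← hQ.b k hk]
      simp
    · rw [(hE k hk).2.2.1, ← hQ.c k hk, ← hQ.d k hk]
      simp
    · rw [(hE k hk).2.2.2, ← hQ.c k hk, ← hQ.d k hk]
      simp
  · intro q
    simp only [eval_add, eval_mul, eval_sub, eval_X, eval_C, eval_pow]
    refine ⟨?_, ?_, ?_, ?_⟩ <;> ring

theorem s_itr : S_ITR := by
  intro hEXT hEXT3 hTRI hERC hXRC hINV hOPE hOPX n s t u w G F A B C D hS hQ k₁ k₂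
  induction k₁ with
  | zero =>
    induction k₂ with
    | zero =>
      refine ⟨n, w, G, F, A, B, C, D, hS, hQ, fun h => absurd h (by norm_num), fun q => ?_⟩
      simp
    | succ k₂ ih =>
      obtain ⟨n', w', G', F', A', B', C', D', hS', hQ', -, h⟩ := ih
      obtain ⟨n₁, w₁, G₁, F₁, A₁, B₁, C₁, D₁, hS₁, hQ₁, h₁⟩ :=
        ITRx_X hEXT3 hTRI hXRC hINV hOPE hOPX n' s t u w' G' F' A' B' C' D' hS' hQ'
      refine ⟨n₁, w₁, G₁, F₁, A₁, B₁, C₁, D₁, hS₁, hQ₁, fun h => absurd h (by norm_num),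
        fun q => ?_⟩
      obtain ⟨e1, e2, e3, e4⟩ := h q
      obtain ⟨f1, f2, f3, f4⟩ := h₁ q
      rw [f1, f2, f3, f4, e1, e2, e3, e4]
      refine ⟨?_, ?_, ?_, ?_⟩ <;> ring
  | succ k₁ ih =>
    obtain ⟨n', w', G', F', A', B', C', D', hS', hQ', -, h⟩ := ih
    obtain ⟨n₁, w₁, G₁, F₁, A₁, B₁, C₁, D₁, hS₁, hQ₁, hn, h₁⟩ :=
      ITRx_E hEXT hERC hINV hOPE n' s t u w' G' F' A' B' C' D' hS' hQ'
    refine ⟨n₁, w₁, G₁, F₁, A₁, B₁, C₁, D₁, hS₁, hQ₁, fun _ => hn, fun q => ?_⟩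
    obtain ⟨e1, e2, e3, e4⟩ := h q
    obtain ⟨f1, f2, f3, f4⟩ := h₁ q
    rw [f1, f2, f3, f4, e1, e2, e3, e4]
    refine ⟨?_, ?_, ?_, ?_⟩ <;> ring

end Pool.Agent.E9helper80.TD
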