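import Pool.Agent.E9helper80.TD.Stm

namespace Pool.Agent.E9helper80.TD

open Polynomial

theorem ker_aux1 (n : ℕ) (r : Fin n → Fin n → Prop) :
    ∃ p : ℝ[X], ∀ k : ℕ, p.eval (k : ℝ) =
      (Nat.card {f : Fin n → Fin k // ∀ x y, f x = f y ↔ r x y} : ℝ) := by
  classical
  by_cases h : ∃ s : Setoid (Fin n), ∀ x y, s x y ↔ r x y
  · obtain ⟨s, hs⟩ := h
    refine ⟨descPochhammer ℝ (Fintype.card (Quotient s)), fun k => ?_⟩
    have e : {f : Fin n → Fin k // ∀ x y, f x = f y ↔ r x y} ≃ (Quotient s ↪ Fin k) :=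
      { toFun := fun f => ⟨Quotient.lift f.1 (fun a b hab => (f.2 a b).2 ((hs a b).1 hab)), by
          intro a b
          induction a using Quotient.inductionOn with | _ a
          induction b using Quotient.inductionOn with | _ b
          intro hab
          exact Quotient.sound ((hs a b).2 ((f.2 a b).1 hab))⟩
        invFun := fun g => ⟨fun x => g (Quotient.mk s x), fun x y => by
          rw [g.injective.eq_iff, ← hs x y]
          exact Quotient.eq⟩
        left_inv := fun f => by
          apply Subtype.ext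
          rfl
        right_inv := fun g => by
          ext a
          induction a using Quotient.inductionOn with | _ a
          rfl }
    rw [Nat.card_congr e, Nat.card_eq_fintype_card, Fintype.card_embedding_eq, Fintype.card_fin,
      descPochhammer_eval_eq_descFactorial]
  · refine ⟨0, fun k => ?_⟩
    have : IsEmpty {f : Fin n → Fin k // ∀ x y, f x = f y ↔ r x y} := by
      refine ⟨fun f => h ⟨Setoid.ker f.1, fun x y => ?_⟩⟩
      rw [← f.2 x y]
      exact Setoid.ker_def
    simp [Nat.card_of_isEmpty]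

/-- extension of a function on `Fin n` -/
noncomputable def kext {n k : ℕ} (f : Fin n → Fin k) : ℕ → ℕ := fun x =>
  if h : x < n then (f ⟨x, h⟩ : ℕ) else 0

theorem kext_lt {n k : ℕ} (f : Fin n → Fin k) (x : Fin n) : kext f x = f x := by
  unfold kext
  rw [dif_pos x.2]

theorem kext_inj {n k : ℕ} : Function.Injective (kext : (Fin n → Fin k) → ℕ → ℕ) := by
  intro f g hfg
  funext x
  apply Fin.ext
  rw [← kext_lt f x, ← kext_lt g x, hfg]

theorem num_eq_card (n k : ℕ) (Φ : (ℕ → ℕ) → Prop) :
    num n k Φ = Nat.card {f : Fin n → Fin k // Φ (kext f)} := by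
  unfold num
  have : {c | c ∈ Fn n k ∧ Φ c} = kext '' {f : Fin n → Fin k | Φ (kext f)} := by
    ext c
    constructor
    · rintro ⟨⟨h1, h2⟩, h3⟩
      have hc : kext (fun x : Fin n => (⟨c x, h1 x x.2⟩ : Fin k)) = c := by
        funext x
        unfold kext
        by_cases hx : x < n
        · rw [dif_pos hx]
        · rw [dif_neg hx, h2 x (not_lt.1 hx)]
      exact ⟨_, by rw [Set.mem_setOf_eq, hc]; exact h3, hc⟩
    · rintro ⟨f, hf, rfl⟩
      refine ⟨⟨fun x hx => ?_, fun x hx => ?_⟩, hf⟩
      · unfold kext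
        rw [dif_pos hx]
        exact (f ⟨x, hx⟩).2
      · unfold kext
        rw [dif_neg (not_lt.2 hx)]
  rw [this, Set.ncard_image_of_injective _ kext_inj]
  rfl

theorem s_ker : S_KER := by
  classical
  intro n Φ hΦ
  choose p hp using ker_aux1 n
  refine ⟨∑ r ∈ (Finset.univ : Finset (Fin n → Fin n → Prop)).filter
    (fun r => ∃ c : ℕ → ℕ, Φ c ∧ ∀ x y : Fin n, c x = c y ↔ r x y), p r, fun k => ?_⟩
  rw [num_eq_card, Polynomial.eval_finset_sum, Nat.card_eq_fintype_card,
    Fintype.card_subtype]
  rw [Finset.card_eq_sum_card_fiberwise (t := (Finset.univ : Finset (Fin n → Fin n → Prop)).filter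
    (fun r => ∃ c : ℕ → ℕ, Φ c ∧ ∀ x y : Fin n, c x = c y ↔ r x y))
    (f := fun f : Fin n → Fin k => fun x y => f x = f y)]
  · rw [Nat.cast_sum]
    refine Finset.sum_congr rfl fun r hr => ?_
    rw [hp r k, Nat.card_eq_fintype_card, Fintype.card_subtype]
    congr 2
    ext f
    simp only [Finset.mem_filter, Finset.mem_univ, true_and]
    obtain ⟨c, hc1, hc2⟩ := (Finset.mem_filter.1 hr).2
    constructor
    · intro h
      refine ⟨(hΦ c (kext f) ?_).1 hc1, ?_⟩
      · intro x y hx hy
        have h1 := hc2 ⟨x, hx⟩ ⟨y, hy⟩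
        have h2 := h ⟨x, hx⟩ ⟨y, hy⟩
        rw [← h2] at h1
        unfold kext
        rw [dif_pos hx, dif_pos hy]
        rw [← Fin.ext_iff]
        exact h1
      · funext x y
        exact propext (h x y)
    · rintro ⟨-, h⟩ x y
      rw [← h]
  · intro f hf
    simp only [Finset.coe_filter, Finset.mem_univ, true_and, Set.mem_setOf_eq] at hf ⊢
    refine ⟨kext f, hf, fun x y => ?_⟩
    rw [kext_lt, kext_lt, Fin.ext_iff]

end Pool.Agent.E9helper80.TD
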