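import Pool.Agent.E9helper80.TD.Stm2

/-!
# Project TD, piece KFO: the state of `K₄`
-/

namespace Pool.Agent.E9helper80.TD

open Polynomial

namespace KFO

/-- the relation of `K₄` without the edge `0 1` -/
def H : ℕ → ℕ → Prop := delE (fun x y => x < 4 ∧ y < 4 ∧ x ≠ y) 0 1

theorem proper_iff (c : ℕ → ℕ) : Proper H c ↔ c 0 ≠ c 2 ∧ c 0 ≠ c 3 ∧ c 1 ≠ c 2 ∧ c 1 ≠ c 3 ∧ c 2 ≠ c 3 := by
  constructor
  · intro h
    have h2 : ∀ x y, x < 4 → y < 4 → x ≠ y → ¬ (x = 0 ∧ y = 1) → ¬ (x = 1 ∧ y = 0) → c x ≠ c y :=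
      fun x y h1 h2 h3 h4 h5 => h x y ⟨⟨h1, h2, h3⟩, h4, h5⟩
    exact ⟨h2 0 2 (by omega) (by omega) (by omega) (by omega) (by omega),
      h2 0 3 (by omega) (by omega) (by omega) (by omega) (by omega),
      h2 1 2 (by omega) (by omega) (by omega) (by omega) (by omega),
      h2 1 3 (by omega) (by omega) (by omega) (by omega) (by omega),
      h2 2 3 (by omega) (by omega) (by omega) (by omega) (by omega)⟩
  · rintro ⟨h1, h2, h3, h4, h5⟩ x y ⟨⟨hx, hy, hne⟩, ha, hb⟩
    have hx' : x = 0 ∨ x = 1 ∨ x = 2 ∨ x = 3 := by omega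
    have hy' : y = 0 ∨ y = 1 ∨ y = 2 ∨ y = 3 := by omega
    rcases hx' with rfl | rfl | rfl | rfl <;> rcases hy' with rfl | rfl | rfl | rfl <;>
      first
        | exact absurd rfl hne
        | exact absurd ⟨rfl, rfl⟩ ha
        | exact absurd ⟨rfl, rfl⟩ hb
        | assumption
        | exact h1.symm
        | exact h2.symm
        | exact h3.symm
        | exact h4.symm
        | exact h5.symm

theorem num_zero {n k : ℕ} {Φ : (ℕ → ℕ) → Prop} (h : ∀ c, ¬ Φ c) : num n k Φ = 0 := by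
  unfold num
  have e : {c | c ∈ Fn n k ∧ Φ c} = ∅ := by
    ext c
    simp [h c]
  rw [e, Set.ncard_empty]

theorem num_range {n k m : ℕ} {Φ : (ℕ → ℕ) → Prop} (φ : (Fin m ↪ Fin k) → ℕ → ℕ)
    (hφ : Function.Injective φ) (h : ∀ c, (c ∈ Fn n k ∧ Φ c) ↔ ∃ e, φ e = c) :
    num n k Φ = k.descFactorial m := by
  unfold num
  have e : {c | c ∈ Fn n k ∧ Φ c} = φ '' Set.univ := by
    ext c
    rw [Set.mem_ofPred_eq, h c]
    simp
  rw [e, Set.ncard_image_of_injective _ hφ, Set.ncard_univ, Nat.card_eq_fintype_card,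
    Fintype.card_embedding_eq, Fintype.card_fin, Fintype.card_fin]

/-- the colouring with four colours -/
def f4 {k : ℕ} (e : Fin 4 ↪ Fin k) (x : ℕ) : ℕ := if h : x < 4 then (e ⟨x, h⟩ : ℕ) else 0

/-- the colouring with `c 0 = c 1` -/
def f3 {k : ℕ} (e : Fin 3 ↪ Fin k) (x : ℕ) : ℕ :=
  if x = 0 then (e 0 : ℕ) else if x = 1 then (e 0 : ℕ) else if x = 2 then (e 1 : ℕ) else
    if x = 3 then (e 2 : ℕ) else 0

theorem f4_inj {k : ℕ} : Function.Injective (f4 (k := k)) := by
  intro e e' h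
  ext x
  have := congrFun h x.1
  unfold f4 at this
  rw [dif_pos x.2, dif_pos x.2] at this
  exact this

theorem f3_inj {k : ℕ} : Function.Injective (f3 (k := k)) := by
  intro e e' h
  ext x
  have h0 := congrFun h 0
  have h2 := congrFun h 2
  have h3 := congrFun h 3
  simp only [f3] at h0 h2 h3
  norm_num at h0 h2 h3
  fin_cases x
  · exact h0
  · exact h2
  · exact h3

theorem cd (k : ℕ) : pD 4 k H 0 1 2 3 = k.descFactorial 4 := by
  refine num_range f4 f4_inj fun c => ⟨?_, ?_⟩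
  · rintro ⟨⟨h1, h2⟩, h3, h4, -⟩
    obtain ⟨a1, a2, a3, a4, a5⟩ := (proper_iff c).1 h3
    have hinj : Function.Injective fun x : Fin 4 => (⟨c x.1, h1 x.1 x.2⟩ : Fin k) := by
      intro x y hxy
      have hxy' : c x.1 = c y.1 := congrArg Fin.val hxy
      obtain ⟨x, hx⟩ := x
      obtain ⟨y, hy⟩ := y
      simp only at hxy'
      apply Fin.ext
      show x = y
      by_contra hne
      have hx' : x = 0 ∨ x = 1 ∨ x = 2 ∨ x = 3 := by omega
      have hy' : y = 0 ∨ y = 1 ∨ y = 2 ∨ y = 3 := by omega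
      rcases hx' with rfl | rfl | rfl | rfl <;> rcases hy' with rfl | rfl | rfl | rfl <;>
        first
          | exact hne rfl
          | exact h4 hxy'
          | exact h4 hxy'.symm
          | exact a1 hxy'
          | exact a1 hxy'.symm
          | exact a2 hxy'
          | exact a2 hxy'.symm
          | exact a3 hxy'
          | exact a3 hxy'.symm
          | exact a4 hxy'
          | exact a4 hxy'.symm
          | exact a5 hxy'
          | exact a5 hxy'.symm
    refine ⟨⟨_, hinj⟩, ?_⟩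
    funext x
    unfold f4
    by_cases hx : x < 4
    · rw [dif_pos hx]
      rfl
    · rw [dif_neg hx, h2 x (by omega)]
  · rintro ⟨e, rfl⟩
    have hv : ∀ x, ∀ h : x < 4, f4 e x = (e ⟨x, h⟩ : ℕ) := fun x h => by
      unfold f4
      rw [dif_pos h]
    have hne : ∀ x y, x < 4 → y < 4 → x ≠ y → f4 e x ≠ f4 e y := by
      intro x y hx hy hne he
      rw [hv x hx, hv y hy] at he
      exact hne (congrArg Fin.val (e.injective (Fin.ext he)))
    refine ⟨⟨fun x hx => ?_, fun x hx => ?_⟩, (proper_iff _).2 ?_, ?_, ?_⟩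
    · rw [hv x hx]
      exact (e ⟨x, hx⟩).2
    · unfold f4
      rw [dif_neg (by omega)]
    · exact ⟨hne _ _ (by omega) (by omega) (by omega), hne _ _ (by omega) (by omega) (by omega),
        hne _ _ (by omega) (by omega) (by omega), hne _ _ (by omega) (by omega) (by omega),
        hne _ _ (by omega) (by omega) (by omega)⟩
    · exact hne _ _ (by omega) (by omega) (by omega)
    · exact hne _ _ (by omega) (by omega) (by omega)

theorem cb (k : ℕ) : pB 4 k H 0 1 2 3 = k.descFactorial 3 := by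
  refine num_range f3 f3_inj fun c => ⟨?_, ?_⟩
  · rintro ⟨⟨h1, h2⟩, h3, h4, -⟩
    obtain ⟨a1, a2, a3, a4, a5⟩ := (proper_iff c).1 h3
    have hinj : Function.Injective ![(⟨c 0, h1 0 (by omega)⟩ : Fin k), ⟨c 2, h1 2 (by omega)⟩,
        ⟨c 3, h1 3 (by omega)⟩] := by
      intro x y hxy
      fin_cases x <;> fin_cases y <;> simp at hxy ⊢ <;>
        first
          | exact a1 hxy
          | exact a1 hxy.symm
          | exact a2 hxy
          | exact a2 hxy.symm
          | exact a5 hxy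
          | exact a5 hxy.symm
    refine ⟨⟨_, hinj⟩, ?_⟩
    funext x
    unfold f3
    by_cases x0 : x = 0
    · subst x0
      rfl
    · rw [if_neg x0]
      by_cases x1 : x = 1
      · subst x1
        rw [if_pos rfl]
        exact h4
      · rw [if_neg x1]
        by_cases x2 : x = 2
        · subst x2
          rfl
        · rw [if_neg x2]
          by_cases x3 : x = 3
          · subst x3
            rfl
          · rw [if_neg x3, h2 x (by omega)]
  · rintro ⟨e, rfl⟩
    have v0 : f3 e 0 = (e 0 : ℕ) := rfl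
    have v1 : f3 e 1 = (e 0 : ℕ) := rfl
    have v2 : f3 e 2 = (e 1 : ℕ) := rfl
    have v3 : f3 e 3 = (e 2 : ℕ) := rfl
    have hne : ∀ i j : Fin 3, i ≠ j → (e i : ℕ) ≠ (e j : ℕ) := fun i j hij he =>
      hij (e.injective (Fin.ext he))
    refine ⟨⟨fun x hx => ?_, fun x hx => ?_⟩, (proper_iff _).2 ?_, ?_, ?_⟩
    · have hx' : x = 0 ∨ x = 1 ∨ x = 2 ∨ x = 3 := by omega
      rcases hx' with rfl | rfl | rfl | rfl
      · exact (e 0).2
      · exact (e 0).2
      · exact (e 1).2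
      · exact (e 2).2
    · unfold f3
      rw [if_neg (by omega), if_neg (by omega), if_neg (by omega), if_neg (by omega)]
    · rw [v0, v1, v2, v3]
      exact ⟨hne _ _ (by decide), hne _ _ (by decide), hne _ _ (by decide), hne _ _ (by decide),
        hne _ _ (by decide)⟩
    · rw [v0, v1]
    · rw [v2, v3]
      exact hne _ _ (by decide)

end KFO

open KFO in
theorem s_kfo : S_KFO := by
  refine ⟨⟨Tri.base, by omega, by omega, by omega, by omega, by omega, by omega, ?_, ?_, ?_⟩, ⟨?_, ?_, ?_, ?_⟩⟩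
  · show ({0, 1, 2} : Finset ℕ) ⊆ Finset.range 4 ∧ ({0, 1, 2} : Finset ℕ).card = 3
    decide
  · show ({0, 1, 3} : Finset ℕ) ⊆ Finset.range 4 ∧ ({0, 1, 3} : Finset ℕ).card = 3
    decide
  · rintro f ⟨h1, h2⟩ h3 h4
    have key : ∀ f ∈ (Finset.range 4).powersetCard 3, 0 ∈ f → 1 ∈ f →
        f = {0, 1, 2} ∨ f = {0, 1, 3} := by decide
    exact key f (Finset.mem_powersetCard.2 ⟨h1, h2⟩) h3 h4
  · intro k hk
    have e : pA 4 k H 0 1 2 3 = 0 := num_zero fun c h => ((proper_iff c).1 h.1).2.2.2.2 h.2.2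
    show Polynomial.eval (k : ℝ) 0 = ((pA 4 k H 0 1 2 3 : ℕ) : ℝ)
    rw [e]
    simp
  · intro k hk
    obtain ⟨l, rfl⟩ : ∃ l, k = l + 4 := ⟨k - 4, by omega⟩
    show Polynomial.eval _ _ = ((pB 4 (l + 4) H 0 1 2 3 : ℕ) : ℝ)
    rw [cb]
    have e : (l + 4).descFactorial 3 = (l + 2) * ((l + 3) * (l + 4)) := by
      simp [Nat.descFactorial_succ]
    rw [e]
    simp only [eval_mul, eval_sub, eval_X, eval_one, eval_ofNat]
    push_cast
    ring
  · intro k hk
    have e : pC 4 k H 0 1 2 3 = 0 := num_zero fun c h => ((proper_iff c).1 h.1).2.2.2.2 h.2.2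
    show Polynomial.eval (k : ℝ) 0 = ((pC 4 k H 0 1 2 3 : ℕ) : ℝ)
    rw [e]
    simp
  · intro k hk
    obtain ⟨l, rfl⟩ : ∃ l, k = l + 4 := ⟨k - 4, by omega⟩
    show Polynomial.eval _ _ = ((pD 4 (l + 4) H 0 1 2 3 : ℕ) : ℝ)
    rw [cd]
    have e : (l + 4).descFactorial 4 = (l + 1) * ((l + 2) * ((l + 3) * (l + 4))) := by
      simp [Nat.descFactorial_succ]
    rw [e]
    simp only [eval_mul, eval_sub, eval_X, eval_one, eval_ofNat]
    push_cast
    ring

end Pool.Agent.E9helper80.TD
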