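import Pool.Agent.E9helper80.TD.Stm

set_option autoImplicit false

namespace Pool.Agent.E9helper80.TD

namespace MON

/-- `1 - Y` as a function of `x = q - 3` -/
noncomputable def p (x : ℝ) : ℝ := (1 + 2 * x - x ^ 2) / (x ^ 3 + 2 * x + 1)

theorem den_pos {x : ℝ} (h : 1 < x) : 0 < x ^ 3 + 2 * x + 1 := by positivity

theorem p_pos {x : ℝ} (h1 : 1 < x) (h2 : x < 2) : 0 < p x := by
  unfold p
  apply div_pos _ (den_pos h1)
  nlinarith

theorem p_lt {x : ℝ} (h1 : 1 < x) : p x < 1 := by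
  unfold p
  rw [div_lt_one (den_pos h1)]
  nlinarith [sq_nonneg x, mul_pos (by linarith : (0 : ℝ) < x) (by linarith : (0 : ℝ) < x),
    pow_pos (by linarith : (0 : ℝ) < x) 3]

theorem Y_eq {q : ℝ} (h : 4 < q) :
    (q - 2) * (q - 3) ^ 2 / (q ^ 3 - 9 * q ^ 2 + 29 * q - 32) = 1 - p (q - 3) := by
  have h1 : 0 < (q - 3) ^ 3 + 2 * (q - 3) + 1 := den_pos (by linarith)
  have h2 : q ^ 3 - 9 * q ^ 2 + 29 * q - 32 = (q - 3) ^ 3 + 2 * (q - 3) + 1 := by ring
  have h3 : (1 - p (q - 3)) * ((q - 3) ^ 3 + 2 * (q - 3) + 1) =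
      ((q - 3) ^ 3 + 2 * (q - 3) + 1) - (1 + 2 * (q - 3) - (q - 3) ^ 2) := by
    unfold p
    rw [sub_mul, div_mul_cancel₀ _ h1.ne', one_mul]
  rw [h2, div_eq_iff h1.ne', h3]
  ring

theorem E_eq {q : ℝ} (h : 4 < q) : (q - 2) / (q - 3) = 1 + 1 / (q - 3) := by
  have h1 : q - 3 ≠ 0 := by linarith
  field_simp
  ring

/-- `x p x` is decreasing -/
theorem xp {x y : ℝ} (hx : 1 < x) (hxy : x < y) : y * p y < x * p x := by
  have h1 := den_pos hx
  have h2 := den_pos (hx.trans hxy)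
  unfold p
  rw [← mul_div_assoc, ← mul_div_assoc, div_lt_div_iff₀ h2 h1]
  have h3 : x * (1 + 2 * x - x ^ 2) * (y ^ 3 + 2 * y + 1) - y * (1 + 2 * y - y ^ 2) * (x ^ 3 + 2 * x + 1) =
      (y - x) * (3 * (x * y) * (x + y) + 2 * (x * y) ^ 2 - 4 * (x * y) - 2 * (x + y) - 1 +
        (x ^ 2 + x * y + y ^ 2)) := by ring
  have h4 : 1 < x * y := by nlinarith
  have h5 : 0 < 3 * (x * y) * (x + y) + 2 * (x * y) ^ 2 - 4 * (x * y) - 2 * (x + y) - 1 +
        (x ^ 2 + x * y + y ^ 2) := by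
    nlinarith [mul_pos (by linarith : (0 : ℝ) < x * y - 1) (by linarith : (0 : ℝ) < x + y), sq_nonneg (x * y - 1)]
  have h6 := mul_pos (by linarith : 0 < y - x) h5
  linarith

theorem log_E {x y : ℝ} (hx : 1 < x) (hxy : x < y) :
    x * Real.log (1 + 1 / x) ≤ y * Real.log (1 + 1 / y) := by
  have hx0 : 0 < x := by linarith
  have hy0 : 0 < y := by linarith
  have h1 := one_add_mul_self_le_rpow_one_add (s := 1 / y) (p := y / x) (by
    have : 0 < 1 / y := by positivity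
    linarith) ((one_le_div hx0).2 hxy.le)
  have h2 : 1 + y / x * (1 / y) = 1 + 1 / x := by
    field_simp
  rw [h2] at h1
  have h3 := Real.log_le_log (by positivity) h1
  rw [Real.log_rpow (by positivity)] at h3
  have h4 := mul_le_mul_of_nonneg_left h3 hx0.le
  have h5 : x * (y / x * Real.log (1 + 1 / y)) = y * Real.log (1 + 1 / y) := by
    field_simp
  rwa [h5] at h4

theorem log_Y {s t : ℝ} (hs : 0 < s) (hst : s < t) (ht : t < 1) :
    t * (-Real.log (1 - s)) ≤ s * (-Real.log (1 - t)) := by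
  have h1 := one_add_mul_self_le_rpow_one_add (s := -s) (p := t / s) (by linarith) ((one_le_div hs).2 hst.le)
  have h2 : 1 + t / s * (-s) = 1 - t := by
    field_simp
    ring
  rw [h2] at h1
  have h3 := Real.log_le_log (by linarith) h1
  rw [Real.log_rpow (by linarith)] at h3
  have h4 := mul_le_mul_of_nonneg_left h3 hs.le
  have h5 : s * (t / s * Real.log (1 + -s)) = t * Real.log (1 - s) := by
    rw [← sub_eq_add_neg]
    field_simp
  rw [h5] at h4
  linarith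

end MON

theorem s_mon : S_MON := by
  intro a b ha hab hb Y E
  have hYa : Y a = 1 - MON.p (a - 3) := MON.Y_eq ha
  have hYb : Y b = 1 - MON.p (b - 3) := MON.Y_eq (ha.trans hab)
  have hEa : E a = 1 + 1 / (a - 3) := MON.E_eq ha
  have hEb : E b = 1 + 1 / (b - 3) := MON.E_eq (ha.trans hab)
  obtain ⟨x, hx⟩ : ∃ x, x = a - 3 := ⟨_, rfl⟩
  obtain ⟨y, hy⟩ : ∃ y, y = b - 3 := ⟨_, rfl⟩
  rw [hYa, hYb, hEa, hEb, ← hx, ← hy]
  have hx1 : 1 < x := by linarith
  have hxy : x < y := by linarith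
  have hy2 : y < 2 := by linarith
  have hpx := MON.p_pos hx1 (hxy.trans hy2)
  have hpy := MON.p_pos (hx1.trans hxy) hy2
  have hpx1 := MON.p_lt hx1
  have hpy1 := MON.p_lt (hx1.trans hxy)
  have hxp := MON.xp hx1 hxy
  have hpp : MON.p y < MON.p x := by
    by_contra h
    push_neg at h
    have h1 : x * MON.p x ≤ y * MON.p y := mul_le_mul hxy.le h hpx.le (by linarith)
    linarith
  have hx0 : 0 < x := by linarith
  have hy0 : 0 < y := by linarith
  have e1 : 0 < 1 / x := one_div_pos.2 hx0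
  have e2 : 0 < 1 / y := one_div_pos.2 hy0
  refine ⟨⟨by linarith, by linarith, by linarith, by linarith, by linarith, by linarith⟩, ?_⟩
  have h1 := MON.log_E hx1 hxy
  have h2 := MON.log_Y hpy hpp hpx1
  have hux : 0 < -Real.log (1 - MON.p x) := by
    have := Real.log_neg (by linarith : 0 < 1 - MON.p x) (by linarith)
    linarith
  have huy : 0 < -Real.log (1 - MON.p y) := by
    have := Real.log_neg (by linarith : 0 < 1 - MON.p y) (by linarith)
    linarith
  have hwx : 0 < Real.log (1 + 1 / x) := Real.log_pos (by linarith)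
  have hwy : 0 < Real.log (1 + 1 / y) := Real.log_pos (by linarith)
  obtain ⟨ux, hux'⟩ : ∃ u, u = -Real.log (1 - MON.p x) := ⟨_, rfl⟩
  obtain ⟨uy, huy'⟩ : ∃ u, u = -Real.log (1 - MON.p y) := ⟨_, rfl⟩
  obtain ⟨wx, hwx'⟩ : ∃ u, u = Real.log (1 + 1 / x) := ⟨_, rfl⟩
  obtain ⟨wy, hwy'⟩ : ∃ u, u = Real.log (1 + 1 / y) := ⟨_, rfl⟩
  obtain ⟨px, hpx'⟩ : ∃ u, u = MON.p x := ⟨_, rfl⟩
  obtain ⟨py, hpy'⟩ : ∃ u, u = MON.p y := ⟨_, rfl⟩
  rw [← hux'] at hux h2 ⊢
  rw [← huy'] at huy h2 ⊢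
  rw [← hwx'] at hwx h1 ⊢
  rw [← hwy'] at hwy h1 ⊢
  rw [← hpx'] at hpx h2 hxp
  rw [← hpy'] at hpy h2 hxp
  -- `y uy < x ux`
  have h3 : y * uy < x * ux := by
    have h4 : px * (y * uy) < px * (x * ux) := by
      calc px * (y * uy) = y * (px * uy) := by ring
        _ ≤ y * (py * ux) := mul_le_mul_of_nonneg_left h2 (by linarith)
        _ = (y * py) * ux := by ring
        _ < (x * px) * ux := mul_lt_mul_of_pos_right hxp hux
        _ = px * (x * ux) := by ring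
    exact lt_of_mul_lt_mul_left h4 hpx.le
  have h5 : (x * y) * (uy * wx) < (x * y) * (ux * wy) := by
    calc (x * y) * (uy * wx) = (y * uy) * (x * wx) := by ring
      _ < (x * ux) * (x * wx) := mul_lt_mul_of_pos_right h3 (mul_pos hx0 hwx)
      _ ≤ (x * ux) * (y * wy) := mul_le_mul_of_nonneg_left h1 (mul_pos hx0 hux).le
      _ = (x * y) * (ux * wy) := by ring
  exact lt_of_mul_lt_mul_left h5 (mul_pos hx0 hy0).le

end Pool.Agent.E9helper80.TD
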