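import Pool.Agent.E9helper80.TD.Stm3

/-!
# Project TD, part 3, piece NCO (helper67)
-/

namespace Pool.Agent.E9helper80.TD

namespace NCO

open Polynomial

theorem cont_LL : Continuous LL := by
  unfold LL
  fun_prop

theorem isOpen_UU : IsOpen UU := by
  have hL := cont_LL
  have o1 : IsOpen {z : ℂ | 5 / 2 < z.re} := isOpen_lt continuous_const Complex.continuous_re
  have o2 : IsOpen {z : ℂ | 1 < ‖z - 3‖} := isOpen_lt continuous_const (by fun_prop)
  have o3 : IsOpen {z : ℂ | ‖2 * (z - 3)‖ < ‖LL z‖} := isOpen_lt (by fun_prop) (by fun_prop)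
  have o4 : IsOpen {z : ℂ | ‖(z - 2) * (z - 3) ^ 2‖ < ‖LL z‖} :=
    isOpen_lt (by fun_prop) (by fun_prop)
  exact o1.inter (o2.inter (o3.inter o4))

theorem dlog {f : ℂ → ℂ} {f' z : ℂ} (h : HasDerivAt f f' z) (h0 : f z ≠ 0) :
    HasDerivAt (fun w => Complex.log (f w / f z)) (f' / f z) z := by
  have h1 := (h.div_const (f z)).clog (by
    rw [div_self h0]
    exact Complex.one_mem_slitPlane)
  rw [div_self h0, div_one] at h1
  exact h1

theorem rlog {a b : ℂ} (ha : a ≠ 0) (hb : b ≠ 0) :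
    (Complex.log (a / b)).re = Real.log ‖a‖ - Real.log ‖b‖ := by
  rw [Complex.log_re, norm_div, Real.log_div (norm_ne_zero_iff.2 ha) (norm_ne_zero_iff.2 hb)]

/-- a function with constant real part has derivative zero -/
theorem dzero {h : ℂ → ℂ} {D z : ℂ} (hd : HasDerivAt h D z)
    (hc : ∀ᶠ w in nhds z, (h w).re = 0) : D = 0 := by
  set v : ℂ := (starRingEnd ℂ) D with hv
  have h1 : HasDerivAt (fun t : ℂ => h (z + t * v)) (D * v) ((0 : ℝ) : ℂ) := by
    have h2 : HasDerivAt (fun t : ℂ => z + t * v) v ((0 : ℝ) : ℂ) := by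
      have h3 := ((hasDerivAt_id ((0 : ℝ) : ℂ)).mul_const v).const_add z
      rw [one_mul] at h3
      exact h3
    have h4 : HasDerivAt h D (z + ((0 : ℝ) : ℂ) * v) := by
      rw [Complex.ofReal_zero, zero_mul, add_zero]
      exact hd
    exact HasDerivAt.comp ((0 : ℝ) : ℂ) h4 h2
  have h5 := h1.real_of_complex
  have h6 : (fun x : ℝ => (h (z + (x : ℂ) * v)).re) =ᶠ[nhds 0] fun _ => 0 := by
    have h7 : Filter.Tendsto (fun x : ℝ => z + (x : ℂ) * v) (nhds 0) (nhds z) := by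
      have h8 : Continuous (fun x : ℝ => z + (x : ℂ) * v) := by fun_prop
      have h9 := h8.tendsto 0
      rw [Complex.ofReal_zero, zero_mul, add_zero] at h9
      exact h9
    exact h7.eventually hc
  have h9 := h5.unique ((hasDerivAt_const (0 : ℝ) (0 : ℝ)).congr_of_eventuallyEq h6)
  rw [hv, Complex.mul_conj, Complex.ofReal_re] at h9
  exact Complex.normSq_eq_zero.1 h9

theorem ne2 {z : ℂ} (hz : z ∈ UU) : z - 2 ≠ 0 := by
  intro h
  have h1 := hz.1
  rw [sub_eq_zero.1 h] at h1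
  norm_num at h1

theorem ne3 {z : ℂ} (hz : z ∈ UU) : z - 3 ≠ 0 := by
  intro h
  have h1 := hz.2.1
  rw [h, norm_zero] at h1
  norm_num at h1

theorem neL {z : ℂ} (hz : z ∈ UU) : LL z ≠ 0 := by
  intro h
  have h1 := hz.2.2.1
  rw [h, norm_zero] at h1
  exact absurd h1 (not_lt.2 (norm_nonneg _))

theorem expand {z : ℂ} (hz : z ∈ UU) {c : ℝ}
    (h : Real.log ‖(z - 2) / (z - 3)‖ = c * Real.log ‖LL z / ((z - 2) * (z - 3) ^ 2)‖) :
    Real.log ‖z - 2‖ - Real.log ‖z - 3‖ -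
      c * (Real.log ‖LL z‖ - Real.log ‖z - 2‖ - Real.log ‖z - 3‖ - Real.log ‖z - 3‖) = 0 := by
  have h2 := norm_ne_zero_iff.2 (ne2 hz)
  have h3 := norm_ne_zero_iff.2 (ne3 hz)
  have hL := norm_ne_zero_iff.2 (neL hz)
  rw [norm_div, norm_div, norm_mul, norm_pow, Real.log_div h2 h3,
    Real.log_div hL (mul_ne_zero h2 (pow_ne_zero 2 h3)), Real.log_mul h2 (pow_ne_zero 2 h3),
    Real.log_pow] at h
  push_cast at h
  rw [h]
  ring

theorem dLL (z : ℂ) : HasDerivAt LL (3 * z ^ 2 - 18 * z + 29) z := by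
  have h5 : HasDerivAt (fun z : ℂ => z ^ 3 - 9 * z ^ 2 + 29 * z - 32)
      (((3 : ℕ) : ℂ) * z ^ (3 - 1) - 9 * (((2 : ℕ) : ℂ) * z ^ (2 - 1)) + 29 * 1) z :=
    (((hasDerivAt_pow 3 z).sub ((hasDerivAt_pow 2 z).const_mul 9)).add
      ((hasDerivAt_id z).const_mul 29)).sub_const 32
  have e : (((3 : ℕ) : ℂ) * z ^ (3 - 1) - 9 * (((2 : ℕ) : ℂ) * z ^ (2 - 1)) + 29 * 1) =
      3 * z ^ 2 - 18 * z + 29 := by
    push_cast
    ring
  rw [e] at h5
  exact h5

theorem key {z₀ : ℂ} {ρ c : ℝ} (hU : ∀ z ∈ Metric.ball z₀ ρ, z ∈ UU)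
    (hE : ∀ z ∈ Metric.ball z₀ ρ, Real.log ‖(z - 2) / (z - 3)‖ =
      c * Real.log ‖LL z / ((z - 2) * (z - 3) ^ 2)‖) (z : ℂ) (hz : z ∈ Metric.ball z₀ ρ) :
    -(z ^ 3 - 9 * z ^ 2 + 29 * z - 32) - (c : ℂ) * (z ^ 3 - 13 * z ^ 2 + 46 * z - 50) = 0 := by
  have hzU := hU z hz
  have n2 := ne2 hzU
  have n3 := ne3 hzU
  have nL := neL hzU
  have d2 := dlog (f := fun w : ℂ => w - 2) ((hasDerivAt_id z).sub_const 2) n2
  have d3 := dlog (f := fun w : ℂ => w - 3) ((hasDerivAt_id z).sub_const 3) n3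
  have dL := dlog (f := LL) (dLL z) nL
  have hd := (d2.sub d3).sub ((((dL.sub d2).sub d3).sub d3).const_mul (c : ℂ))
  have h0 := dzero hd (by
    filter_upwards [Metric.isOpen_ball.mem_nhds hz] with w hw
    have hwU := hU w hw
    have e1 := expand hwU (hE w hw)
    have e2 := expand hzU (hE z hz)
    simp only [Pi.sub_apply, Complex.sub_re, Complex.re_ofReal_mul]
    rw [rlog (ne2 hwU) n2, rlog (ne3 hwU) n3, rlog (neL hwU) nL]
    linear_combination e1 - e2)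
  have h1 : (1 / (z - 2) - 1 / (z - 3) - (c : ℂ) * ((3 * z ^ 2 - 18 * z + 29) / LL z -
      1 / (z - 2) - 1 / (z - 3) - 1 / (z - 3))) = 0 := h0
  have h2 : -(z ^ 3 - 9 * z ^ 2 + 29 * z - 32) - (c : ℂ) * (z ^ 3 - 13 * z ^ 2 + 46 * z - 50) =
      (1 / (z - 2) - 1 / (z - 3) - (c : ℂ) * ((3 * z ^ 2 - 18 * z + 29) / LL z -
      1 / (z - 2) - 1 / (z - 3) - 1 / (z - 3))) * ((z - 2) * (z - 3) * LL z) := by
    have h3 : LL z = z ^ 3 - 9 * z ^ 2 + 29 * z - 32 := rfl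
    field_simp
    rw [h3]
    ring
  rw [h2, h1, zero_mul]

end NCO

open NCO Polynomial in
theorem s_nco : S_NCO := by
  intro z₀ hz₀ r hr c
  by_contra hcon
  have hcon' : ∀ z ∈ Metric.ball z₀ r, z ∈ UU →
      Real.log ‖(z - 2) / (z - 3)‖ = c * Real.log ‖LL z / ((z - 2) * (z - 3) ^ 2)‖ := by
    intro z hz hzU
    by_contra h
    exact hcon ⟨z, hz, hzU, h⟩
  obtain ⟨r1, hr1, hb⟩ := Metric.isOpen_iff.1 isOpen_UU z₀ hz₀
  have hρ : 0 < min r r1 := lt_min hr hr1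
  have hU : ∀ z ∈ Metric.ball z₀ (min r r1), z ∈ UU := fun z hz =>
    hb (Metric.ball_subset_ball (min_le_right _ _) hz)
  have hk := key hU fun z hz =>
    hcon' z (Metric.ball_subset_ball (min_le_left _ _) hz) (hU z hz)
  let P : ℂ[X] := -(X ^ 3 - C 9 * X ^ 2 + C 29 * X - C 32) -
    C (c : ℂ) * (X ^ 3 - C 13 * X ^ 2 + C 46 * X - C 50)
  have hev : ∀ z : ℂ, P.eval z = -(z ^ 3 - 9 * z ^ 2 + 29 * z - 32) -
      (c : ℂ) * (z ^ 3 - 13 * z ^ 2 + 46 * z - 50) := by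
    intro z
    simp [P]
  have hinf : (Metric.ball z₀ (min r r1)).Infinite :=
    infinite_of_mem_nhds z₀ (Metric.ball_mem_nhds z₀ hρ)
  have hP : P = 0 := Polynomial.eq_zero_of_infinite_isRoot P
    (hinf.mono fun z hz => by
      show P.eval z = 0
      rw [hev]
      exact hk z hz)
  have e4 := hev 4
  have e2 := hev 2
  rw [hP, Polynomial.eval_zero] at e4 e2
  have h : (14 : ℂ) = 0 := by linear_combination e4 - 5 * e2
  norm_num at h

end Pool.Agent.E9helper80.TD
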