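import Pool.Agent.E9helper80.TD.Stm

/-!
# Piece OPE (helper58): operation E on states
-/

set_option autoImplicit false

namespace Pool.Agent.E9helper80.TD

open Polynomial

theorem s_ope : S_OPE := by
  classical
  intro hinv n s t u w G F h
  obtain ⟨-, hG, hF⟩ := hinv n G F h.tri
  have m1 : s ∈ ({s, t, u} : Finset ℕ) := by simp
  have m2 : t ∈ ({s, t, u} : Finset ℕ) := by simp
  have m3 : u ∈ ({s, t, u} : Finset ℕ) := by simp
  have k1 : s ∈ ({s, t, w} : Finset ℕ) := by simp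
  have k2 : t ∈ ({s, t, w} : Finset ℕ) := by simp
  have k3 : w ∈ ({s, t, w} : Finset ℕ) := by simp
  have f1 := (hF _ h.fu).2
  have f2 := (hF _ h.fw).2
  have hs := (f1 s m1).1
  have ht := (f1 t m2).1
  have hu := (f1 u m3).1
  have hw := (f2 w k3).1
  have Gst := (f1 s m1).2 t m2 h.st
  have Gsu := (f1 s m1).2 u m3 h.su
  have Gtu := (f1 t m2).2 u m3 h.tu
  have Gsw := (f2 s k1).2 w k3 h.sw
  have Gtw := (f2 t k2).2 w k3 h.tw
  have e1 := h.st
  have e2 := h.su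
  have e3 := h.sw
  have e4 := h.tu
  have e5 := h.tw
  have e6 := h.uw
  refine ⟨⟨Tri.ins s t w h.tri h.st h.sw h.tw h.fw, h.st, h.su, hs.ne, h.tu, ht.ne, hu.ne, ?_, ?_,
    ?_⟩, ?_, ?_, ?_, Gst⟩
  · refine Or.inl ⟨h.fu, fun he => ?_⟩
    have h1 := m3
    rw [he] at h1
    simp only [Finset.mem_insert, Finset.mem_singleton] at h1
    rcases h1 with h1 | h1 | h1
    · exact e2 h1.symm
    · exact e4 h1.symm
    · exact e6 h1
  · exact Or.inr (Or.inl rfl)
  · rintro f (⟨hf, hne⟩ | rfl | rfl | rfl) hsf htf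
    · rcases h.only f hf hsf htf with h1 | h1
      · exact Or.inl h1
      · exact absurd h1 hne
    · exact Or.inr rfl
    · simp only [Finset.mem_insert, Finset.mem_singleton] at hsf
      rcases hsf with h1 | h1 | h1
      · exact absurd h1 e1
      · exact absurd h1 e3
      · exact absurd h1 hs.ne
    · simp only [Finset.mem_insert, Finset.mem_singleton] at htf
      rcases htf with h1 | h1 | h1
      · exact absurd h1.symm e1
      · exact absurd h1 e5
      · exact absurd h1 ht.ne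
  · rintro (h1 | ⟨h1, -⟩ | ⟨-, h1⟩)
    · exact absurd (hG u n h1).2.1 (lt_irrefl n)
    · exact absurd h1 hu.ne
    · rcases h1 with h1 | h1 | h1
      · exact e2 h1.symm
      · exact e4 h1.symm
      · exact e6 h1
  · funext x y
    apply propext
    unfold delE insG
    constructor
    · rintro ⟨h1 | h1 | h1, h2, h3⟩
      · exact Or.inl ⟨h1, h2, h3⟩
      · exact Or.inr (Or.inl h1)
      · exact Or.inr (Or.inr h1)
    · rintro (⟨h1, h2, h3⟩ | ⟨h1, h2⟩ | ⟨h1, h2⟩)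
      · exact ⟨Or.inl h1, h2, h3⟩
      · refine ⟨Or.inr (Or.inl ⟨h1, h2⟩), fun h3 => ?_, fun h3 => ?_⟩
        · exact hs.ne (h3.1.symm.trans h1)
        · exact ht.ne (h3.1.symm.trans h1)
      · refine ⟨Or.inr (Or.inr ⟨h1, h2⟩), fun h3 => ?_, fun h3 => ?_⟩
        · exact ht.ne (h3.2.symm.trans h1)
        · exact hs.ne (h3.2.symm.trans h1)
  · refine ⟨?_, ?_, ?_, hs, ht, hu, hw, h.st, h.uw, ?_, ?_, ?_, ?_⟩
    · intro x y hxy
      exact ⟨(hG x y hxy.1).1, (hG x y hxy.1).2.1⟩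
    · intro x y hxy
      exact ⟨(hG x y hxy.1).2.2.2, fun h1 => hxy.2.2 ⟨h1.2, h1.1⟩, fun h1 => hxy.2.1 ⟨h1.2, h1.1⟩⟩
    · intro x y hxy
      exact (hG x y hxy.1).2.2.1
    · exact ⟨Gsu, fun h1 => e4 h1.2.symm, fun h1 => e1 h1.1⟩
    · exact ⟨Gsw, fun h1 => e5 h1.2.symm, fun h1 => e1 h1.1⟩
    · exact ⟨Gtu, fun h1 => e1 h1.1.symm, fun h1 => e2 h1.2.symm⟩
    · exact ⟨Gtw, fun h1 => e1 h1.1.symm, fun h1 => e3 h1.2.symm⟩

end Pool.Agent.E9helper80.TD
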