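import Pool.Agent.E9helper80.TD.Stm

/-!
Project TD, piece OPX: operation X on states.
-/

namespace Pool.Agent.E9helper80.TD

namespace OPXx

theorem ne_of {f g : Finset ℕ} (x : ℕ) (h1 : x ∈ f) (h2 : x ∉ g) : f ≠ g := by
  rintro rfl
  exact h2 h1

theorem m3 {x a b c : ℕ} : x ∈ ({a, b, c} : Finset ℕ) ↔ x = a ∨ x = b ∨ x = c := by
  simp only [Finset.mem_insert, Finset.mem_singleton]

end OPXx

open OPXx

theorem s_opx : S_OPX := by
  intro hI n s t u w G F hS
  obtain ⟨h4, hG, hF⟩ := hI n G F hS.tri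
  have lt : ∀ f ∈ F, ∀ x ∈ f, x < n := fun f hf x hx => ((hF f hf).2 x hx).1
  have hs : s < n := lt _ hS.fu s (m3.2 (Or.inl rfl))
  have ht : t < n := lt _ hS.fu t (m3.2 (Or.inr (Or.inl rfl)))
  have hu : u < n := lt _ hS.fu u (m3.2 (Or.inr (Or.inr rfl)))
  have hw : w < n := lt _ hS.fw w (m3.2 (Or.inr (Or.inr rfl)))
  have h1 := hS.st
  have h2 := hS.su
  have h3 := hS.sw
  have h5 := hS.tu
  have h6 := hS.tw
  have h7 := hS.uw
  -- the three insertions
  have T1 : Tri (n + 1) (insG G n s t w) (insF F n s t w) :=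
    Tri.ins s t w hS.tri h1 h3 h6 hS.fw
  have T2 : Tri (n + 1 + 1) (insG (insG G n s t w) (n + 1) s w n)
      (insF (insF F n s t w) (n + 1) s w n) :=
    Tri.ins s w n T1 h3 (by omega) (by omega) (Or.inr (Or.inr (Or.inr rfl)))
  have f2 : ({t, w, n} : Finset ℕ) ∈ insF (insF F n s t w) (n + 1) s w n := by
    refine Or.inl ⟨Or.inr (Or.inr (Or.inl rfl)), ne_of t (m3.2 (Or.inl rfl)) ?_⟩
    rw [m3]; omega
  have T3 : Tri (n + 1 + 1 + 1) (insG (insG (insG G n s t w) (n + 1) s w n) (n + 1 + 1) t w n)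
      (insF (insF (insF F n s t w) (n + 1) s w n) (n + 1 + 1) t w n) :=
    Tri.ins t w n T2 h6 (by omega) (by omega) f2
  -- the flip
  have T4 : Tri (n + 3) (opG G n s t w) (opF F n s t w) := by
    refine Tri.flip w n (n + 1) (n + 2) T3 (by omega) (by omega) (by omega) (by omega) (by omega)
      (by omega) ?_ ?_ ?_ ?_
    · refine Or.inl ⟨Or.inr (Or.inr (Or.inl rfl)), ne_of (n + 1) (m3.2 (Or.inr (Or.inr rfl))) ?_⟩
      rw [m3]; omega
    · exact Or.inr (Or.inr (Or.inl rfl))
    · rintro f (⟨hf, hne⟩ | rfl | rfl | rfl) ha hb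
      · rcases hf with ⟨hf, hne'⟩ | rfl | rfl | rfl
        · rcases hf with ⟨hf, -⟩ | rfl | rfl | rfl
          · exact absurd (lt f hf n hb) (lt_irrefl n)
          · rw [m3] at ha; omega
          · exact absurd rfl hne
          · exact absurd rfl hne'
        · rw [m3] at hb; omega
        · exact Or.inl rfl
        · rw [m3] at ha; omega
      · rw [m3] at hb; omega
      · exact Or.inr rfl
      · rw [m3] at ha; omega
    · rintro (((h | h | h) | h | h) | h | h)
      · have := (hG _ _ h).1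
        omega
      all_goals omega
  refine ⟨⟨T4, h1, h2, by omega, h5, by omega, by omega, ?_, ?_, ?_⟩, ?_, ?_⟩
  · refine Or.inl ⟨Or.inl ⟨Or.inl ⟨Or.inl ⟨hS.fu, ?_⟩, ?_⟩, ?_⟩, ?_, ?_⟩
    · exact ne_of u (m3.2 (Or.inr (Or.inr rfl))) (by rw [m3]; omega)
    · exact ne_of t (m3.2 (Or.inr (Or.inl rfl))) (by rw [m3]; omega)
    · exact ne_of s (m3.2 (Or.inl rfl)) (by rw [m3]; omega)
    · exact ne_of s (m3.2 (Or.inl rfl)) (by rw [m3]; omega)
    · exact ne_of s (m3.2 (Or.inl rfl)) (by rw [m3]; omega)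
  · refine Or.inl ⟨Or.inl ⟨Or.inl ⟨Or.inr (Or.inl rfl), ?_⟩, ?_⟩, ?_, ?_⟩
    · exact ne_of t (m3.2 (Or.inr (Or.inl rfl))) (by rw [m3]; omega)
    · exact ne_of s (m3.2 (Or.inl rfl)) (by rw [m3]; omega)
    · exact ne_of s (m3.2 (Or.inl rfl)) (by rw [m3]; omega)
    · exact ne_of s (m3.2 (Or.inl rfl)) (by rw [m3]; omega)
  · rintro f (⟨hf, -, -⟩ | rfl | rfl) ha hb
    · rcases hf with ⟨hf, -⟩ | rfl | rfl | rfl
      · rcases hf with ⟨hf, -⟩ | rfl | rfl | rfl
        · rcases hf with ⟨hf, hne⟩ | rfl | rfl | rfl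
          · rcases hS.only f hf ha hb with h | h
            · exact Or.inl h
            · exact absurd h hne
          · exact Or.inr rfl
          · rw [m3] at ha; omega
          · rw [m3] at hb; omega
        · rw [m3] at hb; omega
        · rw [m3] at ha; omega
        · rw [m3] at hb; omega
      · rw [m3] at ha; omega
      · rw [m3] at ha; omega
      · rw [m3] at ha; omega
    · rw [m3] at ha; omega
    · rw [m3] at ha; omega
  · rintro (⟨((h | h | h) | h | h) | h | h, -, -⟩ | h | h)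
    · have := (hG _ _ h).2.1
      omega
    all_goals omega
  · funext x y
    by_cases e1 : x = s ∧ y = t
    · obtain ⟨rfl, rfl⟩ := e1
      apply propext
      constructor
      · rintro ⟨-, h, -⟩
        exact absurd ⟨rfl, rfl⟩ h
      · rintro (⟨((h | h | h) | h | h) | h | h, -, -⟩ | h | h)
        · exact absurd ⟨rfl, rfl⟩ h.2.1
        all_goals omega
    · by_cases e2 : x = t ∧ y = s
      · obtain ⟨rfl, rfl⟩ := e2
        apply propext
        constructor
        · rintro ⟨-, -, h⟩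
          exact absurd ⟨rfl, rfl⟩ h
        · rintro (⟨((h | h | h) | h | h) | h | h, -, -⟩ | h | h)
          · exact absurd ⟨rfl, rfl⟩ h.2.2
          all_goals omega
      · simp only [opG, flipG, insG, delE, e1, e2, not_false_eq_true, and_true]

end Pool.Agent.E9helper80.TD
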