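import Pool.Agent.E9helper80.TD.Stm

/-!
# Piece PAI: pairs of colours
-/

set_option autoImplicit false

namespace Pool.Agent.E9helper80.TD

theorem s_pai : S_PAI := by
  classical
  intro k s t P hP hs ht hsP htP
  set R : Finset ℕ := Finset.range k \ P with hR
  have hPsub : P ⊆ Finset.range k := fun x hx => Finset.mem_range.2 (hP x hx)
  have hRc : R.card + P.card = k := by
    rw [hR, Finset.card_sdiff_of_subset hPsub, Finset.card_range]
    have := Finset.card_le_card hPsub
    rw [Finset.card_range] at this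
    omega
  have hsR : s ∈ R := Finset.mem_sdiff.2 ⟨Finset.mem_range.2 hs, hsP⟩
  have htR : t ∈ R := Finset.mem_sdiff.2 ⟨Finset.mem_range.2 ht, htP⟩
  have hRcr : (k : ℝ) - P.card = R.card := by
    rw [← hRc]
    push_cast
    ring
  rw [hRcr]
  have hset : {v : ℕ × ℕ | v.1 < k ∧ v.2 < k ∧ v.1 ∉ P ∧ v.2 ∉ P ∧ v.1 ≠ s ∧ v.2 ≠ t ∧ v.1 ≠ v.2} =
      (((R.erase s ×ˢ R.erase t).filter fun v => v.1 ≠ v.2 : Finset (ℕ × ℕ)) : Set (ℕ × ℕ)) := by
    ext ⟨x, y⟩
    simp only [Set.mem_setOf_eq, Finset.coe_filter, Finset.mem_product, Finset.mem_erase, hR,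
      Finset.mem_sdiff, Finset.mem_range]
    tauto
  rw [hset, Set.ncard_coe_finset]
  -- the diagonal
  have hdiag : ((R.erase s ×ˢ R.erase t).filter fun v => ¬ v.1 ≠ v.2).card = ((R.erase s).erase t).card := by
    rw [← Finset.card_map ⟨fun x : ℕ => (x, x), fun x y h => congrArg Prod.fst h⟩]
    congr 1
    ext ⟨x, y⟩
    simp only [Finset.mem_filter, Finset.mem_product, Finset.mem_erase, Finset.mem_map, not_not]
    constructor
    · rintro ⟨⟨⟨h1, h2⟩, h3, h4⟩, rfl⟩
      exact ⟨x, ⟨h3, h1, h2⟩, rfl⟩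
    · rintro ⟨z, ⟨h3, h1, h2⟩, h⟩
      obtain ⟨rfl, rfl⟩ := Prod.mk.inj h
      exact ⟨⟨⟨h1, h2⟩, h3, h2⟩, rfl⟩
  have htot := Finset.card_filter_add_card_filter_not (s := R.erase s ×ˢ R.erase t) (fun v => v.1 ≠ v.2)
  rw [hdiag, Finset.card_product] at htot
  have h1 : (R.erase s).card + 1 = R.card := Finset.card_erase_add_one hsR
  have h2 : (R.erase t).card + 1 = R.card := Finset.card_erase_add_one htR
  have h1r : ((R.erase s).card : ℝ) = R.card - 1 := by
    rw [← h1]
    push_cast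
    ring
  have h2r : ((R.erase t).card : ℝ) = R.card - 1 := by
    rw [← h2]
    push_cast
    ring
  have htotr : ((((R.erase s ×ˢ R.erase t).filter fun v => v.1 ≠ v.2).card : ℕ) : ℝ) +
      (((R.erase s).erase t).card : ℝ) = ((R.card : ℝ) - 1) * ((R.card : ℝ) - 1) := by
    rw [← h1r]
    nth_rewrite 2 [h1r]
    rw [← h2r]
    exact_mod_cast htot
  by_cases hst : s = t
  · rw [if_pos hst]
    have h3 : (R.erase s).erase t = R.erase s := by
      rw [← hst]
      exact Finset.erase_eq_of_notMem (Finset.notMem_erase s R)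
    rw [h3, h1r] at htotr
    linarith
  · rw [if_neg hst]
    have h3 : ((R.erase s).erase t).card + 1 = (R.erase s).card :=
      Finset.card_erase_add_one (Finset.mem_erase.2 ⟨fun h => hst h.symm, htR⟩)
    have h3r : ((((R.erase s).erase t).card : ℕ) : ℝ) = R.card - 2 := by
      have : ((((R.erase s).erase t).card : ℕ) : ℝ) + 1 = ((R.erase s).card : ℝ) := by exact_mod_cast h3
      linarith
    rw [h3r] at htotr
    nlinarith

end Pool.Agent.E9helper80.TD
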