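import Pool.Agent.E9helper80.TD.Stm2
import Pool.Agent.E9helper80.TD.MON

/-!
# Project TD, part 2, piece PT
-/

set_option autoImplicit false

namespace Pool.Agent.E9helper80.TD

namespace PT

theorem p_pos {x : ℝ} (h1 : 1 < x) (h2 : x < 1 + √2) : 0 < MON.p x := by
  unfold MON.p
  apply div_pos _ (MON.den_pos h1)
  have h3 : √2 ^ 2 = 2 := Real.sq_sqrt (by norm_num)
  have h4 : 0 < √2 := Real.sqrt_pos.2 (by norm_num)
  have h5 : (x - 1) ^ 2 < √2 ^ 2 := by
    apply pow_lt_pow_left₀ (by linarith) (by linarith) (by norm_num)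
  nlinarith

theorem mon {a b : ℝ} (ha : 4 < a) (hab : a < b) (hb : b < 4 + √2) :
    let Y : ℝ → ℝ := fun q => (q - 2) * (q - 3) ^ 2 / (q ^ 3 - 9 * q ^ 2 + 29 * q - 32)
    let E : ℝ → ℝ := fun q => (q - 2) / (q - 3)
    (0 < Y a ∧ Y a < 1 ∧ 1 < E a ∧ 0 < Y b ∧ Y b < 1 ∧ 1 < E b) ∧
      -Real.log (Y b) * Real.log (E a) < -Real.log (Y a) * Real.log (E b) := by
  intro Y E
  have hYa : Y a = 1 - MON.p (a - 3) := MON.Y_eq ha
  have hYb : Y b = 1 - MON.p (b - 3) := MON.Y_eq (ha.trans hab)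
  have hEa : E a = 1 + 1 / (a - 3) := MON.E_eq ha
  have hEb : E b = 1 + 1 / (b - 3) := MON.E_eq (ha.trans hab)
  obtain ⟨x, hx⟩ : ∃ x, x = a - 3 := ⟨_, rfl⟩
  obtain ⟨y, hy⟩ : ∃ y, y = b - 3 := ⟨_, rfl⟩
  rw [hYa, hYb, hEa, hEb, ← hx, ← hy]
  have hx1 : 1 < x := by linarith
  have hxy : x < y := by linarith
  have hy2 : y < 1 + √2 := by linarith
  have hpx := p_pos hx1 (hxy.trans hy2)
  have hpy := p_pos (hx1.trans hxy) hy2
  have hpx1 := MON.p_lt hx1
  have hpy1 := MON.p_lt (hx1.trans hxy)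
  have hxp := MON.xp hx1 hxy
  have hpp : MON.p y < MON.p x := by
    by_contra h
    push Not at h
    have h1 : x * MON.p x ≤ y * MON.p y := mul_le_mul hxy.le h hpx.le (by linarith)
    linarith
  have hx0 : 0 < x := by linarith
  have hy0 : 0 < y := by linarith
  have e1 : 0 < 1 / x := one_div_pos.2 hx0
  have e2 : 0 < 1 / y := one_div_pos.2 hy0
  refine ⟨⟨by linarith, by linarith, by linarith, by linarith, by linarith, by linarith⟩, ?_⟩
  have h1 := MON.log_E hx1 hxy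
  have h2 := MON.log_Y hpy hpp hpx1
  have hux : 0 < -Real.log (1 - MON.p x) := by
    have := Real.log_neg (by linarith : 0 < 1 - MON.p x) (by linarith)
    linarith
  have huy : 0 < -Real.log (1 - MON.p y) := by
    have := Real.log_neg (by linarith : 0 < 1 - MON.p y) (by linarith)
    linarith
  have hwx : 0 < Real.log (1 + 1 / x) := Real.log_pos (by linarith)
  have hwy : 0 < Real.log (1 + 1 / y) := Real.log_pos (by linarith)
  obtain ⟨ux, hux'⟩ : ∃ u, u = -Real.log (1 - MON.p x) := ⟨_, rfl⟩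
  obtain ⟨uy, huy'⟩ : ∃ u, u = -Real.log (1 - MON.p y) := ⟨_, rfl⟩
  obtain ⟨wx, hwx'⟩ : ∃ u, u = Real.log (1 + 1 / x) := ⟨_, rfl⟩
  obtain ⟨wy, hwy'⟩ : ∃ u, u = Real.log (1 + 1 / y) := ⟨_, rfl⟩
  obtain ⟨px, hpx'⟩ : ∃ u, u = MON.p x := ⟨_, rfl⟩
  obtain ⟨py, hpy'⟩ : ∃ u, u = MON.p y := ⟨_, rfl⟩
  rw [← hux'] at hux h2 ⊢
  rw [← huy'] at huy h2 ⊢
  rw [← hwx'] at hwx h1 ⊢
  rw [← hwy'] at hwy h1 ⊢
  rw [← hpx'] at hpx h2 hxp
  rw [← hpy'] at hpy h2 hxp
  have h3 : y * uy < x * ux := by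
    have h4 : px * (y * uy) < px * (x * ux) := by
      calc px * (y * uy) = y * (px * uy) := by ring
        _ ≤ y * (py * ux) := mul_le_mul_of_nonneg_left h2 (by linarith)
        _ = (y * py) * ux := by ring
        _ < (x * px) * ux := mul_lt_mul_of_pos_right hxp hux
        _ = px * (x * ux) := by ring
    exact lt_of_mul_lt_mul_left h4 hpx.le
  have h5 : (x * y) * (uy * wx) < (x * y) * (ux * wy) := by
    calc (x * y) * (uy * wx) = (y * uy) * (x * wx) := by ring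
      _ < (x * ux) * (x * wx) := mul_lt_mul_of_pos_right h3 (mul_pos hx0 hwx)
      _ ≤ (x * ux) * (y * wy) := mul_le_mul_of_nonneg_left h1 (mul_pos hx0 hux).le
      _ = (x * y) * (ux * wy) := by ring
  exact lt_of_mul_lt_mul_left h5 (mul_pos hx0 hy0).le

end PT

theorem s_pt : S_PT := by
  intro a b ha hab hb
  obtain ⟨⟨hYa, hYa1, hEa, hYb, hYb1, hEb⟩, h⟩ := PT.mon ha hab hb
  simp only at hYa hYa1 hEa hYb hYb1 hEb h
  set Ya : ℝ := (a - 2) * (a - 3) ^ 2 / (a ^ 3 - 9 * a ^ 2 + 29 * a - 32) with hYa'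
  set Yb : ℝ := (b - 2) * (b - 3) ^ 2 / (b ^ 3 - 9 * b ^ 2 + 29 * b - 32) with hYb'
  set Ea : ℝ := (a - 2) / (a - 3) with hEa'
  set Eb : ℝ := (b - 2) / (b - 3) with hEb'
  have hea : 0 < Real.log Ea := Real.log_pos hEa
  have heb : 0 < Real.log Eb := Real.log_pos hEb
  have hya : Real.log Ya < 0 := Real.log_neg hYa hYa1
  have hyb : Real.log Yb < 0 := Real.log_neg hYb hYb1
  have h1 : -Real.log Yb / Real.log Eb < -Real.log Ya / Real.log Ea := by
    rw [div_lt_div_iff₀ heb hea]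
    exact h
  obtain ⟨r, hr1, hr2⟩ := exists_rat_btwn h1
  have hr0 : (0 : ℝ) < r := (div_pos (neg_pos.2 hyb) heb).trans hr1
  have hr0' : 0 < r := by exact_mod_cast hr0
  have hnum : 0 < r.num := Rat.num_pos.2 hr0'
  have hden : (0 : ℝ) < r.den := by exact_mod_cast r.den_pos
  obtain ⟨m₁, hm₁⟩ := Int.eq_ofNat_of_zero_le hnum.le
  have hr : (r : ℝ) = m₁ / r.den := by
    have h2 : (r : ℝ) = (r.num : ℝ) / (r.den : ℝ) := by exact_mod_cast (Rat.num_div_den r).symm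
    rw [h2, hm₁]
    rfl
  have hm1 : 1 ≤ m₁ := by omega
  have k1 : Ea ^ m₁ * Ya ^ r.den < 1 := by
    have h2 : m₁ * Real.log Ea < r.den * -Real.log Ya := by
      rw [hr, div_lt_div_iff₀ hden hea] at hr2
      linarith
    rw [← Real.log_neg_iff (mul_pos (pow_pos (by linarith) _) (pow_pos hYa _)),
      Real.log_mul (pow_pos (by linarith) _).ne' (pow_pos hYa _).ne', Real.log_pow, Real.log_pow]
    linarith
  have k2 : 1 < Eb ^ m₁ * Yb ^ r.den := by
    have h2 : r.den * -Real.log Yb < m₁ * Real.log Eb := by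
      rw [hr, div_lt_div_iff₀ heb hden] at hr1
      linarith
    rw [← Real.log_pos_iff (mul_pos (pow_pos (by linarith) _) (pow_pos hYb _)).le,
      Real.log_mul (pow_pos (by linarith) _).ne' (pow_pos hYb _).ne', Real.log_pow, Real.log_pow]
    linarith
  have hc : ContinuousOn (fun q : ℝ => ((q - 2) / (q - 3)) ^ m₁ *
      ((q - 2) * (q - 3) ^ 2 / (q ^ 3 - 9 * q ^ 2 + 29 * q - 32)) ^ r.den) (Set.Icc a b) := by
    apply ContinuousOn.mul
    · apply ContinuousOn.pow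
      apply ContinuousOn.div (by fun_prop) (by fun_prop)
      intro q hq
      have := hq.1
      intro h0
      linarith
    · apply ContinuousOn.pow
      apply ContinuousOn.div (by fun_prop) (by fun_prop)
      intro q hq h0
      have h4 : 1 < q - 3 := by linarith [hq.1]
      have h5 := MON.den_pos h4
      have h6 : q ^ 3 - 9 * q ^ 2 + 29 * q - 32 = (q - 3) ^ 3 + 2 * (q - 3) + 1 := by ring
      rw [h6] at h0
      linarith
  obtain ⟨q, hq, hq1⟩ := intermediate_value_Ioo hab.le hc ⟨k1, k2⟩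
  exact ⟨m₁, r.den, q, hm1, r.den_pos, hq.1, hq.2, hq1⟩

end Pool.Agent.E9helper80.TD
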