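import Pool.Agent.E9helper80.TD.Stm3

/-!
# Project TD, part 3, piece PTC
-/

set_option autoImplicit false

namespace Pool.Agent.E9helper80.TD

namespace PTC

open Filter Topology

theorem isOpen_UU : IsOpen UU := by
  have h1 : IsOpen {z : ℂ | 5 / 2 < z.re} := isOpen_lt continuous_const Complex.continuous_re
  have h2 : IsOpen {z : ℂ | 1 < ‖z - 3‖} := isOpen_lt continuous_const (by fun_prop)
  have h3 : IsOpen {z : ℂ | ‖2 * (z - 3)‖ < ‖LL z‖} :=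
    isOpen_lt (by fun_prop) (by unfold LL; fun_prop)
  have h4 : IsOpen {z : ℂ | ‖(z - 2) * (z - 3) ^ 2‖ < ‖LL z‖} :=
    isOpen_lt (by fun_prop) (by unfold LL; fun_prop)
  exact h1.inter (h2.inter (h3.inter h4))

theorem ne2 {z : ℂ} (h : z ∈ UU) : z - 2 ≠ 0 := by
  intro h0
  have h2 : z = 2 := sub_eq_zero.1 h0
  have h1 := h.1
  rw [h2] at h1
  norm_num at h1

theorem ne3 {z : ℂ} (h : z ∈ UU) : z - 3 ≠ 0 := by
  intro h0
  have h1 := h.2.1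
  rw [h0, norm_zero] at h1
  norm_num at h1

theorem neL {z : ℂ} (h : z ∈ UU) : LL z ≠ 0 := by
  intro h0
  have h1 := h.2.2.1
  rw [h0, norm_zero] at h1
  exact absurd h1 (not_lt.2 (norm_nonneg _))

theorem one_lt_E {z : ℂ} (h : z ∈ UU) : 1 < ‖(z - 2) / (z - 3)‖ := by
  rw [norm_div, one_lt_div (norm_pos_iff.2 (ne3 h))]
  have h1 := h.1
  have h2 : ‖z - 3‖ ^ 2 < ‖z - 2‖ ^ 2 := by
    rw [Complex.sq_norm, Complex.sq_norm, Complex.normSq_apply, Complex.normSq_apply]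
    simp only [Complex.sub_re, Complex.sub_im, Complex.re_ofNat, Complex.im_ofNat]
    nlinarith
  exact lt_of_pow_lt_pow_left₀ 2 (norm_nonneg _) h2

theorem one_lt_W {z : ℂ} (h : z ∈ UU) : 1 < ‖LL z / ((z - 2) * (z - 3) ^ 2)‖ := by
  rw [norm_div, one_lt_div (norm_pos_iff.2 (mul_ne_zero (ne2 h) (pow_ne_zero 2 (ne3 h))))]
  exact h.2.2.2

noncomputable def th (z : ℂ) : ℝ :=
  Real.log ‖(z - 2) / (z - 3)‖ / Real.log ‖LL z / ((z - 2) * (z - 3) ^ 2)‖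

theorem th_pos {z : ℂ} (h : z ∈ UU) : 0 < th z :=
  div_pos (Real.log_pos (one_lt_E h)) (Real.log_pos (one_lt_W h))

theorem th_cont : ContinuousOn th UU := by
  have hL : Continuous LL := by unfold LL; fun_prop
  refine ContinuousOn.div (ContinuousOn.log (ContinuousOn.norm
    (ContinuousOn.div (by fun_prop) (by fun_prop) fun z hz => ne3 hz)) fun z hz => ?_)
    (ContinuousOn.log (ContinuousOn.norm (ContinuousOn.div hL.continuousOn (by fun_prop)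
      fun z hz => mul_ne_zero (ne2 hz) (pow_ne_zero 2 (ne3 hz)))) fun z hz => ?_) fun z hz => ?_
  · exact (one_pos.trans (one_lt_E hz)).ne'
  · exact (one_pos.trans (one_lt_W hz)).ne'
  · exact (Real.log_pos (one_lt_W hz)).ne'

theorem log_RR {z : ℂ} (h : z ∈ UU) (m₁ m₂ : ℕ) : Real.log ‖RR m₁ m₂ z‖ =
    m₁ * Real.log ‖(z - 2) / (z - 3)‖ -
      m₂ * Real.log ‖LL z / ((z - 2) * (z - 3) ^ 2)‖ := by
  have h1 : RR m₁ m₂ z =
      ((z - 2) / (z - 3)) ^ m₁ * ((LL z / ((z - 2) * (z - 3) ^ 2))⁻¹) ^ m₂ := by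
    rw [inv_div]
    rfl
  have hE := one_pos.trans (one_lt_E h)
  have hW := one_pos.trans (one_lt_W h)
  rw [h1, norm_mul, norm_pow, norm_pow, norm_inv,
    Real.log_mul (pow_pos hE _).ne' (pow_pos (inv_pos.2 hW) _).ne', Real.log_pow, Real.log_pow,
    Real.log_inv]
  ring

theorem diff_RR (m₁ m₂ : ℕ) : DifferentiableOn ℂ (RR m₁ m₂) UU := by
  have hL : Differentiable ℂ LL := by unfold LL; fun_prop
  exact DifferentiableOn.mul
    (DifferentiableOn.pow (DifferentiableOn.div (by fun_prop) (by fun_prop)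
      fun z hz => ne3 hz) _)
    (DifferentiableOn.pow (DifferentiableOn.div (by fun_prop) hL.differentiableOn
      fun z hz => neL hz) _)

theorem RR_mul (j m₁ m₂ : ℕ) : RR (j * m₁) (j * m₂) = fun z => RR m₁ m₂ z ^ j := by
  funext z
  unfold RR
  rw [mul_comm j m₁, mul_comm j m₂, pow_mul, pow_mul, mul_pow]

theorem not_const (hN : S_NCO) {q₀ : ℂ} (hq : q₀ ∈ UU) {m₁ m₂ : ℕ} (hm : 1 ≤ m₁)
    (h1 : ‖RR m₁ m₂ q₀‖ = 1) : ¬ ∀ᶠ z in 𝓝 q₀, RR m₁ m₂ z = RR m₁ m₂ q₀ := by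
  intro h
  obtain ⟨s, hs, hs'⟩ := Metric.eventually_nhds_iff_ball.1 h
  obtain ⟨z, hz, hzU, hne⟩ := hN q₀ hq s hs ((m₂ : ℝ) / m₁)
  have h2 := log_RR hzU m₁ m₂
  rw [hs' z hz, h1, Real.log_one] at h2
  apply hne
  have hm' : (0 : ℝ) < m₁ := by exact_mod_cast hm
  rw [div_mul_eq_mul_div, eq_div_iff hm'.ne']
  linarith

theorem dense_root (x : ℂ) (hx : ‖x‖ = 1) (V : Set ℂ) (hV : V ∈ 𝓝 x) :
    ∃ (ω : ℂ) (j : ℕ), ω ∈ V ∧ ω ≠ x ∧ 1 ≤ j ∧ ω ^ j = 1 := by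
  obtain ⟨t, ht⟩ : ∃ t : ℝ, x = Complex.exp (2 * Real.pi * t * Complex.I) := by
    refine ⟨Complex.arg x / (2 * Real.pi), ?_⟩
    have h1 := Complex.norm_mul_exp_arg_mul_I x
    rw [hx, Complex.ofReal_one, one_mul] at h1
    have h2 : (2 * Real.pi * ((Complex.arg x / (2 * Real.pi) : ℝ) : ℂ) * Complex.I) =
        Complex.arg x * Complex.I := by
      have h3 : (Real.pi : ℂ) ≠ 0 := by exact_mod_cast Real.pi_ne_zero
      push_cast
      field_simp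
    rw [h2]
    exact h1.symm
  have hc : Continuous (fun s : ℝ => Complex.exp (2 * Real.pi * s * Complex.I)) := by fun_prop
  have hV' : (fun s : ℝ => Complex.exp (2 * Real.pi * s * Complex.I)) ⁻¹' V ∈ 𝓝 t :=
    hc.continuousAt.preimage_mem_nhds (by rw [← ht]; exact hV)
  obtain ⟨ε, hε, hb⟩ := Metric.mem_nhds_iff.1 hV'
  have hm : 0 < min ε 1 := lt_min hε one_pos
  obtain ⟨r, hr1, hr2⟩ := exists_rat_btwn (show t < t + min ε 1 by linarith)
  have hm1 := min_le_left ε (1 : ℝ)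
  have hm2 := min_le_right ε (1 : ℝ)
  refine ⟨Complex.exp (2 * Real.pi * ((r : ℝ) : ℂ) * Complex.I), r.den, ?_, ?_, r.den_pos, ?_⟩
  · have h1 : (r : ℝ) ∈ Metric.ball t ε := by
      rw [Metric.mem_ball, Real.dist_eq, abs_lt]
      constructor <;> linarith
    exact hb h1
  · intro h
    rw [ht, Complex.exp_eq_exp_iff_exists_int] at h
    obtain ⟨n, hn⟩ := h
    have h3 : (Real.pi : ℂ) ≠ 0 := by exact_mod_cast Real.pi_ne_zero
    have h4 : (2 * Real.pi * Complex.I) ≠ 0 := by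
      simp [Real.pi_ne_zero]
    have h5 : (2 * Real.pi * Complex.I) * (((r : ℝ) : ℂ) - t - n) = 0 := by
      linear_combination hn
    have h6 : (((r : ℝ) : ℂ) - t - n) = 0 := (mul_eq_zero.1 h5).resolve_left h4
    have h7 : (r : ℝ) - t - n = 0 := by exact_mod_cast h6
    have h8 : (0 : ℝ) < n := by linarith
    have h9 : (n : ℝ) < 1 := by linarith
    have h10 : 0 < n := by exact_mod_cast h8
    have h11 : n < 1 := by exact_mod_cast h9
    omega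
  · rw [← Complex.exp_nat_mul, Complex.exp_eq_one_iff]
    refine ⟨r.num, ?_⟩
    have h1 : (r : ℂ) * r.den = r.num := by exact_mod_cast Rat.mul_den_eq_num r
    push_cast
    linear_combination (2 * Real.pi * Complex.I) * h1

end PTC

open Filter Topology in
theorem s_ptc : S_PTC := by
  intro hN z₀ hz₀ ε hε
  obtain ⟨δ₀, hδ₀, hb₀⟩ := Metric.isOpen_iff.1 PTC.isOpen_UU z₀ hz₀
  obtain ⟨δ, hδ, hδε, hb⟩ : ∃ δ : ℝ, 0 < δ ∧ δ ≤ ε ∧ Metric.ball z₀ δ ⊆ UU :=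
    ⟨min δ₀ ε, lt_min hδ₀ hε, min_le_right _ _,
      (Metric.ball_subset_ball (min_le_left _ _)).trans hb₀⟩
  obtain ⟨z₁, hz₁, hz₁U, hne⟩ := hN z₀ hz₀ δ hδ (PTC.th z₀)
  have hne' : PTC.th z₁ ≠ PTC.th z₀ := by
    intro h
    apply hne
    rw [← h]
    exact (div_mul_cancel₀ _ (Real.log_pos (PTC.one_lt_W hz₁U)).ne').symm
  have hpre : IsPreconnected (Metric.ball z₀ δ) := (convex_ball z₀ δ).isPreconnected
  have hcon : ContinuousOn PTC.th (Metric.ball z₀ δ) := PTC.th_cont.mono hb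
  have hz₀b : z₀ ∈ Metric.ball z₀ δ := Metric.mem_ball_self hδ
  obtain ⟨r, q₀, hr0, hq₀, hq₀r⟩ : ∃ (r : ℚ) (q₀ : ℂ), 0 < r ∧ q₀ ∈ Metric.ball z₀ δ ∧
      PTC.th q₀ = r := by
    rcases lt_or_gt_of_ne hne' with h | h
    · obtain ⟨r, hr1, hr2⟩ := exists_rat_btwn h
      obtain ⟨q, hq, hqr⟩ := hpre.intermediate_value hz₁ hz₀b hcon ⟨hr1.le, hr2.le⟩
      exact ⟨r, q, by exact_mod_cast (PTC.th_pos hz₁U).trans hr1, hq, hqr⟩
    · obtain ⟨r, hr1, hr2⟩ := exists_rat_btwn h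
      obtain ⟨q, hq, hqr⟩ := hpre.intermediate_value hz₀b hz₁ hcon ⟨hr1.le, hr2.le⟩
      exact ⟨r, q, by exact_mod_cast (PTC.th_pos hz₀).trans hr1, hq, hqr⟩
  have hq₀U := hb hq₀
  have hnum : 0 < r.num := Rat.num_pos.2 hr0
  obtain ⟨m₂, hm₂⟩ := Int.eq_ofNat_of_zero_le hnum.le
  have hm2 : 1 ≤ m₂ := by omega
  obtain ⟨m₁, hm₁⟩ : ∃ m : ℕ, m = r.den := ⟨_, rfl⟩
  have hm1 : 1 ≤ m₁ := hm₁ ▸ r.den_pos
  have hr : (r : ℝ) = m₂ / m₁ := by
    have h2 : (r : ℝ) = (r.num : ℝ) / (r.den : ℝ) := by exact_mod_cast (Rat.num_div_den r).symm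
    rw [h2, hm₂, hm₁]
    rfl
  have hm1' : (0 : ℝ) < m₁ := by exact_mod_cast hm1
  have hnorm : ‖RR m₁ m₂ q₀‖ = 1 := by
    have h1 := PTC.log_RR hq₀U m₁ m₂
    have h2 : Real.log ‖(q₀ - 2) / (q₀ - 3)‖ =
        (m₂ / m₁ : ℝ) * Real.log ‖LL q₀ / ((q₀ - 2) * (q₀ - 3) ^ 2)‖ := by
      rw [← hr, ← hq₀r]
      exact (div_mul_cancel₀ _ (Real.log_pos (PTC.one_lt_W hq₀U)).ne').symm
    have h3 : Real.log ‖RR m₁ m₂ q₀‖ = 0 := by
      rw [h1, h2]
      field_simp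
      ring
    have h4 : 0 < ‖RR m₁ m₂ q₀‖ := by
      apply norm_pos_iff.2
      have hL := PTC.neL hq₀U
      have h3 := PTC.ne3 hq₀U
      have h2 := PTC.ne2 hq₀U
      unfold RR
      positivity
    exact Real.eq_one_of_pos_of_log_eq_zero h4 h3
  have hU : UU ∈ 𝓝 q₀ := PTC.isOpen_UU.mem_nhds hq₀U
  have han : AnalyticAt ℂ (RR m₁ m₂) q₀ := (PTC.diff_RR m₁ m₂).analyticAt hU
  have hnc := PTC.not_const hN hq₀U hm1 hnorm
  have hopen := han.eventually_constant_or_nhds_le_map_nhds.resolve_left hnc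
  have hder : ∀ᶠ z in 𝓝[≠] q₀, deriv (RR m₁ m₂) z ≠ 0 := by
    refine han.deriv.eventually_eq_zero_or_eventually_ne_zero.resolve_left fun h => hnc ?_
    obtain ⟨s, hs, hs'⟩ := Metric.eventually_nhds_iff_ball.1 (h.and hU)
    rw [Metric.eventually_nhds_iff_ball]
    refine ⟨s, hs, fun z hz => ?_⟩
    exact Metric.isOpen_ball.is_const_of_deriv_eq_zero (convex_ball q₀ s).isPreconnected
      ((PTC.diff_RR m₁ m₂).mono fun w hw => (hs' w hw).2) (fun w hw => (hs' w hw).1) hz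
      (Metric.mem_ball_self hs)
  have hV : {z : ℂ | z ∈ Metric.ball z₀ δ ∧ (z ≠ q₀ → deriv (RR m₁ m₂) z ≠ 0)} ∈ 𝓝 q₀ := by
    filter_upwards [Metric.isOpen_ball.mem_nhds hq₀, eventually_nhdsWithin_iff.1 hder] with z h1 h2
    exact ⟨h1, fun h => h2 h⟩
  obtain ⟨ω, j, hω, hωne, hj, hωj⟩ := PTC.dense_root _ hnorm _ (hopen (image_mem_map hV))
  obtain ⟨q, ⟨hqb, hqd⟩, hqω⟩ := hω
  have hqne : q ≠ q₀ := by
    rintro rfl
    exact hωne hqω.symm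
  have hqU := hb hqb
  refine ⟨j * m₁, j * m₂, q, Nat.mul_pos hj hm1, Nat.mul_pos hj hm2, ?_, hqU, ?_, ?_⟩
  · rw [← dist_eq_norm]
    exact (Metric.mem_ball.1 hqb).trans_le hδε
  · rw [PTC.RR_mul]
    simp only
    rw [hqω, hωj]
  · rw [PTC.RR_mul]
    have hd : DifferentiableAt ℂ (RR m₁ m₂) q :=
      (PTC.diff_RR m₁ m₂).differentiableAt (PTC.isOpen_UU.mem_nhds hqU)
    have h1 : HasDerivAt (fun z => RR m₁ m₂ z ^ j)
        (j * RR m₁ m₂ q ^ (j - 1) * deriv (RR m₁ m₂) q) q := hd.hasDerivAt.pow j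
    rw [h1.deriv]
    have hω0 : ω ≠ 0 := by
      rintro rfl
      rw [zero_pow (by omega)] at hωj
      exact zero_ne_one hωj
    refine mul_ne_zero (mul_ne_zero (by exact_mod_cast (by omega : j ≠ 0)) ?_) (hqd hqne)
    rw [hqω]
    exact pow_ne_zero _ hω0

end Pool.Agent.E9helper80.TD
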