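import Pool.Agent.E9helper80.TD.Stm3

set_option autoImplicit false

namespace Pool.Agent.E9helper80.TD

open Polynomial Filter Topology

namespace PTCx

theorem cLL : Continuous LL := by unfold LL; fun_prop

theorem isOpen_UU : IsOpen UU := by
  have hL : Continuous LL := cLL
  have e : UU = {z : ℂ | 5 / 2 < z.re} ∩ ({z : ℂ | 1 < ‖z - 3‖} ∩
      ({z : ℂ | ‖2 * (z - 3)‖ < ‖LL z‖} ∩ {z : ℂ | ‖(z - 2) * (z - 3) ^ 2‖ < ‖LL z‖})) := rfl
  rw [e]
  refine IsOpen.inter ?_ (IsOpen.inter ?_ (IsOpen.inter ?_ ?_))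
  · exact isOpen_lt continuous_const Complex.continuous_re
  · exact isOpen_lt continuous_const (by fun_prop)
  · exact isOpen_lt (by fun_prop) (by fun_prop)
  · exact isOpen_lt (by fun_prop) (by fun_prop)

theorem facts {z : ℂ} (h : z ∈ UU) : z - 3 ≠ 0 ∧ z - 2 ≠ 0 ∧ LL z ≠ 0 ∧
    1 < ‖(z - 2) / (z - 3)‖ ∧ 1 < ‖LL z / ((z - 2) * (z - 3) ^ 2)‖ := by
  obtain ⟨h1, h2, h3, h4⟩ := h
  have h30 : z - 3 ≠ 0 := by
    intro h0
    rw [h0, norm_zero] at h2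
    linarith
  have hlt : ‖z - 3‖ < ‖z - 2‖ := by
    apply lt_of_pow_lt_pow_left₀ 2 (norm_nonneg _)
    rw [Complex.sq_norm, Complex.sq_norm, Complex.normSq_apply, Complex.normSq_apply]
    simp only [Complex.sub_re, Complex.sub_im, Complex.re_ofNat, Complex.im_ofNat]
    nlinarith
  have h20 : z - 2 ≠ 0 := by
    intro h0
    rw [h0, norm_zero] at hlt
    linarith [norm_nonneg (z - 3)]
  have hL : LL z ≠ 0 := by
    intro h0
    rw [h0, norm_zero] at h4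
    linarith [norm_nonneg ((z - 2) * (z - 3) ^ 2)]
  refine ⟨h30, h20, hL, ?_, ?_⟩
  · rw [norm_div, one_lt_div (norm_pos_iff.2 h30)]
    exact hlt
  · rw [norm_div, one_lt_div (norm_pos_iff.2 (mul_ne_zero h20 (pow_ne_zero _ h30)))]
    exact h4

/-- the two logarithms -/
noncomputable def lE (z : ℂ) : ℝ := Real.log ‖(z - 2) / (z - 3)‖
noncomputable def lW (z : ℂ) : ℝ := Real.log ‖LL z / ((z - 2) * (z - 3) ^ 2)‖

theorem lE_pos {z : ℂ} (h : z ∈ UU) : 0 < lE z := Real.log_pos (facts h).2.2.2.1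
theorem lW_pos {z : ℂ} (h : z ∈ UU) : 0 < lW z := Real.log_pos (facts h).2.2.2.2

theorem cont_th : ContinuousOn (fun z => lE z / lW z) UU := by
  have hL : Continuous LL := cLL
  intro z hz
  obtain ⟨h1, h2, h3, h4, h5⟩ := facts hz
  apply ContinuousWithinAt.div
  · apply ContinuousAt.continuousWithinAt
    unfold lE
    apply ContinuousAt.log
    · apply ContinuousAt.norm
      apply ContinuousAt.div <;> first | fun_prop | exact h1
    · linarith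
  · apply ContinuousAt.continuousWithinAt
    unfold lW
    apply ContinuousAt.log
    · apply ContinuousAt.norm
      apply ContinuousAt.div
      · exact hL.continuousAt
      · fun_prop
      · exact mul_ne_zero h2 (pow_ne_zero _ h1)
    · linarith
  · exact (lW_pos hz).ne'

theorem logR {z : ℂ} (h : z ∈ UU) (m₁ m₂ : ℕ) :
    Real.log ‖RR m₁ m₂ z‖ = m₁ * lE z - m₂ * lW z := by
  obtain ⟨h1, h2, h3, h4, h5⟩ := facts h
  unfold RR lE lW
  rw [← inv_div (LL z), norm_mul, norm_pow, norm_pow, norm_inv, Real.log_mul, Real.log_pow,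
    Real.log_pow, Real.log_inv]
  · ring
  · exact pow_ne_zero _ (by linarith)
  · exact pow_ne_zero _ (inv_ne_zero (by linarith))

theorem anR {z : ℂ} (h : z ∈ UU) (m₁ m₂ : ℕ) : AnalyticAt ℂ (RR m₁ m₂) z := by
  obtain ⟨h1, h2, h3, h4, h5⟩ := facts h
  have hL : AnalyticAt ℂ LL z := by unfold LL; fun_prop
  unfold RR
  apply AnalyticAt.mul
  · apply AnalyticAt.pow
    apply AnalyticAt.div <;> first | fun_prop | exact h1
  · apply AnalyticAt.pow
    apply AnalyticAt.div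
    · fun_prop
    · exact hL
    · exact h3

/-- roots of unity near a point of the circle, different from it -/
theorem root {w : ℂ} (hw : ‖w‖ = 1) {S : Set ℂ} (hS : S ∈ 𝓝 w) :
    ∃ ω ∈ S, ω ≠ w ∧ ∃ j : ℕ, 1 ≤ j ∧ ω ^ j = 1 := by
  obtain ⟨s₀, hs₀⟩ : ∃ s₀ : ℝ, Complex.exp (2 * Real.pi * Complex.I * (s₀ : ℂ)) = w := by
    refine ⟨w.arg / (2 * Real.pi), ?_⟩
    have h1 := Complex.norm_mul_exp_arg_mul_I w
    rw [hw, Complex.ofReal_one, one_mul] at h1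
    refine Eq.trans ?_ h1
    congr 1
    push_cast
    have : (Real.pi : ℂ) ≠ 0 := by exact_mod_cast Real.pi_ne_zero
    field_simp
  have hc : ContinuousAt (fun s : ℝ => Complex.exp (2 * Real.pi * Complex.I * (s : ℂ))) s₀ := by
    fun_prop
  have h2 := hc.tendsto
  rw [hs₀] at h2
  have h3 := h2 hS
  obtain ⟨δ, hδ, h4⟩ := Metric.mem_nhds_iff.1 h3
  obtain ⟨s, hs1, hs2⟩ := exists_rat_btwn (show s₀ < s₀ + min δ (1 / 2) by
    have : 0 < min δ (1 / 2) := lt_min hδ (by norm_num)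
    linarith)
  refine ⟨Complex.exp (2 * Real.pi * Complex.I * ((s : ℝ) : ℂ)), ?_, ?_, s.den, s.den_pos, ?_⟩
  · apply h4
    rw [Metric.mem_ball, Real.dist_eq, abs_lt]
    have := min_le_left δ (1 / 2)
    constructor <;> linarith
  · rw [← hs₀]
    intro h5
    rw [Complex.exp_eq_exp_iff_exists_int] at h5
    obtain ⟨n, hn⟩ := h5
    have hpi : (2 * Real.pi * Complex.I : ℂ) ≠ 0 := Complex.two_pi_I_ne_zero
    have h6 : ((s : ℝ) : ℂ) = s₀ + n := by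
      apply mul_left_cancel₀ hpi
      rw [hn]
      ring
    have h7 : (s : ℝ) = s₀ + n := by exact_mod_cast h6
    have h8 := min_le_right δ (1 / 2)
    have h9 : (0 : ℝ) < n := by linarith
    have h10 : (n : ℝ) < 1 := by linarith
    have h11 : 0 < n := by exact_mod_cast h9
    have h12 : n < 1 := by exact_mod_cast h10
    omega
  · rw [← Complex.exp_nat_mul, Complex.exp_eq_one_iff]
    refine ⟨s.num, ?_⟩
    have h5 : ((s : ℝ) : ℂ) * (s.den : ℂ) = (s.num : ℂ) := by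
      have := Rat.mul_den_eq_num s
      exact_mod_cast congrArg (fun x : ℚ => (x : ℂ)) this
    rw [← h5]
    ring

end PTCx

open PTCx

theorem s_ptc98 : S_PTC := by
  intro hN z₀ hz₀ ε hε
  obtain ⟨ρ, hρ, hB⟩ := Metric.isOpen_iff.1 isOpen_UU z₀ hz₀
  obtain ⟨ρ', hρ'⟩ : ∃ ρ', ρ' = min ρ ε := ⟨_, rfl⟩
  have hρ'0 : 0 < ρ' := by rw [hρ']; exact lt_min hρ hε
  have hB' : Metric.ball z₀ ρ' ⊆ UU := fun z hz => hB (Metric.ball_subset_ball (by
    rw [hρ']; exact min_le_left _ _) hz)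
  obtain ⟨z₁, hz₁, hz₁U, hne⟩ := hN z₀ hz₀ ρ' hρ'0 (lE z₀ / lW z₀)
  have hθ : lE z₁ / lW z₁ ≠ lE z₀ / lW z₀ := by
    intro h
    apply hne
    rw [← h]
    have := (lW_pos hz₁U).ne'
    change lE z₁ = lE z₁ / lW z₁ * lW z₁
    field_simp
  -- rational value in between
  have hord := ((convex_ball z₀ ρ').isPreconnected.image _ (cont_th.mono hB')).ordConnected
  have hpos : ∀ z ∈ UU, 0 < lE z / lW z := fun z hz => div_pos (lE_pos hz) (lW_pos hz)
  obtain ⟨r, hr0, hr⟩ : ∃ r : ℚ, (0 : ℝ) < r ∧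
      (r : ℝ) ∈ (fun z => lE z / lW z) '' Metric.ball z₀ ρ' := by
    have m0 : lE z₀ / lW z₀ ∈ (fun z => lE z / lW z) '' Metric.ball z₀ ρ' :=
      ⟨z₀, Metric.mem_ball_self hρ'0, rfl⟩
    have m1 : lE z₁ / lW z₁ ∈ (fun z => lE z / lW z) '' Metric.ball z₀ ρ' := ⟨z₁, hz₁, rfl⟩
    rcases lt_or_gt_of_ne hθ with h | h
    · obtain ⟨r, h1, h2⟩ := exists_rat_btwn h
      exact ⟨r, (hpos z₁ hz₁U).trans h1, hord.out m1 m0 ⟨h1.le, h2.le⟩⟩
    · obtain ⟨r, h1, h2⟩ := exists_rat_btwn h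
      exact ⟨r, (hpos z₀ hz₀).trans h1, hord.out m0 m1 ⟨h1.le, h2.le⟩⟩
  obtain ⟨q₀, hq₀, hq₀r⟩ := hr
  have hq₀U := hB' hq₀
  have hr0' : 0 < r := by exact_mod_cast hr0
  obtain ⟨m₂, hm₂⟩ : ∃ m₂ : ℕ, r.num = m₂ := ⟨r.num.toNat, (Int.toNat_of_nonneg (by
    exact (Rat.num_pos.2 hr0').le)).symm⟩
  have hm₂0 : 1 ≤ m₂ := by
    have := Rat.num_pos.2 hr0'
    omega
  obtain ⟨m₁, hm₁⟩ : ∃ m₁ : ℕ, m₁ = r.den := ⟨_, rfl⟩
  have hm₁0 : 1 ≤ m₁ := by rw [hm₁]; exact r.den_pos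
  have hm₁R : (0 : ℝ) < m₁ := by exact_mod_cast hm₁0
  have hrm : (r : ℝ) = m₂ / m₁ := by
    rw [Rat.cast_def, hm₂, hm₁]
    push_cast
    rfl
  -- the norm one at q₀
  have key : ∀ z ∈ UU, (‖RR m₁ m₂ z‖ = 1 ↔ lE z = m₂ / m₁ * lW z) := by
    intro z hz
    have h1 := logR hz m₁ m₂
    have h2 : 0 < ‖RR m₁ m₂ z‖ := by
      rw [norm_pos_iff]
      obtain ⟨a1, a2, a3, a4, a5⟩ := facts hz
      unfold RR
      exact mul_ne_zero (pow_ne_zero _ (div_ne_zero a2 a1))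
        (pow_ne_zero _ (div_ne_zero (mul_ne_zero a2 (pow_ne_zero _ a1)) a3))
    constructor
    · intro h
      rw [h, Real.log_one] at h1
      field_simp
      linarith
    · intro h
      have h3 : Real.log ‖RR m₁ m₂ z‖ = 0 := by
        rw [h1, h]
        field_simp
        ring
      exact Real.eq_one_of_pos_of_log_eq_zero h2 h3
  have hR1 : ‖RR m₁ m₂ q₀‖ = 1 := by
    rw [key q₀ hq₀U, ← hrm, ← hq₀r]
    have := (lW_pos hq₀U).ne'
    field_simp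
  have hnc : ¬ ∀ᶠ z in 𝓝 q₀, RR m₁ m₂ z = RR m₁ m₂ q₀ := by
    intro h
    obtain ⟨δ, hδ, h1⟩ := Metric.eventually_nhds_iff_ball.1 h
    obtain ⟨z, hz, hzU, hzne⟩ := hN q₀ hq₀U δ hδ (m₂ / m₁)
    apply hzne
    have h2 : ‖RR m₁ m₂ z‖ = 1 := by rw [h1 z hz, hR1]
    exact (key z hzU).1 h2
  have hopen := ((anR hq₀U m₁ m₂).eventually_constant_or_nhds_le_map_nhds).resolve_left hnc
  have hder : ∀ᶠ z in 𝓝[≠] q₀, deriv (RR m₁ m₂) z ≠ 0 := by
    refine ((anR hq₀U m₁ m₂).deriv.eventually_eq_zero_or_eventually_ne_zero).resolve_left ?_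
    intro h
    apply hnc
    have hU := isOpen_UU.mem_nhds hq₀U
    obtain ⟨δ, hδ, h1⟩ := Metric.eventually_nhds_iff_ball.1 (h.and hU)
    filter_upwards [Metric.ball_mem_nhds q₀ hδ] with z hz
    exact Metric.isOpen_ball.is_const_of_deriv_eq_zero (convex_ball q₀ δ).isPreconnected
      (fun y hy => (anR (h1 y hy).2 m₁ m₂).differentiableAt.differentiableWithinAt)
      (fun y hy => (h1 y hy).1) hz (Metric.mem_ball_self hδ)
  -- the good neighbourhood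
  have hgood : ∀ᶠ z in 𝓝 q₀, z ∈ Metric.ball z₀ ρ' ∧ (z ≠ q₀ → deriv (RR m₁ m₂) z ≠ 0) :=
    (show ∀ᶠ z in 𝓝 q₀, z ∈ Metric.ball z₀ ρ' from Metric.isOpen_ball.mem_nhds hq₀).and
      (eventually_nhdsWithin_iff.1 hder)
  have him : (RR m₁ m₂) '' {z | z ∈ Metric.ball z₀ ρ' ∧ (z ≠ q₀ → deriv (RR m₁ m₂) z ≠ 0)} ∈
      𝓝 (RR m₁ m₂ q₀) := hopen (image_mem_map hgood)
  obtain ⟨ω, ⟨q, ⟨hqB, hqd⟩, hqω⟩, hωne, j, hj, hωj⟩ := root hR1 him
  have hqne : q ≠ q₀ := by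
    rintro rfl
    exact hωne hqω.symm
  have hqU := hB' hqB
  have hfun : RR (j * m₁) (j * m₂) = fun z => RR m₁ m₂ z ^ j := by
    funext z
    unfold RR
    rw [mul_pow, ← pow_mul, ← pow_mul, mul_comm j, mul_comm j]
  refine ⟨j * m₁, j * m₂, q, Nat.mul_pos hj hm₁0, Nat.mul_pos hj hm₂0, ?_, hqU, ?_, ?_⟩
  · rw [Metric.mem_ball, dist_eq_norm] at hqB
    exact lt_of_lt_of_le hqB (by rw [hρ']; exact min_le_right _ _)
  · rw [hfun]
    change RR m₁ m₂ q ^ j = 1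
    rw [hqω, hωj]
  · rw [hfun]
    have h1 := ((anR hqU m₁ m₂).differentiableAt.hasDerivAt.pow j).deriv
    have h2 : deriv (fun z => RR m₁ m₂ z ^ j) q = j * RR m₁ m₂ q ^ (j - 1) * deriv (RR m₁ m₂) q := h1
    rw [h2]
    have hω0 : ω ≠ 0 := by
      rintro rfl
      rw [zero_pow (by omega)] at hωj
      exact zero_ne_one hωj
    rw [hqω]
    exact mul_ne_zero (mul_ne_zero (by exact_mod_cast (by omega : j ≠ 0)) (pow_ne_zero _ hω0))
      (hqd hqne)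

end Pool.Agent.E9helper80.TD
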