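import Pool.Agent.E9helper80.TD.Stm2

/-!
# Piece ROOT (helper75): roots of `R^N = H + e_N` near a point `q` with `R(q) = 1`

With a local inverse `g` of `R` and `z = g (exp (ζ / N))` the equation is
`exp ζ = H (g (exp (ζ / N))) + e_N (g (exp (ζ / N)))`, a small perturbation of `exp ζ = H q`.
-/

namespace Pool.Agent.E9helper80.TD

namespace ROOT

open Filter Topology Metric

/-- a small perturbation of `exp ζ - exp ζ₀` has a zero near `ζ₀` -/
theorem perturb (ζ₀ : ℂ) (f : ℂ → ℂ) (hf : DifferentiableOn ℂ f (ball ζ₀ 1))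
    (hb : ∀ ζ ∈ ball ζ₀ 1, ‖f ζ‖ ≤ ‖Complex.exp ζ₀‖ / 24) :
    ∃ ζ ∈ ball ζ₀ 1, Complex.exp ζ = Complex.exp ζ₀ + f ζ := by
  set m : ℝ := ‖Complex.exp ζ₀‖ with hm
  have hm0 : 0 < m := norm_pos_iff.2 (Complex.exp_ne_zero _)
  set F : ℂ → ℂ := fun ζ => Complex.exp ζ - f ζ with hF
  have hFd : DifferentiableOn ℂ F (ball ζ₀ 1) := Complex.differentiable_exp.differentiableOn.sub hf
  have hsub : closedBall ζ₀ (1 / 2) ⊆ ball ζ₀ 1 := closedBall_subset_ball (by norm_num)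
  have h0 : ζ₀ ∈ ball ζ₀ 1 := mem_ball_self one_pos
  have hsph : ∀ ζ ∈ sphere ζ₀ (1 / 2), m / 6 ≤ ‖F ζ - F ζ₀‖ := by
    intro ζ hζ
    have hζ1 : ζ ∈ ball ζ₀ 1 := hsub (sphere_subset_closedBall hζ)
    have hn : ‖ζ - ζ₀‖ = 1 / 2 := by
      rw [mem_sphere, dist_eq_norm] at hζ
      exact hζ
    have h1 := Complex.norm_exp_sub_one_sub_id_le (x := ζ - ζ₀) (by rw [hn]; norm_num)
    rw [hn] at h1
    have h2 : 1 / 4 ≤ ‖Complex.exp (ζ - ζ₀) - 1‖ := by
      have h3 : ‖ζ - ζ₀‖ ≤ ‖Complex.exp (ζ - ζ₀) - 1‖ + ‖Complex.exp (ζ - ζ₀) - 1 - (ζ - ζ₀)‖ := by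
        calc ‖ζ - ζ₀‖ = ‖(Complex.exp (ζ - ζ₀) - 1) - (Complex.exp (ζ - ζ₀) - 1 - (ζ - ζ₀))‖ := by
              congr 1
              ring
          _ ≤ _ := norm_sub_le _ _
      rw [hn] at h3
      linarith
    have h4 : Complex.exp ζ - Complex.exp ζ₀ = Complex.exp ζ₀ * (Complex.exp (ζ - ζ₀) - 1) := by
      rw [mul_sub, mul_one, ← Complex.exp_add, add_sub_cancel]
    have h5 : m / 4 ≤ ‖Complex.exp ζ - Complex.exp ζ₀‖ := by
      rw [h4, norm_mul, ← hm]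
      nlinarith
    have h6 : ‖Complex.exp ζ - Complex.exp ζ₀‖ ≤ ‖F ζ - F ζ₀‖ + ‖f ζ‖ + ‖f ζ₀‖ := by
      calc ‖Complex.exp ζ - Complex.exp ζ₀‖ = ‖(F ζ - F ζ₀) + f ζ - f ζ₀‖ := by
            congr 1
            simp only [hF]
            ring
        _ ≤ ‖(F ζ - F ζ₀) + f ζ‖ + ‖f ζ₀‖ := norm_sub_le _ _
        _ ≤ _ := by
            have := norm_add_le (F ζ - F ζ₀) (f ζ)
            linarith
    have h7 := hb ζ hζ1
    have h8 := hb ζ₀ h0
    linarith
  have hdc : DiffContOnCl ℂ F (ball ζ₀ (1 / 2)) := by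
    refine DifferentiableOn.diffContOnCl (hFd.mono ?_)
    exact (closure_ball_subset_closedBall).trans hsub
  have hfreq : ∃ᶠ z in 𝓝 ζ₀, F z ≠ F ζ₀ := by
    intro hcon
    have hcon' : F =ᶠ[𝓝 ζ₀] fun _ => F ζ₀ := by
      filter_upwards [hcon] with z hz
      exact not_not.1 hz
    have hAn : AnalyticOnNhd ℂ F (ball ζ₀ 1) := hFd.analyticOnNhd isOpen_ball
    have heq := hAn.eqOn_of_preconnected_of_eventuallyEq analyticOnNhd_const
      (convex_ball ζ₀ 1).isPreconnected h0 hcon'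
    have hs : ζ₀ + 1 / 2 ∈ sphere ζ₀ (1 / 2 : ℝ) := by
      rw [mem_sphere, dist_eq_norm, add_sub_cancel_left]
      norm_num
    have h9 := hsph _ hs
    rw [heq (hsub (sphere_subset_closedBall hs)), sub_self, norm_zero] at h9
    linarith
  have hball := hdc.ball_subset_image_closedBall (by norm_num) hsph hfreq
  have hmem : Complex.exp ζ₀ ∈ ball (F ζ₀) (m / 6 / 2) := by
    rw [mem_ball, dist_eq_norm]
    have h10 : Complex.exp ζ₀ - F ζ₀ = f ζ₀ := by
      simp only [hF]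
      ring
    rw [h10]
    have h8 := hb ζ₀ h0
    linarith
  obtain ⟨ζ, hζ, hζF⟩ := hball hmem
  refine ⟨ζ, hsub hζ, ?_⟩
  rw [← hζF]
  simp only [hF]
  ring

end ROOT

open ROOT Filter Topology Metric in
theorem s_root : S_ROOT := by
  intro R H e q r₀ hr₀ hR hH he hRq hR' hHq hlim ε hε
  have hAn : AnalyticAt ℂ R q := (hR.analyticOnNhd isOpen_ball) q (mem_ball_self hr₀)
  obtain ⟨g, hg1, hg2, hg3⟩ : ∃ g : ℂ → ℂ, g 1 = q ∧ (∀ᶠ w in 𝓝 (1 : ℂ), DifferentiableAt ℂ g w) ∧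
      ∀ᶠ w in 𝓝 (1 : ℂ), R (g w) = w := by
    refine ⟨hAn.hasStrictDerivAt.localInverse _ _ _ hR', ?_, ?_, ?_⟩
    · rw [← hRq]
      exact HasStrictFDerivAt.localInverse_apply_image _
    · have h1 := hAn.analyticAt_localInverse hR'
      rw [hRq] at h1
      exact h1.eventually_analyticAt.mono fun w hw => hw.differentiableAt
    · have h1 := HasStrictDerivAt.eventually_right_inverse hAn.hasStrictDerivAt hR'
      rw [hRq] at h1
      exact h1
  have hgc : ContinuousAt g 1 := hg2.self_of_nhds.continuousAt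
  have hHc : ContinuousAt H q := (hH.differentiableAt (ball_mem_nhds q hr₀)).continuousAt
  have hm0 : 0 < ‖H q‖ := norm_pos_iff.2 hHq
  -- a neighbourhood of one
  have hev : ∀ᶠ w in 𝓝 (1 : ℂ), DifferentiableAt ℂ g w ∧ R (g w) = w ∧ g w ∈ ball q r₀ ∧
      ‖g w - q‖ < ε ∧ ‖H (g w) - H q‖ < ‖H q‖ / 48 := by
    have h1 : ∀ᶠ w in 𝓝 (1 : ℂ), g w ∈ ball q r₀ := by
      refine hgc.eventually_mem ?_
      rw [hg1]
      exact ball_mem_nhds q hr₀
    have h2 : ∀ᶠ w in 𝓝 (1 : ℂ), g w ∈ ball q ε := by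
      refine hgc.eventually_mem ?_
      rw [hg1]
      exact ball_mem_nhds q hε
    have hHg : ContinuousAt (fun w => H (g w)) 1 := by
      refine ContinuousAt.comp (f := g) (g := H) ?_ hgc
      rw [hg1]
      exact hHc
    have h3 : ∀ᶠ w in 𝓝 (1 : ℂ), H (g w) ∈ ball (H q) (‖H q‖ / 48) := by
      refine hHg.eventually_mem ?_
      rw [hg1]
      exact ball_mem_nhds _ (by positivity)
    filter_upwards [hg2, hg3, h1, h2, h3] with w a1 a2 a3 a4 a5
    rw [mem_ball, dist_eq_norm] at a4 a5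
    exact ⟨a1, a2, a3, a4, a5⟩
  obtain ⟨δ, hδ, hball⟩ := Metric.eventually_nhds_iff_ball.1 hev
  set ζ₀ : ℂ := Complex.log (H q) with hζ₀
  have hexp : Complex.exp ζ₀ = H q := Complex.exp_log hHq
  set K : ℝ := ‖ζ₀‖ + 1 with hK
  have hK0 : 0 < K := by positivity
  obtain ⟨N₀, hN₀⟩ := exists_nat_gt (max K (2 * K / δ))
  filter_upwards [hlim (‖H q‖ / 48) (by positivity), eventually_ge_atTop (N₀ + 1)] with N hN1 hN2
  have hNr : max K (2 * K / δ) < N := by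
    refine hN₀.trans_le ?_
    exact_mod_cast (by omega : N₀ ≤ N)
  have hNK : K < N := (le_max_left _ _).trans_lt hNr
  have hNδ : 2 * K / δ < N := (le_max_right _ _).trans_lt hNr
  have hN0 : (0 : ℝ) < N := hK0.trans hNK
  have hNne : (N : ℂ) ≠ 0 := by
    have : (N : ℝ) ≠ 0 := hN0.ne'
    exact_mod_cast this
  -- the points `exp (ζ / N)` are near one
  have hnear : ∀ ζ ∈ ball ζ₀ 1, Complex.exp (ζ / N) ∈ ball (1 : ℂ) δ := by
    intro ζ hζ
    rw [mem_ball, dist_eq_norm] at hζ ⊢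
    have h1 : ‖ζ‖ < K := by
      have : ‖ζ‖ ≤ ‖ζ - ζ₀‖ + ‖ζ₀‖ := by
        calc ‖ζ‖ = ‖(ζ - ζ₀) + ζ₀‖ := by rw [sub_add_cancel]
          _ ≤ _ := norm_add_le _ _
      linarith
    have h2 : ‖ζ / (N : ℂ)‖ = ‖ζ‖ / N := by
      rw [norm_div, Complex.norm_natCast]
    have h3 : ‖ζ / (N : ℂ)‖ ≤ 1 := by
      rw [h2, div_le_one hN0]
      linarith
    have h4 := Complex.norm_exp_sub_one_le h3
    refine h4.trans_lt ?_
    rw [h2]
    have h5 : 2 * K < N * δ := by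
      rw [div_lt_iff₀ hδ] at hNδ
      exact hNδ
    calc 2 * (‖ζ‖ / N) = (2 * ‖ζ‖) / N := by ring
      _ < δ := by
          rw [div_lt_iff₀ hN0]
          nlinarith
  obtain ⟨ζ, hζ, hζe⟩ := perturb ζ₀
    (fun ζ => (H (g (Complex.exp (ζ / N))) - H q) + e N (g (Complex.exp (ζ / N))))
    (by
      intro ζ hζ
      obtain ⟨a1, a2, a3, a4, a5⟩ := hball _ (hnear ζ hζ)
      have hinner : DifferentiableAt ℂ (fun ζ : ℂ => Complex.exp (ζ / N)) ζ :=
        ((differentiableAt_id).div_const _).cexp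
      have hgi : DifferentiableAt ℂ (fun ζ : ℂ => g (Complex.exp (ζ / N))) ζ :=
        DifferentiableAt.comp ζ (f := fun ζ : ℂ => Complex.exp (ζ / N)) (g := g) a1 hinner
      have hHd : DifferentiableAt ℂ H (g (Complex.exp (ζ / N))) :=
        hH.differentiableAt (isOpen_ball.mem_nhds a3)
      have hed : DifferentiableAt ℂ (e N) (g (Complex.exp (ζ / N))) :=
        (he N).differentiableAt (isOpen_ball.mem_nhds a3)
      exact ((DifferentiableAt.comp ζ (f := fun ζ : ℂ => g (Complex.exp (ζ / N))) (g := H)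
        hHd hgi).sub_const _ |>.add (DifferentiableAt.comp ζ
        (f := fun ζ : ℂ => g (Complex.exp (ζ / N))) (g := e N) hed hgi)).differentiableWithinAt)
    (by
      intro ζ hζ
      obtain ⟨a1, a2, a3, a4, a5⟩ := hball _ (hnear ζ hζ)
      have h1 := hN1 _ a3
      rw [hexp]
      refine (norm_add_le _ _).trans ?_
      linarith)
  obtain ⟨a1, a2, a3, a4, a5⟩ := hball _ (hnear ζ hζ)
  refine ⟨g (Complex.exp (ζ / N)), a4, a3, ?_⟩
  rw [a2, ← Complex.exp_nat_mul, mul_div_cancel₀ _ hNne, hζe, hexp]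
  ring

end Pool.Agent.E9helper80.TD
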