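import Pool.Agent.E9helper80.TD.Stm

/-!
# Piece SGN of project TD (helper67)
-/

set_option autoImplicit false

namespace Pool.Agent.E9helper80.TD

open Polynomial

namespace SGN

theorem isP_unique {N : ℕ → ℕ} {p p' : ℝ[X]} (h : IsP N p) (h' : IsP N p') : p = p' := by
  apply Polynomial.eq_of_infinite_eval_eq
  refine Set.Infinite.mono ?_ (Set.infinite_range_of_injective
    (f := fun k : ℕ => ((k + 4 : ℕ) : ℝ)) (fun a b hab => by
      have h1 : ((a + 4 : ℕ) : ℝ) = ((b + 4 : ℕ) : ℝ) := hab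
      have h2 := Nat.cast_injective h1
      omega))
  rintro x ⟨k, rfl⟩
  show p.eval ((k + 4 : ℕ) : ℝ) = p'.eval ((k + 4 : ℕ) : ℝ)
  rw [h (k + 4) (by omega), h' (k + 4) (by omega)]

theorem proper_iff {n : ℕ} {G : ℕ → ℕ → Prop} (hG : ∀ x y, G x y → x < n ∧ y < n) (c c' : ℕ → ℕ)
    (h : ∀ x y, x < n → y < n → (c x = c y ↔ c' x = c' y)) : Proper G c ↔ Proper G c' := by
  unfold Proper
  constructor
  · intro h1 x y hxy
    obtain ⟨hx, hy⟩ := hG x y hxy
    exact fun h2 => h1 x y hxy ((h x y hx hy).2 h2)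
  · intro h1 x y hxy
    obtain ⟨hx, hy⟩ := hG x y hxy
    exact fun h2 => h1 x y hxy ((h x y hx hy).1 h2)

theorem exP (hK : S_KER) {n : ℕ} {G : ℕ → ℕ → Prop} (hG : ∀ x y, G x y → x < n ∧ y < n) :
    ∃ p : ℝ[X], IsP (fun k => num n k (Proper G)) p := by
  obtain ⟨p, hp⟩ := hK n (Proper G) (fun c c' h => proper_iff hG c c' h)
  exact ⟨p, fun k _ => hp k⟩

theorem exQ (hK : S_KER) {n : ℕ} {H : ℕ → ℕ → Prop} (hH : ∀ x y, H x y → x < n ∧ y < n) {s t u w : ℕ}
    (hs : s < n) (ht : t < n) (hu : u < n) (hw : w < n) :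
    ∃ A B C D : ℝ[X], Quad n H s t u w A B C D := by
  obtain ⟨A, hA⟩ := hK n (fun c => Proper H c ∧ c s = c t ∧ c u = c w) (fun c c' h => by
    show (Proper H c ∧ c s = c t ∧ c u = c w) ↔ (Proper H c' ∧ c' s = c' t ∧ c' u = c' w)
    rw [proper_iff hH c c' h, h s t hs ht, h u w hu hw])
  obtain ⟨B, hB⟩ := hK n (fun c => Proper H c ∧ c s = c t ∧ c u ≠ c w) (fun c c' h => by
    show (Proper H c ∧ c s = c t ∧ ¬ c u = c w) ↔ (Proper H c' ∧ c' s = c' t ∧ ¬ c' u = c' w)
    rw [proper_iff hH c c' h, h s t hs ht, h u w hu hw])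
  obtain ⟨C, hC⟩ := hK n (fun c => Proper H c ∧ c s ≠ c t ∧ c u = c w) (fun c c' h => by
    show (Proper H c ∧ ¬ c s = c t ∧ c u = c w) ↔ (Proper H c' ∧ ¬ c' s = c' t ∧ c' u = c' w)
    rw [proper_iff hH c c' h, h s t hs ht, h u w hu hw])
  obtain ⟨D, hD⟩ := hK n (fun c => Proper H c ∧ c s ≠ c t ∧ c u ≠ c w) (fun c c' h => by
    show (Proper H c ∧ ¬ c s = c t ∧ ¬ c u = c w) ↔ (Proper H c' ∧ ¬ c' s = c' t ∧ ¬ c' u = c' w)
    rw [proper_iff hH c c' h, h s t hs ht, h u w hu hw])
  exact ⟨A, B, C, D, fun k _ => hA k, fun k _ => hB k, fun k _ => hC k, fun k _ => hD k⟩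

end SGN

theorem s_sgn : S_SGN := by
  intro hEXT hKER hINC hINV hFLP q hq n G F hT
  obtain ⟨hINC1, hINC2⟩ := hINC hEXT
  induction hT with
  | base =>
    intro p hp
    left
    have h1 : p = X * (X - C 1) * (X - C 2) * (X - C 3) := by
      refine SGN.isP_unique hp ?_
      intro k hk
      show _ = ((num 4 k (Proper (fun x y => x < 4 ∧ y < 4 ∧ x ≠ y)) : ℕ) : ℝ)
      rw [hINC2 k hk]
      simp
    rw [h1]
    simp only [eval_mul, eval_sub, eval_X, eval_C]
    have h2 : 0 < q := by linarith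
    have h3 : 0 < q - 1 := by linarith
    have h4 : 0 < q - 2 := by linarith
    have h5 : 0 < q - 3 := by linarith
    positivity
  | @ins n G F a b c h hab hac hbc hf ih =>
    intro p' hp'
    obtain ⟨hn, hlt, hface⟩ := hINV n G F h
    have hlt' : ∀ x y, G x y → x < n ∧ y < n := fun x y hxy => ⟨(hlt x y hxy).1, (hlt x y hxy).2.1⟩
    obtain ⟨p, hp⟩ := SGN.exP hKER hlt'
    have ha : a ∈ ({a, b, c} : Finset ℕ) := by simp
    have hb : b ∈ ({a, b, c} : Finset ℕ) := by simp
    have hc : c ∈ ({a, b, c} : Finset ℕ) := by simp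
    have hF := (hface _ hf).2
    have h1 : p' = (X - C 3) * p := by
      refine SGN.isP_unique hp' ?_
      intro k hk
      show _ = ((num (n + 1) k (Proper (insG G n a b c)) : ℕ) : ℝ)
      rw [hINC1 n k a b c G hk hlt' (hF a ha).1 (hF b hb).1 (hF c hc).1 ((hF a ha).2 b hb hab)
        ((hF a ha).2 c hc hac) ((hF b hb).2 c hc hbc)]
      rw [eval_mul, hp k hk]
      simp
    rcases ih p hp with h2 | h2
    · left
      rw [h1, eval_mul]
      simp only [eval_sub, eval_X, eval_C]
      exact mul_pos (by linarith) h2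
    · right
      exact h2
  | @flip n G F a b c d h hab hac had hbc hbd hcd hf hg honly hG ih =>
    intro p' hp'
    obtain ⟨hn, hlt, hface⟩ := hINV n G F h
    have hlt' : ∀ x y, G x y → x < n ∧ y < n := fun x y hxy => ⟨(hlt x y hxy).1, (hlt x y hxy).2.1⟩
    have hF := (hface _ hf).2
    have hF2 := (hface _ hg).2
    have han : a < n := (hF a (by simp)).1
    have hbn : b < n := (hF b (by simp)).1
    have hcn : c < n := (hF c (by simp)).1
    have hdn : d < n := (hF2 d (by simp)).1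
    have hSt : St n G F a b c d := ⟨h, hab, hac, had, hbc, hbd, hcd, hf, hg, honly⟩
    obtain ⟨hTf, hStf, hdel, hnum1, hnum2, hperm⟩ := hFLP hINV n a b c d G F hSt hG
    have hH : ∀ x y, delE G a b x y → x < n ∧ y < n := fun x y hxy => hlt' x y hxy.1
    obtain ⟨A, B, C', D, hQ⟩ := SGN.exQ hKER hH han hbn hcn hdn
    have hCD : IsP (fun k => num n k (Proper G)) (C' + D) := by
      intro k hk
      show _ = ((num n k (Proper G) : ℕ) : ℝ)
      rw [hnum1 k, eval_add, hQ.c k hk, hQ.d k hk]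
      push_cast
      rfl
    have hBD : IsP (fun k => num n k (Proper (flipG G a b c d))) (B + D) := by
      intro k hk
      show _ = ((num n k (Proper (flipG G a b c d)) : ℕ) : ℝ)
      rw [hnum2 k, eval_add, hQ.b k hk, hQ.d k hk]
      push_cast
      rfl
    have hp2 : p' = B + D := SGN.isP_unique hp' hBD
    rcases ih _ hCD with h2 | h2
    · rw [eval_add] at h2
      rcases lt_trichotomy 0 (B.eval q + D.eval q) with h3 | h3 | h3
      · left
        rw [hp2, eval_add]
        exact h3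
      · right
        left
        exact ⟨n, _, _, p', hTf, hp', by rw [hp2, eval_add, ← h3]⟩
      · right
        right
        by_cases h4 : 0 < A.eval q + C'.eval q
        · refine ⟨n, _, _, c, d, a, b, A, C', B, D, hStf, ?_, mul_neg_of_pos_of_neg h4 h3⟩
          rw [hdel]
          refine ⟨fun k hk => ?_, fun k hk => ?_, fun k hk => ?_, fun k hk => ?_⟩
          · show _ = ((pA n k (delE G a b) c d a b : ℕ) : ℝ)
            rw [(hperm k).1]
            exact hQ.a k hk
          · show _ = ((pB n k (delE G a b) c d a b : ℕ) : ℝ)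
            rw [(hperm k).2.1]
            exact hQ.c k hk
          · show _ = ((pC n k (delE G a b) c d a b : ℕ) : ℝ)
            rw [(hperm k).2.2.1]
            exact hQ.b k hk
          · show _ = ((pD n k (delE G a b) c d a b : ℕ) : ℝ)
            rw [(hperm k).2.2.2]
            exact hQ.d k hk
        · refine ⟨n, G, F, a, b, c, d, A, B, C', D, hSt, hQ, ?_⟩
          exact mul_neg_of_neg_of_pos (by linarith) h2
    · right
      exact h2

end Pool.Agent.E9helper80.TD
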