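import Pool.Agent.E9helper80.TD.Stm

/-!
# Project TD, piece SIG
-/

set_option autoImplicit false

namespace Pool.Agent.E9helper80.TD

open Filter Topology

theorem sig_key {P Q R : ℝ} (hQ : 0 < Q) (hP : |P| < Q) (hR : |R| < Q) {α : ℝ} (β γ : ℝ) (hα : 0 < α) :
    ∀ᶠ N : ℕ in atTop, 0 < α * Q ^ N + β * P ^ N + γ * R ^ N := by
  have h1 : ∀ {P : ℝ}, |P| < Q → Tendsto (fun N : ℕ => (P / Q) ^ N) atTop (𝓝 0) := by
    intro P hP
    refine tendsto_pow_atTop_nhds_zero_of_abs_lt_one ?_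
    rw [abs_div, abs_of_pos hQ, div_lt_one hQ]
    exact hP
  have h2 : Tendsto (fun N : ℕ => α + β * (P / Q) ^ N + γ * (R / Q) ^ N) atTop (𝓝 (α + β * 0 + γ * 0)) :=
    (tendsto_const_nhds.add ((h1 hP).const_mul β)).add ((h1 hR).const_mul γ)
  have h3 : (0 : ℝ) < α + β * 0 + γ * 0 := by linarith
  filter_upwards [h2.eventually (lt_mem_nhds h3)] with N hN
  have h4 : 0 < Q ^ N := pow_pos hQ N
  have h5 := mul_pos hN h4
  have h6 : (α + β * (P / Q) ^ N + γ * (R / Q) ^ N) * Q ^ N = α * Q ^ N + β * P ^ N + γ * R ^ N := by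
    have h7 : Q ^ N ≠ 0 := h4.ne'
    rw [div_pow, div_pow]
    field_simp
  rwa [h6] at h5

theorem sig_small {x u v : ℝ} {m₁ m₂ : ℕ} (hx : 0 ≤ x) (hu : 1 ≤ u) (hv : x < v) (hm : 1 ≤ m₂) :
    |(-1) ^ m₁ * x ^ m₂| < u ^ m₁ * v ^ m₂ := by
  rw [abs_mul, abs_pow, abs_neg, abs_one, one_pow, one_mul, abs_of_nonneg (pow_nonneg hx _)]
  have h1 : x ^ m₂ < v ^ m₂ := pow_lt_pow_left₀ hv hx (by omega)
  have h2 : 1 ≤ u ^ m₁ := one_le_pow₀ hu
  have h3 : 0 ≤ v ^ m₂ := pow_nonneg (hx.trans hv.le) _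
  nlinarith

theorem s_sig : S_SIG := by
  intro q f g z z' m₁ m₂ hq hq5 hm₁ hm₂
  simp only
  set Λ : ℝ := (q - 2) ^ m₁ * ((q - 2) * (q - 3) ^ 2) ^ m₂ with hΛ
  set Λ' : ℝ := (q - 3) ^ m₁ * (q ^ 3 - 9 * q ^ 2 + 29 * q - 32) ^ m₂ with hΛ'
  set κ : ℝ := (-1) ^ m₁ * (2 * (q - 3)) ^ m₂ with hκ
  have e1 : 2 * (q - 3) < (q - 2) * (q - 3) ^ 2 := by
    have h : (q - 2) * (q - 3) ^ 2 - 2 * (q - 3) = (q - 3) * (q - 1) * (q - 4) := by ring
    have h' : 0 < (q - 3) * (q - 1) * (q - 4) :=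
      mul_pos (mul_pos (by linarith) (by linarith)) (by linarith)
    linarith
  have e2 : 2 * (q - 3) < q ^ 3 - 9 * q ^ 2 + 29 * q - 32 := by
    have h : q ^ 3 - 9 * q ^ 2 + 29 * q - 32 - 2 * (q - 3) = (q - 3) ^ 3 + 1 := by ring
    have h' : 0 < (q - 3) ^ 3 := pow_pos (by linarith) 3
    linarith
  have e3 : 0 ≤ 2 * (q - 3) := by linarith
  have e4 : 1 ≤ q - 2 := by linarith
  have e5 : 1 ≤ q - 3 := by linarith
  have h1 : |κ| < Λ := sig_small e3 e4 e1 hm₂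
  have h2 : |κ| < Λ' := sig_small e3 e5 e2 hm₂
  have hΛ0 : 0 < Λ := (abs_nonneg κ).trans_lt h1
  have hΛ'0 : 0 < Λ' := (abs_nonneg κ).trans_lt h2
  have hq1 : q - 1 ≠ 0 := by linarith
  have hq2 : q - 2 ≠ 0 := by linarith
  constructor
  · intro hlt hg
    have hα : 0 < (q - 3) * (g * g) / (q - 2) :=
      div_pos (mul_pos (by linarith) (mul_self_pos.2 hg)) (by linarith)
    filter_upwards [sig_key (P := Λ) (Q := Λ') (R := κ) hΛ'0 (by rwa [abs_of_pos hΛ0]) h2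
      ((q - 2) * f * g / (q - 1)) (-(z * g) / (q - 1) - z' * g / (q - 2)) hα] with N hN
    have h3 : g * (((q - 2) * f * Λ ^ N - z * κ ^ N) / (q - 1) + ((q - 3) * g * Λ' ^ N - z' * κ ^ N) / (q - 2)) =
        (q - 3) * (g * g) / (q - 2) * Λ' ^ N + (q - 2) * f * g / (q - 1) * Λ ^ N +
          (-(z * g) / (q - 1) - z' * g / (q - 2)) * κ ^ N := by
      field_simp
      ring
    rw [h3]
    exact hN
  · intro hlt hf
    have hα : 0 < (q - 2) * (f * f) / (q - 1) :=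
      div_pos (mul_pos (by linarith) (mul_self_pos.2 hf)) (by linarith)
    filter_upwards [sig_key (P := Λ') (Q := Λ) (R := κ) hΛ0 (by rwa [abs_of_pos hΛ'0]) h1
      ((q - 3) * g * f / (q - 2)) (-(z * f) / (q - 1) - z' * f / (q - 2)) hα] with N hN
    have h3 : f * (((q - 2) * f * Λ ^ N - z * κ ^ N) / (q - 1) + ((q - 3) * g * Λ' ^ N - z' * κ ^ N) / (q - 2)) =
        (q - 2) * (f * f) / (q - 1) * Λ ^ N + (q - 3) * g * f / (q - 2) * Λ' ^ N +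
          (-(z * f) / (q - 1) - z' * f / (q - 2)) * κ ^ N := by
      field_simp
      ring
    rw [h3]
    exact hN

end Pool.Agent.E9helper80.TD
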