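import Pool.Agent.E9helper80.TD.Defs

/-!
# A zero-one law for the Birkhoff-Lewis conjecture on planar triangulations: the pieces

Theorem: if `P(T, q₀) < 0` for some planar triangulation `T` and some `4 < q₀ < 5`, then every
neighbourhood of `q₀` contains a zero of the chromatic polynomial of a planar triangulation.

Idea. At an edge `s t` of a triangulation with the faces `s t u`, `s t w` let `H = G - st` and let
`A, B, C, D` count the colourings of `H` with (s = t, u = w), (s = t, u ≠ w), (s ≠ t, u = w),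
(s ≠ t, u ≠ w).  Operation E (insert a vertex `x` in the face `s t w`, new `w := x`) multiplies
`A + B` by `q - 2`, `C + D` by `q - 3`, and `(q-2)A - B`, `(q-3)C - D` by `-1`.  Operation X (`opG`)
multiplies them by `(q-2)(q-3)^2`, `q^3-9q^2+29q-32`, `2(q-3)`, `2(q-3)`.  After flipping the edge
`s t` one has a triangulation with polynomial `B + D`.  If `(A+B)(C+D) < 0` at `q₀` then a suitable
number of operations E and X gives opposite signs at two points near `q₀`.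

Each piece `S_XXX` is to be proved in the file `Pool/Agent/E9helper80/TD/XXX.lean` as
`theorem s_xxx : S_XXX` (namespace `Pool.Agent.E9helper80.TD`), used pieces as hypotheses.
-/

namespace Pool.Agent.E9helper80.TD

open Polynomial

/-! ## Counting -/

/-- **EXT** (80 lines). One new vertex. Proof. The set on the left is the disjoint union over
`c ∈ Fn n k` of the sets `{Function.update c n v | v < k, Φ (update c n v)}` (the map
`c' ↦ Function.update c' n 0` is the projection), whose sizes are given by the hypotheses.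
(`Fn n k` is finite: it injects into `Fin n → Fin k`; e.g. use `Set.Finite.of_injOn` or induction.)
Suggested: first `num (n + 1) k Φ = ∑ c ∈ (finite set Fn n k).toFinset, ncard {v | v < k ∧ Φ (update c n v)}`,
by `Set.ncard`/`Finset.card_eq_sum_card_fiberwise`. -/
def S_EXT : Prop := ∀ (n k m₁ m₂ : ℕ) (Φ Ψ₁ Ψ₂ : (ℕ → ℕ) → Prop),
  (∀ c ∈ Fn n k, Ψ₁ c → ¬ Ψ₂ c) →
  (∀ c ∈ Fn n k, Ψ₁ c → Set.ncard {v | v < k ∧ Φ (Function.update c n v)} = m₁) →
  (∀ c ∈ Fn n k, Ψ₂ c → Set.ncard {v | v < k ∧ Φ (Function.update c n v)} = m₂) →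
  (∀ c ∈ Fn n k, ¬ Ψ₁ c → ¬ Ψ₂ c → Set.ncard {v | v < k ∧ Φ (Function.update c n v)} = 0) →
  num (n + 1) k Φ = m₁ * num n k Ψ₁ + m₂ * num n k Ψ₂

/-- **EXT3** (100 lines). Three new vertices; the same proof with triples
`v = (v₀, v₁, v₂)` and `update (update (update c n v₀) (n + 1) v₁) (n + 2) v₂`. -/
def S_EXT3 : Prop := ∀ (n k m₁ m₂ : ℕ) (Φ Ψ₁ Ψ₂ : (ℕ → ℕ) → Prop),
  let T : (ℕ → ℕ) → Set (ℕ × ℕ × ℕ) := fun c => {v | v.1 < k ∧ v.2.1 < k ∧ v.2.2 < k ∧
    Φ (Function.update (Function.update (Function.update c n v.1) (n + 1) v.2.1) (n + 2) v.2.2)}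
  (∀ c ∈ Fn n k, Ψ₁ c → ¬ Ψ₂ c) →
  (∀ c ∈ Fn n k, Ψ₁ c → Set.ncard (T c) = m₁) →
  (∀ c ∈ Fn n k, Ψ₂ c → Set.ncard (T c) = m₂) →
  (∀ c ∈ Fn n k, ¬ Ψ₁ c → ¬ Ψ₂ c → Set.ncard (T c) = 0) →
  num (n + 3) k Φ = m₁ * num n k Ψ₁ + m₂ * num n k Ψ₂

/-- The triples of colours of the new vertices `x = n`, `x₁ = n + 1`, `x₂ = n + 2` of operation X,
if the vertices `s, t, w` have the colours `s, t, w`. -/
def Triples (k s t w : ℕ) : Set (ℕ × ℕ × ℕ) := {v | v.1 < k ∧ v.2.1 < k ∧ v.2.2 < k ∧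
  v.1 ≠ s ∧ v.1 ≠ t ∧ v.2.1 ≠ s ∧ v.2.1 ≠ w ∧ v.2.1 ≠ v.1 ∧ v.2.2 ≠ t ∧ v.2.2 ≠ w ∧
  v.2.2 ≠ v.1 ∧ v.2.1 ≠ v.2.2}

/-- **PAI** (80 lines). Numbers of pairs of colours. Proof. `P` is the set of forbidden colours for
both; choose `x₁` among the `k - |P| - 1` colours `≠ s` outside `P`; then `x₂ ≠ t, x₁` outside `P`.
If `s = t`: `(Q - 1)(Q - 2)` with `Q = k - |P|`.  If `s ≠ t`: the pairs `x₁ ≠ s`, `x₂ ≠ t` are
`(Q - 1)^2`, those with `x₁ = x₂` are `Q - 2`. -/
def S_PAI : Prop := ∀ (k s t : ℕ) (P : Finset ℕ), (∀ x ∈ P, x < k) → s < k → t < k → s ∉ P → t ∉ P →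
  ((Set.ncard {v : ℕ × ℕ | v.1 < k ∧ v.2 < k ∧ v.1 ∉ P ∧ v.2 ∉ P ∧ v.1 ≠ s ∧ v.2 ≠ t ∧ v.1 ≠ v.2} : ℕ)
    : ℝ) = if s = t then ((k : ℝ) - P.card - 1) * ((k : ℝ) - P.card - 2)
      else ((k : ℝ) - P.card) ^ 2 - 3 * ((k : ℝ) - P.card) + 3

/-- **TRI** (120 lines, uses PAI). Numbers of triples. For fixed `x` the pair `(x₁, x₂)` is as in PAI
with `P = {x, w}`: `α` or `γ` pairs if `x = w` (`P = {w}`, Q = k - 1) and `β` or `δ` pairs if
`x ≠ w` (Q = k - 2), with α = (k-2)(k-3), β = (k-3)(k-4) for s = t and γ = k²-5k+7, δ = k²-7k+13 for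
s ≠ t. The colours `x ≠ s, t`: count those with `x = u` / `x ≠ u`. -/
def S_TRI : Prop := ∀ (k s t u w : ℕ), s < k → t < k → u < k → w < k → w ≠ s → w ≠ t → u ≠ s → u ≠ t →
  let N₁ : ℝ := (Set.ncard {v ∈ Triples k s t w | u = v.1} : ℕ)
  let N₂ : ℝ := (Set.ncard {v ∈ Triples k s t w | u ≠ v.1} : ℕ)
  let α : ℝ := ((k : ℝ) - 2) * (k - 3)
  let β : ℝ := ((k : ℝ) - 3) * (k - 4)
  let γ : ℝ := (k : ℝ) ^ 2 - 5 * k + 7
  let δ : ℝ := (k : ℝ) ^ 2 - 7 * k + 13
  (s = t → u = w → N₁ = α ∧ N₂ = (k - 2) * β) ∧ (s = t → u ≠ w → N₁ = β ∧ N₂ = α + (k - 3) * β) ∧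
  (s ≠ t → u = w → N₁ = γ ∧ N₂ = (k - 3) * δ) ∧ (s ≠ t → u ≠ w → N₁ = δ ∧ N₂ = γ + (k - 4) * δ)

/-- **ERC** (120 lines, uses EXT). The effect of operation E on the four counts. Proof: EXT with
`Ψ₁, Ψ₂` the two properties (u = w or u ≠ w) and `Φ` the property of the new relation: the colour
`v` of the new vertex `n` must be different from `c s`, `c t`, `c w`, and equal resp. different from
`c u`; `c u`, `c w` are different from `c s`, `c t` since `H` contains the quadrangle.  (`c` is proper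
for `insG H n s t w` iff it is proper for `H` and `c n ≠ c s, c t, c w`; `update c n v` agrees with
`c` below `n`.) -/
def S_ERC : Prop := S_EXT → ∀ (n k s t u w : ℕ) (H : ℕ → ℕ → Prop), 4 ≤ k → Quadr n H s t u w →
  pA (n + 1) k (insG H n s t w) s t u n = pB n k H s t u w ∧
  (pB (n + 1) k (insG H n s t w) s t u n : ℝ) =
    ((k : ℝ) - 2) * pA n k H s t u w + ((k : ℝ) - 3) * pB n k H s t u w ∧
  pC (n + 1) k (insG H n s t w) s t u n = pD n k H s t u w ∧
  (pD (n + 1) k (insG H n s t w) s t u n : ℝ) =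
    ((k : ℝ) - 3) * pC n k H s t u w + ((k : ℝ) - 4) * pD n k H s t u w

/-- **XRC** (120 lines, uses EXT3, TRI). The effect of operation X. Proof: EXT3 and TRI: a colouring
of `n + 3` vertices is proper for `opG H n s t w` iff it is proper for `H` and the colours of
`n, n + 1, n + 2` are in `Triples k (c s) (c t) (c w)`. (If some count in `ℝ` is needed as a natural
number take `m₁, m₂` := the ncards of the sets of TRI for any `c`; they depend only on the case.) -/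
def S_XRC : Prop := S_EXT3 → S_TRI → ∀ (n k s t u w : ℕ) (H : ℕ → ℕ → Prop), 4 ≤ k →
  Quadr n H s t u w →
  let α : ℝ := ((k : ℝ) - 2) * (k - 3)
  let β : ℝ := ((k : ℝ) - 3) * (k - 4)
  let γ : ℝ := (k : ℝ) ^ 2 - 5 * k + 7
  let δ : ℝ := (k : ℝ) ^ 2 - 7 * k + 13
  (pA (n + 3) k (opG H n s t w) s t u n : ℝ) = α * pA n k H s t u w + β * pB n k H s t u w ∧
  (pB (n + 3) k (opG H n s t w) s t u n : ℝ) =
    (k - 2) * β * pA n k H s t u w + (α + (k - 3) * β) * pB n k H s t u w ∧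
  (pC (n + 3) k (opG H n s t w) s t u n : ℝ) = γ * pC n k H s t u w + δ * pD n k H s t u w ∧
  (pD (n + 3) k (opG H n s t w) s t u n : ℝ) =
    (k - 3) * δ * pC n k H s t u w + (γ + (k - 4) * δ) * pD n k H s t u w

/-- **INC** (60 lines, uses EXT). Inserting a vertex in a triangle multiplies the number of
colourings by `k - 3`; and the number of colourings of `K₄`. -/
def S_INC : Prop := S_EXT →
  (∀ (n k a b c : ℕ) (G : ℕ → ℕ → Prop), 4 ≤ k → (∀ x y, G x y → x < n ∧ y < n) → a < n → b < n →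
    c < n → G a b → G a c → G b c →
    (num (n + 1) k (Proper (insG G n a b c)) : ℝ) = ((k : ℝ) - 3) * num n k (Proper G)) ∧
  ∀ k : ℕ, 4 ≤ k → (num 4 k (Proper (fun x y => x < 4 ∧ y < 4 ∧ x ≠ y)) : ℝ) =
    (k : ℝ) * (k - 1) * (k - 2) * (k - 3)

/-- **KER** (120 lines). Counting polynomials exist. Proof. Group the functions `c ∈ Fn n k` by their
kernel on `{0, …, n - 1}` (a `Setoid (Fin n)`; finitely many): the number of `c` with a given kernel
with `m` classes is the number of injections from the classes to `{0, …, k - 1}`, that is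
`k (k-1) ⋯ (k-m+1) = (descPochhammer ℝ m).eval k`
(`Fintype.card_embedding_eq`, `Nat.cast_descFactorial`/`descPochhammer_eval_eq_descFactorial`).
`Φ` depends only on the kernel. Alternative: induction on `n` (the last vertex gets the colour of one of
the classes or a new colour). -/
def S_KER : Prop := ∀ (n : ℕ) (Φ : (ℕ → ℕ) → Prop),
  (∀ c c' : ℕ → ℕ, (∀ x y, x < n → y < n → (c x = c y ↔ c' x = c' y)) → (Φ c ↔ Φ c')) →
  ∃ p : ℝ[X], ∀ k : ℕ, p.eval (k : ℝ) = (num n k Φ : ℝ)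

/-- **CNV** (50 lines). The count as the number of colourings `Fin n → Fin k`. Proof: the bijection
`c ↦ (x ↦ ⟨c x, _⟩)`, `Set.ncard_congr`/`Nat.card_congr`. -/
def S_CNV : Prop := ∀ (n k : ℕ) (G : ℕ → ℕ → Prop), (∀ x y, G x y → x < n ∧ y < n) →
  Nat.card {c : Fin n → Fin k // ∀ x y : Fin n, G x y → c x ≠ c y} = num n k (Proper G)

/-! ## Triangulations -/

/-- **INV** (80 lines). Invariants of triangulations, by induction on `Tri`. For a flip: a face which is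
not `abc`, `abd` does not contain both `a` and `b` (by `honly`), so its pairs are still adjacent; the new
faces `acd`, `bcd` have the edges `ac, ad, bc, bd` of the old faces and `cd`. -/
def S_INV : Prop := ∀ (n : ℕ) (G : ℕ → ℕ → Prop) (F : Set (Finset ℕ)), Tri n G F →
  4 ≤ n ∧ (∀ x y, G x y → x < n ∧ y < n ∧ x ≠ y ∧ G y x) ∧
  (∀ f ∈ F, f.card = 3 ∧ ∀ x ∈ f, x < n ∧ ∀ y ∈ f, x ≠ y → G x y)

/-- **OPE** (80 lines, uses INV). Operation E on states. The only faces of `insF F n s t w` containing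
`s, t` are `{s,t,u}` and `{s,t,n}` (the face `{s,t,w}` was removed). Also the new `w = n` is not
adjacent to `u`, the relation `G - st` is a quadrangle relation, and deleting `s t` commutes with the
operation (the relations are equal: funext, propext, `n ≠ s, t`). -/
def S_OPE : Prop := S_INV → ∀ (n s t u w : ℕ) (G : ℕ → ℕ → Prop) (F : Set (Finset ℕ)),
  St n G F s t u w →
  St (n + 1) (insG G n s t w) (insF F n s t w) s t u n ∧ ¬ (insG G n s t w) u n ∧
  delE (insG G n s t w) s t = insG (delE G s t) n s t w ∧ Quadr n (delE G s t) s t u w ∧ G s t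

/-- **OPX** (120 lines, uses INV). Operation X on states: insert `n` in `s t w`, `n + 1` in `s w n`,
`n + 2` in `t w n`, flip `w n` to `(n + 1)(n + 2)`. The only faces containing `w, n` before the flip are
`{w, n, n + 1}` and `{w, n, n + 2}`. -/
def S_OPX : Prop := S_INV → ∀ (n s t u w : ℕ) (G : ℕ → ℕ → Prop) (F : Set (Finset ℕ)),
  St n G F s t u w →
  St (n + 3) (opG G n s t w) (opF F n s t w) s t u n ∧ ¬ (opG G n s t w) u n ∧
  delE (opG G n s t w) s t = opG (delE G s t) n s t w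

/-- **FLP** (80 lines, uses INV). The flip of the edge `s t` of a state and the polynomials of the two
triangulations; and the flipped triangulation is again a state if `u w` was not an edge, with the roles
of `(s, t)` and `(u, w)` exchanged and the same `H` (`delE (flipG G s t u w) u w = delE G s t`, as
relations, since `¬ G u w`, `¬ G w u`). The only faces of `flipF F s t u w` containing `u, w` are
`{s,u,w}`, `{t,u,w}` (INV: a face of `F` containing `u` and `w` would give `G u w`). -/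
def S_FLP : Prop := S_INV → ∀ (n s t u w : ℕ) (G : ℕ → ℕ → Prop) (F : Set (Finset ℕ)),
  St n G F s t u w → ¬ G u w →
  Tri n (flipG G s t u w) (flipF F s t u w) ∧
  St n (flipG G s t u w) (flipF F s t u w) u w s t ∧
  delE (flipG G s t u w) u w = delE G s t ∧
  (∀ k : ℕ, num n k (Proper G) = pC n k (delE G s t) s t u w + pD n k (delE G s t) s t u w) ∧
  (∀ k : ℕ, num n k (Proper (flipG G s t u w)) =
    pB n k (delE G s t) s t u w + pD n k (delE G s t) s t u w) ∧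
  (∀ k : ℕ, pA n k (delE G s t) u w s t = pA n k (delE G s t) s t u w ∧
    pB n k (delE G s t) u w s t = pC n k (delE G s t) s t u w ∧
    pC n k (delE G s t) u w s t = pB n k (delE G s t) s t u w ∧
    pD n k (delE G s t) u w s t = pD n k (delE G s t) s t u w)

/-- `q` is good: it is a zero of a triangulation or there is a state with `(A + B)(C + D) < 0` at `q` -/
def Good (q : ℝ) : Prop :=
  (∃ (n : ℕ) (G : ℕ → ℕ → Prop) (F : Set (Finset ℕ)) (p : ℝ[X]), Tri n G F ∧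
    IsP (fun k => num n k (Proper G)) p ∧ p.eval q = 0) ∨
  ∃ (n : ℕ) (G : ℕ → ℕ → Prop) (F : Set (Finset ℕ)) (s t u w : ℕ) (A B C D : ℝ[X]),
    St n G F s t u w ∧ Quad n (delE G s t) s t u w A B C D ∧
    (A.eval q + B.eval q) * (C.eval q + D.eval q) < 0

/-- **SGN** (120 lines, uses KER, INC, INV, FLP). If a triangulation is not positive at `q > 3` then `q`
is good. Proof. Induction on `Tri`: either `P > 0` or `Good q`. Base: `q(q-1)(q-2)(q-3) > 0`. Insertion: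
`P' = (q - 3) P` (polynomials which agree at all integers `k ≥ 4` are equal; counting polynomials exist by
KER). Flip of `ab` to `cd` (state `s t u w = a b c d`): by induction `C + D > 0` (or good). If
`B + D > 0`: done, `= 0`: good (zero). Let `B + D < 0`. If `A + C > 0`, the flipped triangulation with
the state `(c, d; a, b)`, whose polynomials are `A, C, B, D` (FLP), gives `(A + C)(B + D) < 0`: good.
If `A + C ≤ 0` then `A + B + C + D < 0`, so `A + B < 0` since `C + D > 0`: the state `(a, b; c, d)` is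
good. -/
def S_SGN : Prop := S_EXT → S_KER → S_INC → S_INV → S_FLP → ∀ (q : ℝ), 3 < q →
  ∀ (n : ℕ) (G : ℕ → ℕ → Prop) (F : Set (Finset ℕ)), Tri n G F →
  ∀ p : ℝ[X], IsP (fun k => num n k (Proper G)) p → 0 < p.eval q ∨ Good q

/-- **ITR** (120 lines, uses ERC, XRC, OPE, OPX). Iterating the operations: `k₂` times X, then `k₁` times
E. Induction; from the recurrences `A' + B' = (q - 2)(A + B)`, `(q-2)A' - B' = -((q-2)A - B)`,
`C' + D' = (q-3)(C + D)`, `(q-3)C' - D' = -((q-3)C - D)` for E and the factors `(q-2)(q-3)^2`,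
`2(q-3)`, `q^3-9q^2+29q-32`, `2(q-3)` for X. (The new polynomials are defined by the recurrences, e.g.
`A' = B`, `B' = (X - 2) A + (X - 3) B`; their values at the integers `k ≥ 4` are the new counts by ERC, XRC.) -/
def S_ITR : Prop := S_EXT → S_EXT3 → S_TRI → S_ERC → S_XRC → S_INV → S_OPE → S_OPX →
  ∀ (n s t u w : ℕ) (G : ℕ → ℕ → Prop) (F : Set (Finset ℕ)) (A B C D : ℝ[X]),
  St n G F s t u w → Quad n (delE G s t) s t u w A B C D → ∀ k₁ k₂ : ℕ,
  ∃ (n' w' : ℕ) (G' : ℕ → ℕ → Prop) (F' : Set (Finset ℕ)) (A' B' C' D' : ℝ[X]),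
    St n' G' F' s t u w' ∧ Quad n' (delE G' s t) s t u w' A' B' C' D' ∧
    (1 ≤ k₁ → ¬ G' u w') ∧ ∀ q : ℝ,
    A'.eval q + B'.eval q =
      (q - 2) ^ k₁ * ((q - 2) * (q - 3) ^ 2) ^ k₂ * (A.eval q + B.eval q) ∧
    (q - 2) * A'.eval q - B'.eval q =
      (-1) ^ k₁ * (2 * (q - 3)) ^ k₂ * ((q - 2) * A.eval q - B.eval q) ∧
    C'.eval q + D'.eval q =
      (q - 3) ^ k₁ * (q ^ 3 - 9 * q ^ 2 + 29 * q - 32) ^ k₂ * (C.eval q + D.eval q) ∧
    (q - 3) * C'.eval q - D'.eval q =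
      (-1) ^ k₁ * (2 * (q - 3)) ^ k₂ * ((q - 3) * C.eval q - D.eval q)

/-! ## Analysis -/

/-- **MON** (120 lines). The ratio of the logarithms is strictly decreasing. Let
`L(q) = q^3-9q^2+29q-32 = (q-3)^3 + 2(q-3) + 1`, `E(q) = (q-2)/(q-3) > 1`,
`Y(q) = (q-2)(q-3)^2/L(q)`; `1 - Y = (2 - (q-4)^2)/L ∈ (0, 1)` for `4 < q < 5`.
Claim: `(-log Y(b)) log E(a) < (-log Y(a)) log E(b)` for `4 ≤ a < b ≤ 5` (so `(-log Y)/log E` is strictly
decreasing). Proof: let `x = q - 3 ∈ [1, 2]`. The function `h = log(-log Y) - log(log E)` has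
`h' = -Y'/(Y (-log Y)) + 1/((q-2)(q-3) log E)`. Here `-log Y ≤ (1 - Y)/Y`, so the first term is
`≤ -Y'/(1 - Y)` (as `Y' > 0`), and `log E ≥ 1/(q-2)` (`log(1+y) ≥ y/(1+y)`), so the second is
`≤ 1/(q-3)`. And `Y'/(1-Y) > 1/(q-3)` since `(1 - Y)(q - 3)` is strictly decreasing on `[4, 5]`:
`(1-Y) x = x (2 - (x-1)^2)/(x^3+2x+1)`, whose derivative has numerator
`(1 + 4x - 3x^2)(x^3+2x+1) - (x + 2x^2 - x^3)(3x^2+2) = 1 + 4x + ... < 0` on `[1, 2]` - please check
numerically: at `x = 1`: `2*4 - 2*5 = -2 < 0`, at `x = 2`: `-3*13 - 2*14 < 0`.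
Alternative without derivatives of logarithms: any other proof of the two-variable inequality. -/
def S_MON : Prop := ∀ a b : ℝ, 4 < a → a < b → b < 5 →
  let Y : ℝ → ℝ := fun q => (q - 2) * (q - 3) ^ 2 / (q ^ 3 - 9 * q ^ 2 + 29 * q - 32)
  let E : ℝ → ℝ := fun q => (q - 2) / (q - 3)
  (0 < Y a ∧ Y a < 1 ∧ 1 < E a ∧ 0 < Y b ∧ Y b < 1 ∧ 1 < E b) ∧
  (-Real.log (Y b)) * Real.log (E a) < (-Real.log (Y a)) * Real.log (E b)

/-- **CHO** (80 lines, uses MON). Choice of the ratio of the numbers of operations: for `4 < a < b < 5`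
there are `m₁, m₂ ≥ 1` with `E(a)^m₁ Y(a)^m₂ < 1 < E(b)^m₁ Y(b)^m₂`. Proof: by MON choose a rational
`m₁/m₂` strictly between `(-log Y(b))/log E(b)` and `(-log Y(a))/log E(a)` (both positive) and take
exponentials. -/
def S_CHO : Prop := S_MON → ∀ a b : ℝ, 4 < a → a < b → b < 5 →
  let Y : ℝ → ℝ := fun q => (q - 2) * (q - 3) ^ 2 / (q ^ 3 - 9 * q ^ 2 + 29 * q - 32)
  let E : ℝ → ℝ := fun q => (q - 2) / (q - 3)
  ∃ m₁ m₂ : ℕ, 1 ≤ m₁ ∧ 1 ≤ m₂ ∧ E a ^ m₁ * Y a ^ m₂ < 1 ∧ 1 < E b ^ m₁ * Y b ^ m₂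

/-- **SIG** (120 lines). The signs for a large number `N` of repetitions (`k₁ = m₁ N`, `k₂ = m₂ N`).
Let `4 < q < 5` and `V N = ((q-2) f Λ^N - z κ^N)/(q-1) + ((q-3) g Λ'^N - z' κ^N)/(q-2)` with
`Λ = (q-2)^m₁ ((q-2)(q-3)^2)^m₂`, `Λ' = (q-3)^m₁ L^m₂`, `κ = (-1)^m₁ (2(q-3))^m₂`. Then `|κ| < Λ`,
`|κ| < Λ'` (`2 < (q-2)(q-3)`, `2(q-3) < L = (q-3)^3 + 2(q-3) + 1`, `1 < q - 3`). If `Λ < Λ'` then
`V N / Λ'^N → (q-3) g/(q-2)`, so `V N` has the sign of `g` for large `N`; if `Λ' < Λ` it has the sign of `f`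
(`tendsto_pow_atTop_nhds_zero_of_lt_one`). -/
def S_SIG : Prop := ∀ (q f g z z' : ℝ) (m₁ m₂ : ℕ), 4 < q → q < 5 → 1 ≤ m₁ → 1 ≤ m₂ →
  let Λ : ℝ := (q - 2) ^ m₁ * ((q - 2) * (q - 3) ^ 2) ^ m₂
  let Λ' : ℝ := (q - 3) ^ m₁ * (q ^ 3 - 9 * q ^ 2 + 29 * q - 32) ^ m₂
  let κ : ℝ := (-1) ^ m₁ * (2 * (q - 3)) ^ m₂
  let V : ℕ → ℝ := fun N => ((q - 2) * f * Λ ^ N - z * κ ^ N) / (q - 1) +
    ((q - 3) * g * Λ' ^ N - z' * κ ^ N) / (q - 2)
  (Λ < Λ' → g ≠ 0 → ∀ᶠ N in Filter.atTop, 0 < g * V N) ∧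
  (Λ' < Λ → f ≠ 0 → ∀ᶠ N in Filter.atTop, 0 < f * V N)

/-- **FIN** (120 lines, uses CHO, SIG, ITR, FLP). From a good point to a zero nearby. Proof. In the first
case of `Good` take `q' = q`. In the second case `(A+B)(C+D) < 0` on a neighbourhood of `q`; take
`a < b` in it, within `ε` of `q`, in `(4, 5)`; CHO gives `m₁, m₂`; by SIG for large `N` the polynomial
`B' + D'` of ITR for `k₁ = m₁ N`, `k₂ = m₂ N` (`N ≥ 1`), which is
`((q-2)(A'+B') - ((q-2)A'-B'))/(q-1) + ((q-3)(C'+D') - ((q-3)C'-D'))/(q-2)`, has the sign of `C + D` at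
`a` and of `A + B` at `b`, so it has a zero between (intermediate value theorem); it is the polynomial of
the flipped triangulation by FLP. (`E < 1`-conditions of CHO are `Λ < Λ'` at `a`, `Λ' < Λ` at `b` after
multiplication with `(q-3)^m₁ L^m₂ > 0`.) -/
def S_FIN : Prop := S_MON → S_CHO → S_SIG → S_EXT → S_EXT3 → S_TRI → S_ERC → S_XRC → S_INV → S_OPE →
  S_OPX → S_ITR → S_FLP → ∀ q : ℝ, 4 < q → q < 5 → Good q → ∀ ε : ℝ, 0 < ε →
  ∃ q' : ℝ, |q' - q| < ε ∧ ∃ (n : ℕ) (G : ℕ → ℕ → Prop) (F : Set (Finset ℕ)) (p : ℝ[X]), Tri n G F ∧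
    IsP (fun k => num n k (Proper G)) p ∧ p.eval q' = 0

end Pool.Agent.E9helper80.TD
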