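import Pool.Agent.E9helper80.TD.Stm

/-!
# Piece TRI (helper75): numbers of triples of colours
-/

namespace Pool.Agent.E9helper80.TD

namespace TRI

open Finset

/-- the pairs of colours, for a given colour `x` of the first new vertex -/
def prs (k s t w x : ℕ) : Finset (ℕ × ℕ) :=
  (range k ×ˢ range k).filter (fun p => p.1 ∉ ({x, w} : Finset ℕ) ∧ p.2 ∉ ({x, w} : Finset ℕ) ∧
    p.1 ≠ s ∧ p.2 ≠ t ∧ p.1 ≠ p.2)

theorem prs_coe (k s t w x : ℕ) : (prs k s t w x : Set (ℕ × ℕ)) =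
    {v : ℕ × ℕ | v.1 < k ∧ v.2 < k ∧ v.1 ∉ ({x, w} : Finset ℕ) ∧ v.2 ∉ ({x, w} : Finset ℕ) ∧
      v.1 ≠ s ∧ v.2 ≠ t ∧ v.1 ≠ v.2} := by
  ext p
  simp [prs, and_assoc]

theorem fib (k s t w : ℕ) (S : Finset ℕ) (hS : ∀ x ∈ S, x < k ∧ x ≠ s ∧ x ≠ t) :
    Set.ncard {v ∈ Triples k s t w | v.1 ∈ S} = ∑ x ∈ S, (prs k s t w x).card := by
  have h : {v ∈ Triples k s t w | v.1 ∈ S} =
      ((S.biUnion (fun x => (prs k s t w x).image (fun p => (x, p))) : Finset (ℕ × ℕ × ℕ)) :
        Set (ℕ × ℕ × ℕ)) := by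
    ext ⟨x, p, q⟩
    simp only [Triples, Set.mem_ofPred_eq, Finset.coe_biUnion, Set.mem_iUnion, Finset.mem_coe,
      Finset.mem_image, prs, Finset.mem_filter, Finset.mem_product, Finset.mem_range,
      Finset.mem_insert, Finset.mem_singleton, not_or, Prod.mk.injEq, Prod.exists]
    constructor
    · rintro ⟨⟨h1, h2, h3, h4, h5, h6, h7, h8, h9, h10, h11, h12⟩, hx⟩
      exact ⟨x, hx, p, q, ⟨⟨h2, h3⟩, ⟨h8, h7⟩, ⟨h11, h10⟩, h6, h9, h12⟩, rfl, rfl, rfl⟩
    · rintro ⟨x', hx', p', q', ⟨⟨h2, h3⟩, ⟨h8, h7⟩, ⟨h11, h10⟩, h6, h9, h12⟩, rfl, rfl, rfl⟩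
      obtain ⟨a1, a2, a3⟩ := hS x' hx'
      exact ⟨⟨a1, h2, h3, a2, a3, h6, h7, h8, h9, h10, h11, h12⟩, hx'⟩
  rw [h, Set.ncard_coe_finset, Finset.card_biUnion]
  · refine Finset.sum_congr rfl fun x _ => ?_
    rw [Finset.card_image_of_injective]
    intro p q hpq
    simpa using hpq
  · intro x _ y _ hxy
    refine Finset.disjoint_left.mpr ?_
    intro v hv hv'
    rw [Finset.mem_image] at hv hv'
    obtain ⟨p, _, rfl⟩ := hv
    obtain ⟨q, _, hq⟩ := hv'
    exact hxy (by simpa using (congrArg Prod.fst hq).symm)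

theorem sum_ite (S : Finset ℕ) (w : ℕ) (c₁ c₂ : ℝ) :
    ∑ x ∈ S, (if x = w then c₁ else c₂) =
      if w ∈ S then c₁ + ((S.card : ℝ) - 1) * c₂ else S.card * c₂ := by
  have h : ∀ x ∈ S, (if x = w then c₁ else c₂) = c₂ + (if x = w then c₁ - c₂ else 0) := by
    intro x _
    split_ifs <;> ring
  rw [Finset.sum_congr rfl h, Finset.sum_add_distrib, Finset.sum_const, Finset.sum_ite_eq',
    nsmul_eq_mul]
  split_ifs <;> ring

end TRI

open Finset TRI in
theorem s_tri (hP : S_PAI) : S_TRI := by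
  intro k s t u w hs ht hu hw hws hwt hus hut
  have hc : ∀ x, x < k → x ≠ s → x ≠ t → ((prs k s t w x).card : ℝ) =
      if x = w then (if s = t then ((k : ℝ) - 2) * (k - 3) else (k : ℝ) ^ 2 - 5 * k + 7)
      else (if s = t then ((k : ℝ) - 3) * (k - 4) else (k : ℝ) ^ 2 - 7 * k + 13) := by
    intro x hx hxs hxt
    have h := hP k s t {x, w} (by
      intro z hz
      rw [Finset.mem_insert, Finset.mem_singleton] at hz
      rcases hz with rfl | rfl
      · exact hx
      · exact hw) hs ht (by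
        rw [Finset.mem_insert, Finset.mem_singleton, not_or]
        exact ⟨Ne.symm hxs, Ne.symm hws⟩) (by
        rw [Finset.mem_insert, Finset.mem_singleton, not_or]
        exact ⟨Ne.symm hxt, Ne.symm hwt⟩)
    rw [← prs_coe, Set.ncard_coe_finset] at h
    rw [h]
    by_cases hxw : x = w
    · have e : (({x, w} : Finset ℕ).card : ℝ) = 1 := by
        rw [hxw]
        simp
      rw [e, if_pos hxw]
      split_ifs <;> ring
    · have e : (({x, w} : Finset ℕ).card : ℝ) = 2 := by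
        rw [Finset.card_pair hxw]
        norm_num
      rw [e, if_neg hxw]
      split_ifs <;> ring
  -- the first number
  have e1 : {v ∈ Triples k s t w | u = v.1} = {v ∈ Triples k s t w | v.1 ∈ ({u} : Finset ℕ)} := by
    ext v
    simp only [Set.mem_ofPred_eq, Finset.mem_singleton]
    exact and_congr_right fun _ => eq_comm
  have hN1 : ((Set.ncard {v ∈ Triples k s t w | u = v.1} : ℕ) : ℝ) =
      if u = w then (if s = t then ((k : ℝ) - 2) * (k - 3) else (k : ℝ) ^ 2 - 5 * k + 7)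
      else (if s = t then ((k : ℝ) - 3) * (k - 4) else (k : ℝ) ^ 2 - 7 * k + 13) := by
    rw [e1, fib k s t w {u} (by
      intro x hx
      rw [Finset.mem_singleton] at hx
      subst hx
      exact ⟨hu, hus, hut⟩), Finset.sum_singleton]
    exact hc u hu hus hut
  -- the second number
  have e2 : {v ∈ Triples k s t w | u ≠ v.1} =
      {v ∈ Triples k s t w | v.1 ∈ range k \ ({s, t, u} : Finset ℕ)} := by
    ext v
    simp only [Set.mem_ofPred_eq, Finset.mem_sdiff, Finset.mem_range, Finset.mem_insert,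
      Finset.mem_singleton, not_or]
    constructor
    · rintro ⟨h, h'⟩
      exact ⟨h, h.1, h.2.2.2.1, h.2.2.2.2.1, Ne.symm h'⟩
    · rintro ⟨h, _, _, _, h'⟩
      exact ⟨h, Ne.symm h'⟩
  have hS : ∀ x ∈ range k \ ({s, t, u} : Finset ℕ), x < k ∧ x ≠ s ∧ x ≠ t := by
    intro x hx
    simp only [Finset.mem_sdiff, Finset.mem_range, Finset.mem_insert,
      Finset.mem_singleton, not_or] at hx
    exact ⟨hx.1, hx.2.1, hx.2.2.1⟩
  have hsub : ({s, t, u} : Finset ℕ) ⊆ range k := by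
    intro x hx
    simp only [Finset.mem_insert, Finset.mem_singleton] at hx
    rw [Finset.mem_range]
    rcases hx with rfl | rfl | rfl <;> assumption
  have hcard : ((range k \ ({s, t, u} : Finset ℕ)).card : ℝ) = k - (if s = t then 2 else 3) := by
    rw [Finset.cast_card_sdiff hsub, Finset.card_range]
    congr 1
    by_cases hst : s = t
    · subst hst
      rw [if_pos rfl]
      have : ({s, s, u} : Finset ℕ) = {s, u} := by
        ext x
        simp
      rw [this, Finset.card_pair (Ne.symm hus)]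
      norm_num
    · rw [if_neg hst, Finset.card_eq_three.mpr ⟨s, t, u, hst, Ne.symm hus, Ne.symm hut, rfl⟩]
      norm_num
  have hmem : w ∈ range k \ ({s, t, u} : Finset ℕ) ↔ u ≠ w := by
    simp only [Finset.mem_sdiff, Finset.mem_range, Finset.mem_insert,
      Finset.mem_singleton, not_or]
    constructor
    · rintro ⟨_, _, _, h⟩
      exact Ne.symm h
    · intro h
      exact ⟨hw, hws, hwt, Ne.symm h⟩
  have hN2 : ((Set.ncard {v ∈ Triples k s t w | u ≠ v.1} : ℕ) : ℝ) =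
      ∑ x ∈ range k \ ({s, t, u} : Finset ℕ),
        if x = w then (if s = t then ((k : ℝ) - 2) * (k - 3) else (k : ℝ) ^ 2 - 5 * k + 7)
        else (if s = t then ((k : ℝ) - 3) * (k - 4) else (k : ℝ) ^ 2 - 7 * k + 13) := by
    rw [e2, fib k s t w _ hS]
    push_cast
    refine Finset.sum_congr rfl fun x hx => ?_
    obtain ⟨a1, a2, a3⟩ := hS x hx
    exact hc x a1 a2 a3
  rw [sum_ite, hcard] at hN2
  intro N₁ N₂ α β γ δ
  refine ⟨fun hst huw => ?_, fun hst huw => ?_, fun hst huw => ?_, fun hst huw => ?_⟩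
  · rw [if_pos huw, if_pos hst] at hN1
    rw [if_neg (fun h => hmem.mp h huw), if_pos hst, if_pos hst] at hN2
    exact ⟨hN1, hN2⟩
  · rw [if_neg huw, if_pos hst] at hN1
    rw [if_pos (hmem.mpr huw), if_pos hst, if_pos hst, if_pos hst] at hN2
    refine ⟨hN1, hN2.trans ?_⟩
    ring
  · rw [if_pos huw, if_neg hst] at hN1
    rw [if_neg (fun h => hmem.mp h huw), if_neg hst, if_neg hst] at hN2
    exact ⟨hN1, hN2⟩
  · rw [if_neg huw, if_neg hst] at hN1
    rw [if_pos (hmem.mpr huw), if_neg hst, if_neg hst, if_neg hst] at hN2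
    refine ⟨hN1, hN2.trans ?_⟩
    ring

end Pool.Agent.E9helper80.TD
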