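import Pool.Agent.E9helper80.TD.Stm

/-! # Project TD, piece XRC (helper11): operation X -/

set_option autoImplicit false

namespace Pool.Agent.E9helper80.TD

namespace XRCP

lemma proper_iff {n s t u w : ℕ} {H : ℕ → ℕ → Prop} (hQ : Quadr n H s t u w) (c c' : ℕ → ℕ)
    (hc : ∀ x, x < n → c' x = c x) :
    Proper (opG H n s t w) c' ↔ Proper H c ∧ (c' n ≠ c s ∧ c' n ≠ c t ∧ c' (n + 1) ≠ c s ∧
      c' (n + 1) ≠ c w ∧ c' (n + 1) ≠ c' n ∧ c' (n + 2) ≠ c t ∧ c' (n + 2) ≠ c w ∧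
      c' (n + 2) ≠ c' n ∧ c' (n + 1) ≠ c' (n + 2)) := by
  have hs := hc s hQ.sn
  have ht := hc t hQ.tn
  have hw := hc w hQ.wn
  have sn := hQ.sn
  have tn := hQ.tn
  have wn := hQ.wn
  have sw : s ≠ w := hQ.ne s w hQ.sw
  have tw : t ≠ w := hQ.ne t w hQ.tw
  constructor
  · intro h
    refine ⟨fun x y hxy => ?_, ?_, ?_, ?_, ?_, ?_, ?_, ?_, ?_, ?_⟩
    · obtain ⟨hx, hy⟩ := hQ.lt x y hxy
      have h1 := h x y (Or.inl ⟨Or.inl (Or.inl (Or.inl hxy)), by omega, by omega⟩)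
      rwa [hc x hx, hc y hy] at h1
    · have h1 := h n s (Or.inl ⟨Or.inl (Or.inl (Or.inr (by omega))), by omega, by omega⟩)
      omega
    · have h1 := h n t (Or.inl ⟨Or.inl (Or.inl (Or.inr (by omega))), by omega, by omega⟩)
      omega
    · have h1 := h (n + 1) s (Or.inl ⟨Or.inl (Or.inr (by omega)), by omega, by omega⟩)
      omega
    · have h1 := h (n + 1) w (Or.inl ⟨Or.inl (Or.inr (by omega)), by omega, by omega⟩)
      omega
    · exact h (n + 1) n (Or.inl ⟨Or.inl (Or.inr (by omega)), by omega, by omega⟩)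
    · have h1 := h (n + 2) t (Or.inl ⟨Or.inr (by omega), by omega, by omega⟩)
      omega
    · have h1 := h (n + 2) w (Or.inl ⟨Or.inr (by omega), by omega, by omega⟩)
      omega
    · exact h (n + 2) n (Or.inl ⟨Or.inr (by omega), by omega, by omega⟩)
    · exact h (n + 1) (n + 2) (Or.inr (by omega))
  · rintro ⟨h, g1, g2, g3, g4, g5, g6, g7, g8, g9⟩ x y hxy
    rcases hxy with ⟨((hh | hh | hh) | hh | hh) | hh | hh, h1, h2⟩ | hh | hh
    · obtain ⟨hx, hy⟩ := hQ.lt x y hh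
      rw [hc x hx, hc y hy]
      exact h x y hh
    · rcases hh with ⟨h3, h4 | h4 | h4⟩ <;> rw [h3, h4] <;> omega
    · rcases hh with ⟨h3, h4 | h4 | h4⟩ <;> rw [h3, h4] <;> omega
    · rcases hh with ⟨h3, h4 | h4 | h4⟩ <;> rw [h3, h4] <;> omega
    · rcases hh with ⟨h3, h4 | h4 | h4⟩ <;> rw [h3, h4] <;> omega
    · rcases hh with ⟨h3, h4 | h4 | h4⟩ <;> rw [h3, h4] <;> omega
    · rcases hh with ⟨h3, h4 | h4 | h4⟩ <;> rw [h3, h4] <;> omega
    · rw [hh.1, hh.2]
      exact g9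
    · rw [hh.1, hh.2]
      exact g9.symm

lemma upd (c : ℕ → ℕ) (n v0 v1 v2 : ℕ) :
    (∀ x, x < n → Function.update (Function.update (Function.update c n v0) (n + 1) v1) (n + 2) v2 x
      = c x) ∧
    Function.update (Function.update (Function.update c n v0) (n + 1) v1) (n + 2) v2 n = v0 ∧
    Function.update (Function.update (Function.update c n v0) (n + 1) v1) (n + 2) v2 (n + 1) = v1 ∧
    Function.update (Function.update (Function.update c n v0) (n + 1) v1) (n + 2) v2 (n + 2) = v2 := by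
  refine ⟨fun x hx => ?_, ?_, ?_, ?_⟩
  · rw [Function.update_of_ne (by omega), Function.update_of_ne (by omega),
      Function.update_of_ne (by omega)]
  · rw [Function.update_of_ne (by omega), Function.update_of_ne (by omega), Function.update_self]
  · rw [Function.update_of_ne (by omega), Function.update_self]
  · rw [Function.update_self]

lemma core (hE3 : S_EXT3) {n s t u w : ℕ} {H : ℕ → ℕ → Prop} (k : ℕ) (hQ : Quadr n H s t u w)
    (e₁ e₂ : ℕ → ℕ → Prop) (m₁ m₂ : ℕ)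
    (h₁ : ∀ a b x y : ℕ, a < k → b < k → x < k → y < k → y ≠ a → y ≠ b → x ≠ a → x ≠ b → e₁ a b →
      x = y → Set.ncard {v ∈ Triples k a b y | e₂ x v.1} = m₁)
    (h₂ : ∀ a b x y : ℕ, a < k → b < k → x < k → y < k → y ≠ a → y ≠ b → x ≠ a → x ≠ b → e₁ a b →
      x ≠ y → Set.ncard {v ∈ Triples k a b y | e₂ x v.1} = m₂) :
    num (n + 3) k (fun c => Proper (opG H n s t w) c ∧ e₁ (c s) (c t) ∧ e₂ (c u) (c n)) =
      m₁ * num n k (fun c => Proper H c ∧ e₁ (c s) (c t) ∧ c u = c w) +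
      m₂ * num n k (fun c => Proper H c ∧ e₁ (c s) (c t) ∧ c u ≠ c w) := by
  have key : ∀ (c : ℕ → ℕ) (v : ℕ × ℕ × ℕ),
      (Proper (opG H n s t w) (Function.update (Function.update (Function.update c n v.1) (n + 1)
        v.2.1) (n + 2) v.2.2) ∧
      e₁ (Function.update (Function.update (Function.update c n v.1) (n + 1) v.2.1) (n + 2) v.2.2 s)
        (Function.update (Function.update (Function.update c n v.1) (n + 1) v.2.1) (n + 2) v.2.2 t) ∧
      e₂ (Function.update (Function.update (Function.update c n v.1) (n + 1) v.2.1) (n + 2) v.2.2 u)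
        (Function.update (Function.update (Function.update c n v.1) (n + 1) v.2.1) (n + 2) v.2.2 n))
      ↔ (Proper H c ∧ (v.1 ≠ c s ∧ v.1 ≠ c t ∧ v.2.1 ≠ c s ∧ v.2.1 ≠ c w ∧ v.2.1 ≠ v.1 ∧
        v.2.2 ≠ c t ∧ v.2.2 ≠ c w ∧ v.2.2 ≠ v.1 ∧ v.2.1 ≠ v.2.2)) ∧ e₁ (c s) (c t) ∧
        e₂ (c u) v.1 := by
    intro c v
    obtain ⟨u1, u2, u3, u4⟩ := upd c n v.1 v.2.1 v.2.2
    rw [proper_iff hQ c _ u1, u1 s hQ.sn, u1 t hQ.tn, u1 u hQ.un, u2, u3, u4]
  have hset : ∀ c : ℕ → ℕ, Proper H c → e₁ (c s) (c t) →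
      {v : ℕ × ℕ × ℕ | v.1 < k ∧ v.2.1 < k ∧ v.2.2 < k ∧
        (Proper (opG H n s t w) (Function.update (Function.update (Function.update c n v.1) (n + 1)
        v.2.1) (n + 2) v.2.2) ∧
      e₁ (Function.update (Function.update (Function.update c n v.1) (n + 1) v.2.1) (n + 2) v.2.2 s)
        (Function.update (Function.update (Function.update c n v.1) (n + 1) v.2.1) (n + 2) v.2.2 t) ∧
      e₂ (Function.update (Function.update (Function.update c n v.1) (n + 1) v.2.1) (n + 2) v.2.2 u)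
        (Function.update (Function.update (Function.update c n v.1) (n + 1) v.2.1) (n + 2) v.2.2 n))}
      = {v ∈ Triples k (c s) (c t) (c w) | e₂ (c u) v.1} := by
    intro c hp he
    ext v
    rw [Set.mem_ofPred_eq, key c v, Set.mem_ofPred_eq, Triples, Set.mem_ofPred_eq]
    constructor
    · rintro ⟨a1, a2, a3, ⟨-, a4⟩, -, a5⟩
      exact ⟨⟨a1, a2, a3, a4⟩, a5⟩
    · rintro ⟨⟨a1, a2, a3, a4⟩, a5⟩
      exact ⟨a1, a2, a3, ⟨hp, a4⟩, he, a5⟩
  refine hE3 n k m₁ m₂ (fun c => Proper (opG H n s t w) c ∧ e₁ (c s) (c t) ∧ e₂ (c u) (c n))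
    (fun c => Proper H c ∧ e₁ (c s) (c t) ∧ c u = c w)
    (fun c => Proper H c ∧ e₁ (c s) (c t) ∧ c u ≠ c w) ?_ ?_ ?_ ?_
  · rintro c - ⟨-, -, h1⟩ ⟨-, -, h2⟩
    exact h2 h1
  · rintro c hc ⟨hp, he, hu⟩
    refine (congrArg Set.ncard (hset c hp he)).trans ?_
    exact h₁ (c s) (c t) (c u) (c w) (hc.1 s hQ.sn) (hc.1 t hQ.tn) (hc.1 u hQ.un) (hc.1 w hQ.wn)
      (hp s w hQ.sw).symm (hp t w hQ.tw).symm (hp s u hQ.su).symm (hp t u hQ.tu).symm he hu
  · rintro c hc ⟨hp, he, hu⟩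
    refine (congrArg Set.ncard (hset c hp he)).trans ?_
    exact h₂ (c s) (c t) (c u) (c w) (hc.1 s hQ.sn) (hc.1 t hQ.tn) (hc.1 u hQ.un) (hc.1 w hQ.wn)
      (hp s w hQ.sw).symm (hp t w hQ.tw).symm (hp s u hQ.su).symm (hp t u hQ.tu).symm he hu
  · intro c hc hn1 hn2
    refine (congrArg Set.ncard (Set.eq_empty_of_forall_notMem fun v hv => ?_)).trans (Set.ncard_empty _)
    obtain ⟨-, -, -, h⟩ := hv
    obtain ⟨⟨hp, -⟩, he, -⟩ := (key c v).1 h
    by_cases hu : c u = c w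
    · exact hn1 ⟨hp, he, hu⟩
    · exact hn2 ⟨hp, he, hu⟩

end XRCP

open XRCP

theorem s_xrc : S_XRC := by
  intro hE3 hT n k s t u w H hk hQ
  obtain ⟨j, rfl⟩ : ∃ j, k = j + 4 := ⟨k - 4, by omega⟩
  have hA := core hE3 (j + 4) hQ (fun a b => a = b) (fun a b => a = b) ((j + 2) * (j + 1))
    ((j + 1) * j)
    (fun a b x y ha hb hx hy hya hyb hxa hxb he hxy => by
      have h := ((hT (j + 4) a b x y ha hb hx hy hya hyb hxa hxb).1 he hxy).1
      exact Nat.cast_injective (R := ℝ) (h.trans (by push_cast; ring)))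
    (fun a b x y ha hb hx hy hya hyb hxa hxb he hxy => by
      have h := ((hT (j + 4) a b x y ha hb hx hy hya hyb hxa hxb).2.1 he hxy).1
      exact Nat.cast_injective (R := ℝ) (h.trans (by push_cast; ring)))
  have hB := core hE3 (j + 4) hQ (fun a b => a = b) (fun a b => a ≠ b) ((j + 2) * ((j + 1) * j))
    ((j + 2) * (j + 1) + (j + 1) * ((j + 1) * j))
    (fun a b x y ha hb hx hy hya hyb hxa hxb he hxy => by
      have h := ((hT (j + 4) a b x y ha hb hx hy hya hyb hxa hxb).1 he hxy).2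
      exact Nat.cast_injective (R := ℝ) (h.trans (by push_cast; ring)))
    (fun a b x y ha hb hx hy hya hyb hxa hxb he hxy => by
      have h := ((hT (j + 4) a b x y ha hb hx hy hya hyb hxa hxb).2.1 he hxy).2
      exact Nat.cast_injective (R := ℝ) (h.trans (by push_cast; ring)))
  have hC := core hE3 (j + 4) hQ (fun a b => a ≠ b) (fun a b => a = b) (j ^ 2 + 3 * j + 3)
    (j ^ 2 + j + 1)
    (fun a b x y ha hb hx hy hya hyb hxa hxb he hxy => by
      have h := ((hT (j + 4) a b x y ha hb hx hy hya hyb hxa hxb).2.2.1 he hxy).1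
      exact Nat.cast_injective (R := ℝ) (h.trans (by push_cast; ring)))
    (fun a b x y ha hb hx hy hya hyb hxa hxb he hxy => by
      have h := ((hT (j + 4) a b x y ha hb hx hy hya hyb hxa hxb).2.2.2 he hxy).1
      exact Nat.cast_injective (R := ℝ) (h.trans (by push_cast; ring)))
  have hD := core hE3 (j + 4) hQ (fun a b => a ≠ b) (fun a b => a ≠ b)
    ((j + 1) * (j ^ 2 + j + 1)) (j ^ 2 + 3 * j + 3 + j * (j ^ 2 + j + 1))
    (fun a b x y ha hb hx hy hya hyb hxa hxb he hxy => by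
      have h := ((hT (j + 4) a b x y ha hb hx hy hya hyb hxa hxb).2.2.1 he hxy).2
      exact Nat.cast_injective (R := ℝ) (h.trans (by push_cast; ring)))
    (fun a b x y ha hb hx hy hya hyb hxa hxb he hxy => by
      have h := ((hT (j + 4) a b x y ha hb hx hy hya hyb hxa hxb).2.2.2 he hxy).2
      exact Nat.cast_injective (R := ℝ) (h.trans (by push_cast; ring)))
  have hA' : pA (n + 3) (j + 4) (opG H n s t w) s t u n = (j + 2) * (j + 1) * pA n (j + 4) H s t u w +
    (j + 1) * j * pB n (j + 4) H s t u w := hA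
  have hB' : pB (n + 3) (j + 4) (opG H n s t w) s t u n =
    (j + 2) * ((j + 1) * j) * pA n (j + 4) H s t u w +
    ((j + 2) * (j + 1) + (j + 1) * ((j + 1) * j)) * pB n (j + 4) H s t u w := hB
  have hC' : pC (n + 3) (j + 4) (opG H n s t w) s t u n =
    (j ^ 2 + 3 * j + 3) * pC n (j + 4) H s t u w + (j ^ 2 + j + 1) * pD n (j + 4) H s t u w := hC
  have hD' : pD (n + 3) (j + 4) (opG H n s t w) s t u n =
    (j + 1) * (j ^ 2 + j + 1) * pC n (j + 4) H s t u w +
    (j ^ 2 + 3 * j + 3 + j * (j ^ 2 + j + 1)) * pD n (j + 4) H s t u w := hD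
  refine ⟨?_, ?_, ?_, ?_⟩
  · rw [hA']
    push_cast
    ring
  · rw [hB']
    push_cast
    ring
  · rw [hC']
    push_cast
    ring
  · rw [hD']
    push_cast
    ring

end Pool.Agent.E9helper80.TD
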